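import Mathlib
import Pool.Agent.U214.RM.Comb

/-!
# Unlinked sets of indices, with multiplicities
-/

set_option autoImplicit false

namespace Pool.Agent.U214.GT

open Finset Pool.Agent.W262.RK Pool.Agent.W762.RK2 Pool.Agent.U214.RM

lemma key3 {q a b c x y z E : ℝ} (hq : 1 ≤ q) (hqa : q ≤ a) (haN : a ≤ q ^ 2)
    (hab : a * b ≤ q ^ 2) (hac : a * c ≤ q ^ 2) (hy : 0 ≤ y) (hz : 0 ≤ z)
    (h1 : q * (x + y + z) ≤ E) (h2 : q ^ 2 * x + y + z ≤ E) :
    a * x + b * y + c * z ≤ E := by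
  have ha : 0 < a := by linarith
  have hq0 : 0 < q := by linarith
  rcases hq.eq_or_lt with h | h
  · rw [← h] at haN hab hac h1 hqa
    have ha1 : a = 1 := by linarith
    rw [ha1] at hab hac ⊢
    nlinarith
  · have hb : b ≤ q + 1 - a / q := by
      have h3 : a * (q + 1 - a / q) = (q + 1) * a - a ^ 2 / q := by
        field_simp
      have h4 : q ^ 2 ≤ (q + 1) * a - a ^ 2 / q := by
        rw [← sub_nonneg]
        have : (q + 1) * a - a ^ 2 / q - q ^ 2 = (a - q) * (q ^ 2 - a) / q := by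
          field_simp
          ring
        rw [this]
        exact div_nonneg (mul_nonneg (by linarith) (by linarith)) hq0.le
      have h5 : a * b ≤ a * (q + 1 - a / q) := by rw [h3]; linarith
      exact le_of_mul_le_mul_left h5 ha
    have hc : c ≤ q + 1 - a / q := by
      have h3 : a * (q + 1 - a / q) = (q + 1) * a - a ^ 2 / q := by
        field_simp
      have h4 : q ^ 2 ≤ (q + 1) * a - a ^ 2 / q := by
        rw [← sub_nonneg]
        have : (q + 1) * a - a ^ 2 / q - q ^ 2 = (a - q) * (q ^ 2 - a) / q := by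
          field_simp
          ring
        rw [this]
        exact div_nonneg (mul_nonneg (by linarith) (by linarith)) hq0.le
      have h5 : a * c ≤ a * (q + 1 - a / q) := by rw [h3]; linarith
      exact le_of_mul_le_mul_left h5 ha
    have h3 : a * x + b * y + c * z ≤ a * x + (q + 1 - a / q) * (y + z) := by
      have := mul_le_mul_of_nonneg_right hb hy
      have := mul_le_mul_of_nonneg_right hc hz
      linarith
    refine h3.trans ?_
    have hpos : 0 < q ^ 2 - q := by nlinarith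
    have h4 : (q ^ 2 - q) * (a * x + (q + 1 - a / q) * (y + z)) =
        (q ^ 2 - a) * (q * (x + y + z)) + (a - q) * (q ^ 2 * x + y + z) := by
      field_simp
      ring
    have h5 : (q ^ 2 - q) * (a * x + (q + 1 - a / q) * (y + z)) ≤ (q ^ 2 - q) * E := by
      rw [h4]
      have := mul_le_mul_of_nonneg_left h1 (by linarith : 0 ≤ q ^ 2 - a)
      have := mul_le_mul_of_nonneg_left h2 (by linarith : 0 ≤ a - q)
      linarith
    exact le_of_mul_le_mul_left h5 hpos

lemma three_m {q a b c x y z E : ℝ} (hq : 1 ≤ q)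
    (ha : a ≤ q ^ 2) (hb : b ≤ q ^ 2) (hc : c ≤ q ^ 2) (hab : a * b ≤ q ^ 2)
    (hbc : b * c ≤ q ^ 2) (hac : a * c ≤ q ^ 2) (hx : 0 ≤ x) (hy : 0 ≤ y) (hz : 0 ≤ z)
    (h0 : q * (x + y + z) ≤ E) (h1 : q ^ 2 * x + y + z ≤ E) (h2 : x + q ^ 2 * y + z ≤ E)
    (h3 : x + y + q ^ 2 * z ≤ E) : a * x + b * y + c * z ≤ E := by
  by_cases c1 : q ≤ a
  · exact key3 hq c1 ha hab hac hy hz h0 h1
  by_cases c2 : q ≤ b
  · have := key3 hq c2 hb (by rw [mul_comm]; exact hab) hbc hx hz (by linarith)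
      (by linarith : q ^ 2 * y + x + z ≤ E)
    linarith
  by_cases c3 : q ≤ c
  · have := key3 hq c3 hc (by rw [mul_comm]; exact hac) (by rw [mul_comm]; exact hbc) hx hy
      (by linarith) (by linarith : q ^ 2 * z + x + y ≤ E)
    linarith
  push Not at c1 c2 c3
  have e1 := mul_le_mul_of_nonneg_right c1.le hx
  have e2 := mul_le_mul_of_nonneg_right c2.le hy
  have e3 := mul_le_mul_of_nonneg_right c3.le hz
  linarith

lemma sup1 {α : Type} (s : Finset α) (f : α → ℕ) :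
    max 1 (s.sup f) = 1 ∨ ∃ j ∈ s, max 1 (s.sup f) = f j := by
  rcases s.eq_empty_or_nonempty with h | h
  · left
    rw [h, sup_empty]
    rfl
  · obtain ⟨j, hj, hs⟩ := exists_mem_eq_sup s h f
    rcases Nat.lt_or_ge (s.sup f) 1 with h1 | h1
    · left
      omega
    · right
      exact ⟨j, hj, by rw [max_eq_right h1, hs]⟩

variable {r : ℕ} {J : Type} [Fintype J] [DecidableEq J]

/-- the total weight by the forms -/
lemma sum_wM {cls : J → Fin 4} (M : J → ℝ) (U : Finset (Ir r cls)) :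
    ∑ i ∈ U, w_r cls i * M i.1.1 = ∑ j, wr r (cls j) * M j * ((Uj U j).card : ℝ) := by
  classical
  rw [← sum_fiberwise U (fun i => i.1.1)]
  refine sum_congr rfl fun j _ => ?_
  have h1 : ∀ i ∈ U.filter (fun i => i.1.1 = j), w_r cls i * M i.1.1 = wr r (cls j) * M j := by
    intro i hi
    unfold w_r
    rw [(mem_filter.1 hi).2]
  rw [sum_congr rfl h1, sum_const, nsmul_eq_mul, mul_comm]
  rfl

/-- the largest unlinked set -/
theorem comb_m {cls : J → Fin 4} {M : J → ℝ} (hM : ∀ j, 0 ≤ M j) {n0 n1 n2 : ℝ}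
    (hn0 : ∑ j ∈ univ.filter (fun j => cls j = 0), M j = n0)
    (hn1 : ∑ j ∈ univ.filter (fun j => cls j = 1), M j = n1)
    (hn2 : ∑ j ∈ univ.filter (fun j => cls j = 2), M j = n2) {e : ℝ} (he : 0 ≤ e)
    (h0 : ((2 : ℝ) ^ r - 1) * (n0 - (n1 + n2) / 2 ^ r) ≤ e)
    (h1 : ((2 : ℝ) ^ r - 1) * (n1 - (n0 + n2) / 2 ^ r) ≤ e)
    (h2 : ((2 : ℝ) ^ r - 1) * (n2 - (n0 + n1) / 2 ^ r) ≤ e)
    {U : Finset (Ir r cls)} (hU : Unl U) :
    ∑ i ∈ U, w_r cls i * M i.1.1 ≤ ∑ j, M j + e := by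
  classical
  rw [sum_wM]
  obtain ⟨q, hqd⟩ : ∃ q : ℝ, q = 2 ^ r := ⟨_, rfl⟩
  rw [← hqd] at h0 h1 h2
  have hq1 : 1 ≤ q := by rw [hqd]; exact one_le_pow₀ (by norm_num)
  have hq0 : 0 < q := by linarith
  have hN : ((4 ^ r : ℕ) : ℝ) = q ^ 2 := by
    rw [hqd]
    push_cast
    rw [← pow_mul, mul_comm, pow_mul]
    norm_num
  obtain ⟨P, hP⟩ : ∃ P : Fin 4 → Finset J, P = fun k => univ.filter (fun j => cls j = k) :=
    ⟨_, rfl⟩
  have hsplit : ∀ f : J → ℝ, ∑ j, f j = ∑ k : Fin 4, ∑ j ∈ P k, f j := fun f => by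
    rw [hP]
    exact (sum_fiberwise univ cls f).symm
  have hmem : ∀ k j, j ∈ P k → cls j = k := fun k j hj => by
    rw [hP] at hj
    exact (mem_filter.1 hj).2
  rw [hsplit, hsplit M, Fin.sum_univ_four, Fin.sum_univ_four]
  have e0 : ∑ j ∈ P 0, M j = n0 := by rw [hP]; exact hn0
  have e1 : ∑ j ∈ P 1, M j = n1 := by rw [hP]; exact hn1
  have e2 : ∑ j ∈ P 2, M j = n2 := by rw [hP]; exact hn2
  rw [e0, e1, e2]
  have hn0' : 0 ≤ n0 := by rw [← e0]; exact sum_nonneg fun j _ => hM j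
  have hn1' : 0 ≤ n1 := by rw [← e1]; exact sum_nonneg fun j _ => hM j
  have hn2' : 0 ≤ n2 := by rw [← e2]; exact sum_nonneg fun j _ => hM j
  have h3 : ∑ j ∈ P 3, wr r (cls j) * M j * ((Uj U j).card : ℝ) ≤ ∑ j ∈ P 3, M j := by
    refine sum_le_sum fun j hj => ?_
    have hj' : cls j = 3 := hmem 3 j hj
    have h5 : ((Uj U j).card : ℝ) ≤ 4 ^ r := by exact_mod_cast card3 hU j
    have h6 : wr r (cls j) = (1 / 4) ^ r := by
      unfold wr wc
      rw [hj', if_pos rfl]
    rw [h6]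
    calc (1 / 4 : ℝ) ^ r * M j * (Uj U j).card ≤ (1 / 4) ^ r * M j * 4 ^ r :=
          mul_le_mul_of_nonneg_left h5 (mul_nonneg (by positivity) (hM j))
      _ = ((1 / 4) ^ r * 4 ^ r) * M j := by ring
      _ = M j := by rw [← mul_pow]; norm_num
  obtain ⟨A, hA⟩ : ∃ A : Fin 4 → ℕ, A = fun k => max 1 ((P k).sup fun j => (Uj U j).card) :=
    ⟨_, rfl⟩
  have hAs : ∀ k, A k = 1 ∨ ∃ j, cls j = k ∧ A k = (Uj U j).card := by
    intro k
    rw [hA]
    rcases sup1 (P k) (fun j => (Uj U j).card) with h | ⟨j, hj, h⟩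
    · exact Or.inl h
    · exact Or.inr ⟨j, hmem k j hj, h⟩
  have hN1 : 1 ≤ 4 ^ r := Nat.one_le_pow _ _ (by norm_num)
  have hAN : ∀ k, k ≠ 3 → A k ≤ 4 ^ r := by
    intro k hk
    rcases hAs k with h | ⟨j, hj, h⟩
    · rw [h]; exact hN1
    · rw [h]
      exact cardc U (by rw [hj]; exact hk)
  have hAA : ∀ k l, k ≠ 3 → l ≠ 3 → k ≠ l → A k * A l ≤ 4 ^ r := by
    intro k l hk hl hkl
    rcases hAs k with h | ⟨j, hj, h⟩
    · rw [h, one_mul]
      exact hAN l hl
    · rcases hAs l with h' | ⟨j', hj', h'⟩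
      · rw [h', mul_one]
        exact hAN k hk
      · rw [h, h']
        exact card_mul hU (by rw [hj]; exact hk) (by rw [hj']; exact hl)
          (by rw [hj, hj']; exact hkl)
  have hs : ∀ k : Fin 4, k ≠ 3 → ∑ j ∈ P k, wr r (cls j) * M j * ((Uj U j).card : ℝ) ≤
      (A k * ∑ j ∈ P k, M j) / q := by
    intro k hk
    rw [mul_sum, sum_div]
    refine sum_le_sum fun j hj => ?_
    have hj' : cls j = k := hmem k j hj
    have h6 : wr r (cls j) = 1 / q := by
      unfold wr wc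
      rw [hj', if_neg hk, hqd, div_pow, one_pow]
    have h7 : (Uj U j).card ≤ A k := by
      rw [hA]
      exact (le_sup (f := fun j => (Uj U j).card) hj).trans (le_max_right _ _)
    have h8 : ((Uj U j).card : ℝ) ≤ A k := by exact_mod_cast h7
    rw [h6]
    calc 1 / q * M j * ((Uj U j).card : ℝ) ≤ 1 / q * M j * A k :=
          mul_le_mul_of_nonneg_left h8 (mul_nonneg (by positivity) (hM j))
      _ = _ := by ring
  have s0 := hs 0 (by decide)
  have s1 := hs 1 (by decide)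
  have s2 := hs 2 (by decide)
  rw [e0] at s0
  rw [e1] at s1
  rw [e2] at s2
  have c : ∀ a : ℕ, a ≤ 4 ^ r → (a : ℝ) ≤ q ^ 2 := fun a ha => by
    rw [← hN]
    exact_mod_cast ha
  have cc : ∀ a b : ℕ, a * b ≤ 4 ^ r → (a : ℝ) * b ≤ q ^ 2 := fun a b ha => by
    rw [← hN]
    exact_mod_cast ha
  have conv : ∀ x s : ℝ, (q - 1) * (x - s / q) ≤ e → q ^ 2 * x + s ≤ q * (x + s + e) := by
    intro x s h
    have h4 := mul_le_mul_of_nonneg_left h hq0.le
    have h5 : q * ((q - 1) * (x - s / q)) = (q - 1) * (q * x - s) := by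
      field_simp
    rw [h5] at h4
    nlinarith
  have hmain := three_m (E := q * (n0 + n1 + n2 + e)) hq1 (c _ (hAN 0 (by decide)))
    (c _ (hAN 1 (by decide))) (c _ (hAN 2 (by decide)))
    (cc _ _ (hAA 0 1 (by decide) (by decide) (by decide)))
    (cc _ _ (hAA 1 2 (by decide) (by decide) (by decide)))
    (cc _ _ (hAA 0 2 (by decide) (by decide) (by decide))) hn0' hn1' hn2'
    (mul_le_mul_of_nonneg_left (by linarith) hq0.le)
    (by have := conv n0 (n1 + n2) h0; linarith)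
    (by have := conv n1 (n0 + n2) h1; linarith)
    (by have := conv n2 (n0 + n1) h2; linarith)
  have hfin : (A 0 * n0) / q + (A 1 * n1) / q + (A 2 * n2) / q ≤ n0 + n1 + n2 + e := by
    rw [← add_div, ← add_div, div_le_iff₀ hq0]
    linarith
  linarith

end Pool.Agent.U214.GT
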