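import Pool.Agent.U214.GT.AT6
import Pool.Agent.W762.RK2.EXP4b

/-!
# The abstract bound without the restriction on the size of the weights
-/

set_option autoImplicit false

namespace Pool.Agent.U214.GT

open Finset Pool.Agent.U214.PT Pool.Agent.W262.RK Pool.Agent.W762.RK2

section

variable {ι : Type} [Fintype ι] [DecidableEq ι] {z y : ℕ}

lemma prod_ghi (h : ι → ℕ → ℝ) (l : Pr z y → Option ι) :
    ∏ i, gh (h i) (Dl l i) = ∏ p : Pr z y, (l p).elim 1 fun i => h i p := by
  have h1 : ∀ i, gh (h i) (Dl l i) = ∏ p : Pr z y,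
      if l p = some i then h i p else 1 := by
    intro i
    unfold gh Dl
    rw [prod_pf _ fun p : ℕ => h i p]
    simp only [decide_eq_true_eq]
  rw [Finset.prod_congr rfl fun i _ => h1 i, Finset.prod_comm]
  refine Finset.prod_congr rfl fun p _ => ?_
  cases h : l p with
  | none => simp
  | some j => simp

lemma SymG_Dl (L : ι → ι → Bool) (ψ : ι → ℕ → ℝ) (l : Pr z y → Option ι) :
    SymG L ψ (Dl l) =
      (∏ p : Pr z y, ∏ q : Pr z y, if Pool.Agent.W762.RK2.lk L (l q) (l p) = true then Jr (q : ℕ) p else 1) *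
        ∏ p : Pr z y, (l p).elim 1 fun i => ψ i p := by
  have h1 := Sym_Dl L (fun _ => (1 : ℤ)) l
  unfold Pool.Agent.W262.RK.Sym at h1
  have h2 : ∏ p : Pr z y, ((l p).elim (1 : ℝ) fun _ => Jr 1 p) = 1 := by
    refine prod_eq_one fun p _ => ?_
    cases l p with
    | none => rfl
    | some i => exact Jr_one' _
  simp only [Jr_one', prod_const_one, mul_one] at h1 h2
  rw [h2, mul_one] at h1
  unfold SymG
  rw [h1, prod_ghi]

/-- the links of the split indices -/
lemma lk_fst (m : ℕ) (L : ι → ι → Bool) (a b : Option (ι × Fin m)) :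
    Pool.Agent.W762.RK2.lk (fun x x' : ι × Fin m => L x.1 x'.1) a b =
      Pool.Agent.W762.RK2.lk L (a.map Prod.fst) (b.map Prod.fst) := by
  cases a <;> cases b <;> rfl

lemma split_loc (m : ℕ) (hm : 0 < m) (u v : ι → ℝ) (x : Option ι) :
    ∑ a ∈ univ.filter (fun a : Option (ι × Fin m) => a.map Prod.fst = x),
      a.elim 1 (fun i => u i.1 / m * v i.1) = x.elim 1 fun i => u i * v i := by
  rw [Finset.sum_filter, Fintype.sum_option]
  have hm' : (m : ℝ) ≠ 0 := by exact_mod_cast hm.ne'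
  cases x with
  | none => simp
  | some i =>
    have h0 : ¬ (none : Option (ι × Fin m)).map Prod.fst = some i := by simp
    rw [if_neg h0, zero_add, Fintype.sum_prod_type, Finset.sum_eq_single i]
    · simp only [Option.map_some, if_true, Option.elim]
      rw [sum_const, card_univ, Fintype.card_fin, nsmul_eq_mul]
      field_simp
    · intro i' _ hi'
      refine sum_eq_zero fun j _ => ?_
      rw [if_neg]
      simpa using hi'
    · intro h
      exact absurd (mem_univ _) h

/-- the split of the indices -/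
theorem split_Tup (m : ℕ) (hm : 0 < m) (w : ι → ℝ) (L : ι → ι → Bool) (h κ : ι → ℕ → ℝ) :
    ∑ d ∈ Tup (ι × Fin m) z y, (∏ x, gh (fun p => w x.1 / m * h x.1 p) (d x)) *
      SymG (fun x x' : ι × Fin m => L x.1 x'.1) (fun x => κ x.1) d =
    ∑ d ∈ Tup ι z y, (∏ i, gh (fun p => w i * h i p) (d i)) * SymG L κ d := by
  classical
  rw [sum_Tup, sum_Tup, ← Finset.sum_fiberwise univ
    (fun (l : Pr z y → Option (ι × Fin m)) => fun p => (l p).map Prod.fst)]
  refine Finset.sum_congr rfl fun ξ _ => ?_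
  have h1 : (univ.filter fun l : Pr z y → Option (ι × Fin m) =>
      (fun p => (l p).map Prod.fst) = ξ) =
      Fintype.piFinset (fun p => univ.filter
        (fun x : Option (ι × Fin m) => x.map Prod.fst = ξ p)) := by
    ext l
    simp only [Finset.mem_filter, Finset.mem_univ, true_and, Fintype.mem_piFinset, funext_iff]
  obtain ⟨W, hW⟩ : ∃ W : ℝ, W = ∏ p : Pr z y, ∏ q : Pr z y,
    if Pool.Agent.W762.RK2.lk L (ξ q) (ξ p) = true then Jr (q : ℕ) p else 1 := ⟨_, rfl⟩
  have h2 : ∀ l ∈ Fintype.piFinset (fun p => univ.filter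
        (fun x : Option (ι × Fin m) => x.map Prod.fst = ξ p)),
      (∏ x, gh (fun p => w x.1 / m * h x.1 p) (Dl l x)) *
        SymG (fun x x' : ι × Fin m => L x.1 x'.1) (fun x => κ x.1) (Dl l) =
      W * ∏ p : Pr z y, (l p).elim 1 (fun i => w i.1 / m * (h i.1 p * κ i.1 p)) := by
    intro l hl
    rw [Fintype.mem_piFinset] at hl
    have hl' : ∀ p, (l p).map Prod.fst = ξ p := fun p => (mem_filter.1 (hl p)).2
    rw [prod_ghi, SymG_Dl, hW]
    have h3 : ∀ p q, Pool.Agent.W762.RK2.lk (fun x x' : ι × Fin m => L x.1 x'.1) (l q) (l p) =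
        Pool.Agent.W762.RK2.lk L (ξ q) (ξ p) := by
      intro p q
      rw [lk_fst, hl', hl']
    simp only [h3]
    rw [mul_left_comm, ← prod_mul_distrib]
    congr 1
    refine prod_congr rfl fun p _ => ?_
    cases l p with
    | none => simp
    | some i => simp only [Option.elim]; ring
  rw [h1, sum_congr rfl h2, ← mul_sum, prod_ghi, SymG_Dl, ← hW, mul_left_comm, ← prod_mul_distrib]
  congr 1
  rw [← Finset.prod_univ_sum (fun p => univ.filter
        (fun x : Option (ι × Fin m) => x.map Prod.fst = ξ p))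
        (fun p x => x.elim 1 (fun i => w i.1 / m * (h i.1 p * κ i.1 p)))]
  refine prod_congr rfl fun p _ => ?_
  rw [split_loc m hm w (fun i => h i p * κ i p) (ξ p)]
  cases ξ p with
  | none => simp
  | some i => simp only [Option.elim]; ring

end

/-- **The abstract bound**, all weights -/
theorem at_s (ι : Type) [Fintype ι] [DecidableEq ι] (w : ι → ℝ) (L : ι → ι → Bool)
    (h κ : ι → ℕ → ℝ) (B C0 : ℝ) (M : ι → ℝ) (z1 : ℕ) (K : ℝ)
    (H : ∀ i, Wt (h i) B C0 (M i) z1) (hκ : ∀ i p, |κ i p| ≤ 1)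
    (hw : ∀ i, 0 < w i) (hL : ∀ i, L i i = false)
    (hK : ∀ U : Finset ι, (∀ i ∈ U, ∀ j ∈ U, L i j = L j i) → ∑ i ∈ U, w i * M i ≤ K) :
    ∃ z0 : ℕ, ∀ z, z0 ≤ z → ∃ C : ℝ, ∀ y, z < y →
      |∑ d ∈ Tup ι z y, (∏ i, gh (fun p => w i * h i p) (d i)) * SymG L κ d| ≤
        C * (Real.log y) ^ K := by
  classical
  obtain ⟨m, hm⟩ : ∃ m, m = ⌈∑ i, w i * |B|⌉₊ + 1 := ⟨_, rfl⟩
  have hm0 : 0 < m := by omega
  have hmr : (0 : ℝ) < m := by exact_mod_cast hm0
  have hwB : ∀ i, w i * B ≤ m := by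
    intro i
    have h1 : w i * |B| ≤ ∑ i, w i * |B| := single_le_sum (f := fun i => w i * |B|)
      (fun j _ => mul_nonneg (hw j).le (abs_nonneg _)) (mem_univ i)
    have h2 := Nat.le_ceil (∑ i, w i * |B|)
    have h3 : w i * B ≤ w i * |B| := mul_le_mul_of_nonneg_left (le_abs_self B) (hw i).le
    have h4 : (m : ℝ) = (⌈∑ i, w i * |B|⌉₊ : ℝ) + 1 := by rw [hm]; push_cast; ring
    linarith
  obtain ⟨z0, hz0⟩ := at_g (ι × Fin m) (fun x => w x.1 / m) (fun x x' => L x.1 x'.1)
    (fun x => h x.1) (fun x => κ x.1) B C0 (fun x => M x.1) z1 K (fun x => H x.1)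
    (fun x => hκ x.1) (fun x => ⟨div_pos (hw x.1) hmr, by
      rw [div_mul_eq_mul_div, div_le_one hmr]
      exact hwB x.1⟩) (fun x => hL x.1) (fun U hU => by
      have h1 : U ⊆ (U.image Prod.fst) ×ˢ univ := by
        intro x hx
        rw [mem_product]
        exact ⟨mem_image_of_mem _ hx, mem_univ _⟩
      calc ∑ x ∈ U, w x.1 / m * M x.1 ≤ ∑ x ∈ (U.image Prod.fst) ×ˢ (univ : Finset (Fin m)),
            w x.1 / m * M x.1 := by
            refine sum_le_sum_of_subset_of_nonneg h1 fun x _ _ => ?_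
            exact mul_nonneg (div_nonneg (hw _).le hmr.le) (H _).M0.le
        _ = ∑ i ∈ U.image Prod.fst, w i * M i := by
            rw [sum_product]
            refine sum_congr rfl fun i _ => ?_
            simp only
            rw [sum_const, card_univ, Fintype.card_fin, nsmul_eq_mul]
            field_simp
        _ ≤ K := by
            refine hK _ fun i hi j hj => ?_
            obtain ⟨x, hx, rfl⟩ := mem_image.1 hi
            obtain ⟨x', hx', rfl⟩ := mem_image.1 hj
            exact hU x hx x' hx')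
  refine ⟨z0, fun z hz => ?_⟩
  obtain ⟨C, hC⟩ := hz0 z hz
  refine ⟨C, fun y hy => ?_⟩
  have := hC y hy
  rwa [split_Tup m hm0 w L h κ] at this

end Pool.Agent.U214.GT
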