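import Pool.Agent.U214.RM.ExpB
import Pool.Agent.U214.GT.Spl

/-!
# Expansion of the powers of the local counts into symbols, with sums over the residues
-/

set_option autoImplicit false

namespace Pool.Agent.U214.GT

open Finset Pool.Agent.W262.RK Pool.Agent.W108.RK Pool.Agent.W762.RK2 Pool.Agent.U214.RM
  Pool.Agent.U214.PT

section defs

variable {J : Type} [Fintype J]

/-- the primes of the tuple -/
def Ps (s : J → ℕ) : Finset ℕ := (∏ j, s j).primeFactors

/-- the residues for the tuple -/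
def Zs (Z : J → ℕ → Finset ℕ) (s : J → ℕ) (p : ℕ) : Finset ℕ :=
  (univ.filter (fun j => p ∣ s j)).biUnion (fun j => Z j p)

/-- signs and residues -/
def Cf (Z : J → ℕ → Finset ℕ) (s : J → ℕ) (p : ℕ) : Finset (Bool × ℕ) := univ ×ˢ Zs Z s p

/-- extension by a default value -/
def xt (P : Finset ℕ) (c : ∀ p ∈ P, Bool × ℕ) (p : ℕ) : Bool × ℕ :=
  if h : p ∈ P then c p h else (false, 0)

/-- the local conditions -/
def LLc (cls : J → Fin 4) (k : J → ℕ → Fin 3 → ℤ) (s : J → ℕ) (c : ℕ → Bool × ℕ) (p : ℕ)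
    (v w h g : Bool) : Prop :=
  ∀ j, p ∣ s j → LL (cls j) (k j (c p).2) (c p).1 p v w h g

/-- the sum of the powers of `NL` over the signs and the residues -/
noncomputable def NBS (r : ℕ) (cls : J → Fin 4) (Z : J → ℕ → Finset ℕ) (k : J → ℕ → Fin 3 → ℤ)
    (s : J → ℕ) : ℝ :=
  (1 / 2) ^ (Ps s).card * ∑ c ∈ (Ps s).pi (Cf Z s),
    (NL (∏ j, s j) (LLc cls k s (xt (Ps s) c)) : ℝ) ^ r

lemma NBS_nonneg (r : ℕ) (cls : J → Fin 4) (Z : J → ℕ → Finset ℕ) (k : J → ℕ → Fin 3 → ℤ)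
    (s : J → ℕ) : 0 ≤ NBS r cls Z k s := by
  unfold NBS
  exact mul_nonneg (by positivity) (sum_nonneg fun _ _ => pow_nonneg (Nat.cast_nonneg _) _)

end defs

variable {r : ℕ} {J : Type} [Fintype J] [DecidableEq J] {z y : ℕ}

/-- the local indicator -/
noncomputable def Ic (cls : J → Fin 4) (k : J → ℕ → Fin 3 → ℤ) (s : J → ℕ) (d : ℕ × ℕ)
    (x : Bool × ℕ) (p : ℕ) : ℝ :=
  ind (∀ j, p ∣ s j → LL (cls j) (k j x.2) x.1 p (dv p d.1) (dv p d.2) (sgn p d.1) (sgn p d.2))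

lemma sum_pi {P : Finset ℕ} (t : ℕ → Finset (Bool × ℕ)) (F : ℕ → Bool × ℕ → ℝ) :
    ∑ c ∈ P.pi t, ∏ p ∈ P, F p (xt P c p) = ∏ p ∈ P, ∑ x ∈ t p, F p x := by
  rw [Finset.prod_sum]
  refine sum_congr rfl fun c _ => ?_
  rw [← Finset.prod_attach]
  refine prod_congr rfl fun p _ => ?_
  unfold xt
  rw [dif_pos p.2]

lemma NBS_eq (r : ℕ) (cls : J → Fin 4) (Z : J → ℕ → Finset ℕ) (k : J → ℕ → Fin 3 → ℤ)
    (s : J → ℕ) :
    NBS r cls Z k s = ∑ d ∈ DD r (∏ j, s j),
      ∏ p ∈ (∏ j, s j).primeFactors, ((∑ x ∈ Cf Z s p, ∏ l, Ic cls k s (d l) x p) / 2) := by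
  classical
  have h1 : ∀ c : ℕ → Bool × ℕ, (NL (∏ j, s j) (LLc cls k s c) : ℝ) =
      ∑ d ∈ (∏ j, s j).divisors ×ˢ (∏ j, s j).divisors,
        ∏ p ∈ (∏ j, s j).primeFactors, Ic cls k s d (c p) p := by
    intro c
    unfold NL
    rw [Finset.card_filter]
    push_cast
    refine Finset.sum_congr rfl fun d _ => ?_
    unfold Ic
    rw [prod_ind]
    unfold ind LLc
    congr
  have h2 : ∀ c : ℕ → Bool × ℕ, (NL (∏ j, s j) (LLc cls k s c) : ℝ) ^ r =
      ∑ d ∈ DD r (∏ j, s j), ∏ p ∈ (∏ j, s j).primeFactors,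
        ∏ l, Ic cls k s (d l) (c p) p := by
    intro c
    have h3 : (NL (∏ j, s j) (LLc cls k s c) : ℝ) ^ r =
        ∏ _l : Fin r, (NL (∏ j, s j) (LLc cls k s c) : ℝ) := by
      rw [prod_const, card_univ, Fintype.card_fin]
    rw [h3, h1 c]
    unfold DD
    rw [Finset.prod_univ_sum]
    refine Finset.sum_congr rfl fun d _ => ?_
    rw [Finset.prod_comm]
  unfold NBS
  rw [Finset.sum_congr rfl fun c _ => h2 _, Finset.sum_comm, Finset.mul_sum]
  refine Finset.sum_congr rfl fun d _ => ?_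
  have h4 := sum_pi (P := (∏ j, s j).primeFactors) (Cf Z s)
    (fun p x => ∏ l, Ic cls k s (d l) x p)
  unfold Ps
  rw [h4, ← prod_const, ← prod_mul_distrib]
  refine prod_congr rfl fun p _ => ?_
  ring

/-- the local term -/
noncomputable def Tms (cls : J → Fin 4) (Z : J → ℕ → Finset ℕ) (k : J → ℕ → Fin 3 → ℤ)
    (h : ℕ → ℝ) (ξ : Pr z y → Option (J × V r)) (p : Pr z y) : ℝ :=
  (ξ p).elim 1 fun a => h p * (∑ θ ∈ Z a.1 p, (∏ l, ind (LL (cls a.1) (k a.1 θ) true p (a.2 l).1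
    (a.2 l).2 (sgn p (D1r ξ l)) (sgn p (D2r ξ l))) + ∏ l, ind (LL (cls a.1) (k a.1 θ) false p
    (a.2 l).1 (a.2 l).2 (sgn p (D1r ξ l)) (sgn p (D2r ξ l)))) / 2)

lemma lhs_eqs (cls : J → Fin 4) (Z : J → ℕ → Finset ℕ) (k : J → ℕ → Fin 3 → ℤ) (h : ℕ → ℝ) :
    ∑ s ∈ Tup J z y, NBS r cls Z k s * ∏ j, gh h (s j) =
      ∑ ξ : Pr z y → Option (J × V r), ∏ p, Tms cls Z k h ξ p := by
  have h1 : ∀ s ∈ Tup J z y, NBS r cls Z k s * ∏ j, gh h (s j) =
      ∑ d ∈ DD r (∏ j, s j),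
        (∏ p ∈ (∏ j, s j).primeFactors, ((∑ x ∈ Cf Z s p, ∏ l, Ic cls k s (d l) x p) / 2)) *
          ∏ j, gh h (s j) := by
    intro s _
    rw [NBS_eq, Finset.sum_mul]
  rw [Finset.sum_congr rfl h1, sum_bigr fun s d =>
    (∏ p ∈ (∏ j, s j).primeFactors, ((∑ x ∈ Cf Z s p, ∏ l, Ic cls k s (d l) x p) / 2)) *
      ∏ j, gh h (s j)]
  refine Finset.sum_congr rfl fun ξ _ => ?_
  have h2 : ∏ j, gh h (SSr ξ j) = ∏ p : Pr z y, ((ξ p).map Prod.fst).elim 1
      fun _ => h p := prod_ghi (fun _ => h) _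
  have h3 : ∏ j, SSr ξ j = nb fun p => ((ξ p).map Prod.fst).isSome := prod_Dl _
  rw [h2, h3, prod_pf _ fun p => ((∑ x ∈ Cf Z (SSr ξ) p,
    ∏ l, Ic cls k (SSr ξ) (D1r ξ l, D2r ξ l) x p) / 2), ← Finset.prod_mul_distrib]
  refine Finset.prod_congr rfl fun p _ => ?_
  unfold Tms
  cases hx : ξ p with
  | none => simp
  | some a =>
    have e3 : ∀ j, (p : ℕ) ∣ SSr ξ j ↔ j = a.1 := by
      intro j
      unfold SSr Dl
      rw [dvd_nb, decide_eq_true_iff]
      show (ξ p).map Prod.fst = some j ↔ j = a.1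
      rw [hx]
      simp [eq_comm]
    have h4 : ∀ x l, Ic cls k (SSr ξ) (D1r ξ l, D2r ξ l) x p =
        ind (LL (cls a.1) (k a.1 x.2) x.1 p (a.2 l).1 (a.2 l).2 (sgn p (D1r ξ l))
          (sgn p (D2r ξ l))) := by
      intro x l
      unfold Ic
      have e1 : dv p (D1r ξ l : ℤ) = (a.2 l).1 := by
        have : b1r l (ξ p) = (a.2 l).1 := by rw [hx]; rfl
        rw [← this]
        unfold dv
        rw [Bool.eq_iff_iff, decide_eq_true_iff, Int.natCast_dvd_natCast]
        exact dvd_nb _ p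
      have e2 : dv p (D2r ξ l : ℤ) = (a.2 l).2 := by
        have : b2r l (ξ p) = (a.2 l).2 := by rw [hx]; rfl
        rw [← this]
        unfold dv
        rw [Bool.eq_iff_iff, decide_eq_true_iff, Int.natCast_dvd_natCast]
        exact dvd_nb _ p
      congr 1
      simp only [e1, e2, e3, forall_eq]
    have h5 : Cf Z (SSr ξ) p = univ ×ˢ Z a.1 p := by
      unfold Cf Zs
      congr 1
      have : univ.filter (fun j => (p : ℕ) ∣ SSr ξ j) = {a.1} := by
        ext j
        rw [mem_filter, mem_singleton, e3]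
        simp
      rw [this, singleton_biUnion]
    have h6 : ∑ x ∈ Cf Z (SSr ξ) p, ∏ l, Ic cls k (SSr ξ) (D1r ξ l, D2r ξ l) x p =
        ∑ θ ∈ Z a.1 p, (∏ l, ind (LL (cls a.1) (k a.1 θ) true p (a.2 l).1
    (a.2 l).2 (sgn p (D1r ξ l)) (sgn p (D2r ξ l))) + ∏ l, ind (LL (cls a.1) (k a.1 θ) false p
    (a.2 l).1 (a.2 l).2 (sgn p (D1r ξ l)) (sgn p (D2r ξ l)))) := by
      rw [h5, sum_product, Fintype.sum_bool, ← sum_add_distrib]
      refine sum_congr rfl fun θ _ => ?_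
      simp only [h4]
    rw [h6]
    simp only [Option.map_some, Option.isSome_some, if_true, Option.elim]
    rw [sum_div]
    ring

/-- the sum of the symbols over the residues -/
noncomputable def Jh (cls : J → Fin 4) (Z : J → ℕ → Finset ℕ) (k : J → ℕ → Fin 3 → ℤ)
    (j : J) (v x : V r) (p : ℕ) : ℝ := ∑ θ ∈ Z j p, Jr (kr (cls j) (k j θ) v x) p

/-- the multiplicative functions -/
noncomputable def psi (cls : J → Fin 4) (Z : J → ℕ → Finset ℕ) (k : J → ℕ → Fin 3 → ℤ)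
    (i : Ir r cls) (p : ℕ) : ℝ := Jh cls Z k i.1.1 i.1.2.1 i.1.2.2 p / (Z i.1.1 p).card

/-- the weights -/
noncomputable def hZ (Z : J → ℕ → Finset ℕ) (h : ℕ → ℝ) (j : J) (p : ℕ) : ℝ :=
  (Z j p).card * h p

omit [Fintype J] in
lemma abs_psi (cls : J → Fin 4) (Z : J → ℕ → Finset ℕ) (k : J → ℕ → Fin 3 → ℤ)
    (i : Ir r cls) (p : ℕ) : |psi cls Z k i p| ≤ 1 := by
  unfold psi
  rw [abs_div, Nat.abs_cast]
  apply div_le_one_of_le₀ _ (Nat.cast_nonneg _)
  unfold Jh
  refine (abs_sum_le_sum_abs _ _).trans ?_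
  calc ∑ θ ∈ Z i.1.1 p, |Jr (kr (cls i.1.1) (k i.1.1 θ) i.1.2.1 i.1.2.2) p|
      ≤ ∑ θ ∈ Z i.1.1 p, (1 : ℝ) := sum_le_sum fun θ _ => abs_Jr_le _ _
    _ = _ := by simp

omit [Fintype J] in
lemma hZ_psi (cls : J → Fin 4) (Z : J → ℕ → Finset ℕ) (k : J → ℕ → Fin 3 → ℤ) (h : ℕ → ℝ)
    (i : Ir r cls) (p : ℕ) : hZ Z h i.1.1 p * psi cls Z k i p =
      h p * Jh cls Z k i.1.1 i.1.2.1 i.1.2.2 p := by
  unfold hZ psi
  rcases Nat.eq_zero_or_pos (Z i.1.1 p).card with h0 | h0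
  · have h1 : Jh cls Z k i.1.1 i.1.2.1 i.1.2.2 p = 0 := by
      unfold Jh
      rw [card_eq_zero.1 h0, sum_empty]
    rw [h0, h1]
    simp
  · have h1 : ((Z i.1.1 p).card : ℝ) ≠ 0 := by exact_mod_cast h0.ne'
    field_simp

/-- the local factor -/
noncomputable def Gs (cls : J → Fin 4) (Z : J → ℕ → Finset ℕ) (k : J → ℕ → Fin 3 → ℤ)
    (h : ℕ → ℝ) (ξ : Pr z y → Option (J × V r)) (p : Pr z y) (x : Option (Ir r cls)) : ℝ :=
  x.elim 1 fun i => h p * (w_r cls i * (Jh cls Z k i.1.1 i.1.2.1 i.1.2.2 p *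
    ∏ l, ((if (i.1.2.2 l).1 = true then sg (sgn p (D1r ξ l)) else 1) *
      (if (i.1.2.2 l).2 = true then sg (sgn p (D2r ξ l)) else 1))))

lemma sum_Gs (cls : J → Fin 4) (Z : J → ℕ → Finset ℕ) (k : J → ℕ → Fin 3 → ℤ) (h : ℕ → ℝ)
    (ξ : Pr z y → Option (J × V r)) (p : Pr z y)
    (hk : ∀ j, ∀ θ ∈ Z j p, ∀ i, ¬ ((p : ℕ) : ℤ) ∣ k j θ i) :
    ∑ x ∈ univ.filter (fun x : Option (Ir r cls) => fgr x = ξ p), Gs cls Z k h ξ p x =
      Tms cls Z k h ξ p := by
  rw [Finset.sum_filter, Fintype.sum_option]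
  unfold Tms
  cases hx : ξ p with
  | none => simp [fgr, Gs]
  | some a =>
    obtain ⟨j, v⟩ := a
    have h0 : (if fgr (none : Option (Ir r cls)) = some (j, v) then Gs cls Z k h ξ p none
        else 0) = 0 := by
      rw [if_neg]
      simp [fgr]
    rw [h0, zero_add]
    set F : J × V r × V r → ℝ := fun q : J × V r × V r =>
          if q.1 = j ∧ q.2.1 = v then h p * (wr r (cls q.1) *
            (Jh cls Z k q.1 q.2.1 q.2.2 p *
            ∏ l, ((if (q.2.2 l).1 = true then sg (sgn p (D1r ξ l)) else 1) *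
            (if (q.2.2 l).2 = true then sg (sgn p (D2r ξ l)) else 1)))) else 0 with hF
    have h1 : ∀ i : Ir r cls, (if fgr (some i) = some (j, v) then Gs cls Z k h ξ p (some i)
        else 0) = F i.1 := by
      intro i
      refine if_congr ?_ rfl rfl
      simp only [fgr, Option.map_some, Option.some.injEq, Prod.mk.injEq]
    refine (Finset.sum_congr rfl fun i _ => h1 i).trans ((sum_Ir cls F).trans ?_)
    rw [Fintype.sum_prod_type, Finset.sum_eq_single j]
    · rw [Fintype.sum_prod_type, Finset.sum_eq_single v]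
      · show _ = h p * _
        rw [sum_congr rfl fun θ hθ => loc_r (cls j) (k j θ) (Pr_prime p) (hk j θ hθ) v _ _,
          sum_comm, Finset.mul_sum]
        refine Finset.sum_congr rfl fun x _ => ?_
        simp only [hF, and_self, if_true, mul_ite, mul_zero]
        by_cases hA : Ar (cls j) v x = true
        · simp only [if_pos hA]
          congr 1
          unfold Jh
          rw [sum_mul, mul_sum]
        · simp only [if_neg hA, sum_const_zero, mul_zero]
      · intro v' _ hv'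
        refine Finset.sum_eq_zero fun x _ => ?_
        simp [hF, hv']
      · intro h
        exact absurd (Finset.mem_univ _) h
    · intro j' _ hj'
      refine Finset.sum_eq_zero fun x _ => ?_
      simp [hF, hj']
    · intro h
      exact absurd (Finset.mem_univ _) h

lemma rhs_terms (cls : J → Fin 4) (Z : J → ℕ → Finset ℕ) (k : J → ℕ → Fin 3 → ℤ) (h : ℕ → ℝ)
    (ξ : Pr z y → Option (J × V r)) (l : Pr z y → Option (Ir r cls))
    (hl' : ∀ p, fgr (l p) = ξ p) :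
    (∏ i, gh (fun p => w_r cls i * hZ Z h i.1.1 p) (Dl l i)) *
      SymG (L_r cls) (psi cls Z k) (Dl l) = ∏ p, Gs cls Z k h ξ p (l p) := by
  rw [prod_ghi, SymG_Dl, ← Finset.prod_mul_distrib, ← Finset.prod_mul_distrib]
  refine Finset.prod_congr rfl fun p _ => ?_
  cases hl : l p with
  | none =>
    have h0 : ∀ q, Pool.Agent.W762.RK2.lk (L_r cls) (l q) none = false := by
      intro q
      cases l q <;> rfl
    simp [h0, Gs]
  | some i =>
    have hAl := Ar_orth i.2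
    -- the vector of the prime `q`
    have h1 : ∀ q, Pool.Agent.W762.RK2.lk (L_r cls) (l q) (some i) =
        pr i.1.2.2 (fun m => (b1r m (ξ q), b2r m (ξ q))) := by
      intro q
      rw [← hl' q]
      cases hq : l q with
      | none =>
        have : pr i.1.2.2 (fun m => (b1r m (fgr (none : Option (Ir r cls))),
            b2r m (fgr (none : Option (Ir r cls))))) = false := by
          refine par_false fun m => ?_
          simp [bb, b1r, b2r, fgr]
        rw [this]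
        rfl
      | some i' => rfl
    have h2 : ∏ q : Pr z y, (if Pool.Agent.W762.RK2.lk (L_r cls) (l q) (some i) = true then Jr (q : ℕ) p else 1) =
        ∏ m, ((if (i.1.2.2 m).1 = true then sg (sgn p (D1r ξ m)) else 1) *
      (if (i.1.2.2 m).2 = true then sg (sgn p (D2r ξ m)) else 1)) := by
      have h3 : ∀ a : Bool, ∀ b : Pr z y → Bool, (if a = true then sg (sgn p (nb b : ℤ)) else 1) =
          ∏ q : Pr z y, if a = true then (if q ≠ p ∧ b q = true then Jr (q : ℕ) p else 1)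
            else 1 := by
        intro a b
        cases a
        · simp
        · simp only [if_true]
          exact sgn_nb b p
      have h4 : ∀ m, ((if (i.1.2.2 m).1 = true then sg (sgn p (D1r ξ m)) else 1) *
          (if (i.1.2.2 m).2 = true then sg (sgn p (D2r ξ m)) else 1)) =
          ∏ q : Pr z y, ((if (i.1.2.2 m).1 = true then
            (if q ≠ p ∧ b1r m (ξ q) = true then Jr (q : ℕ) p else 1) else 1) *
            (if (i.1.2.2 m).2 = true then
            (if q ≠ p ∧ b2r m (ξ q) = true then Jr (q : ℕ) p else 1) else 1)) := by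
        intro m
        unfold D1r D2r
        rw [h3, h3, ← Finset.prod_mul_distrib]
      rw [prod_congr rfl fun m _ => h4 m, Finset.prod_comm]
      refine Finset.prod_congr rfl fun q _ => ?_
      rw [h1]
      refine bits_r q p _ _ fun hqp => ?_
      rw [hqp, ← hl' p, hl]
      exact hAl
    rw [h2]
    simp only [Gs, Option.elim]
    have h5 := hZ_psi cls Z k h i p
    rw [show h p * (w_r cls i * (Jh cls Z k i.1.1 i.1.2.1 i.1.2.2 p *
      ∏ m, ((if (i.1.2.2 m).1 = true then sg (sgn p (D1r ξ m)) else 1) *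
      (if (i.1.2.2 m).2 = true then sg (sgn p (D2r ξ m)) else 1)))) =
      w_r cls i * (h p * Jh cls Z k i.1.1 i.1.2.1 i.1.2.2 p) *
      ∏ m, ((if (i.1.2.2 m).1 = true then sg (sgn p (D1r ξ m)) else 1) *
      (if (i.1.2.2 m).2 = true then sg (sgn p (D2r ξ m)) else 1)) by ring, ← h5]
    ring

/-- the expansion -/
theorem exp_s (cls : J → Fin 4) (Z : J → ℕ → Finset ℕ)
    (k : J → ℕ → Fin 3 → ℤ) (h : ℕ → ℝ) (r z y : ℕ)
    (hk : ∀ p : ℕ, p.Prime → z < p → ∀ j, ∀ θ ∈ Z j p, ∀ i, ¬ (p : ℤ) ∣ k j θ i) :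
    ∑ s ∈ Tup J z y, NBS r cls Z k s * ∏ j, gh h (s j) =
    ∑ d ∈ Tup (Ir r cls) z y, (∏ i, gh (fun p => w_r cls i * hZ Z h i.1.1 p) (d i)) *
      SymG (L_r cls) (psi cls Z k) d := by
  classical
  rw [lhs_eqs, sum_Tup, ← Finset.sum_fiberwise univ
    (fun (l : Pr z y → Option (Ir r cls)) => fun p => fgr (l p))]
  refine Finset.sum_congr rfl fun ξ _ => ?_
  have h1 : (univ.filter fun l : Pr z y → Option (Ir r cls) => (fun p => fgr (l p)) = ξ) =
      Fintype.piFinset (fun p => univ.filter (fun x : Option (Ir r cls) => fgr x = ξ p)) := by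
    ext l
    simp only [Finset.mem_filter, Finset.mem_univ, true_and, Fintype.mem_piFinset, funext_iff]
  have hk' : ∀ p : Pr z y, ∀ j, ∀ θ ∈ Z j p, ∀ i, ¬ ((p : ℕ) : ℤ) ∣ k j θ i := by
    intro p
    have hz : z < p := by
      have := p.2
      unfold PS at this
      exact (Finset.mem_Ioc.1 (Finset.mem_filter.1 this).1).1
    exact hk p (Pr_prime p) hz
  rw [h1, Finset.prod_congr rfl fun p _ => (sum_Gs cls Z k h ξ p (hk' p)).symm,
    Finset.prod_univ_sum]
  refine Finset.sum_congr rfl fun l hl => ?_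
  rw [Fintype.mem_piFinset] at hl
  exact (rhs_terms cls Z k h ξ l fun p => (Finset.mem_filter.1 (hl p)).2).symm

end Pool.Agent.U214.GT
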