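import Mathlib
import Pool.Agent.U214.PT.Cnt

/-!
# The number of `t` with prescribed small prime factors, signs and residues
-/

set_option autoImplicit false

namespace Pool.Agent.U214.GT

open Finset Polynomial Pool.Agent.U214.PT
open Pool.Agent.W262.RK (PS PP mem_PS dv_prime dv_squarefree dv_pos dv_ne_zero PP_ne_zero)
open Pool.Agent.H474R2.PG (rho)
open Pool.Agent.W372.RK2 (sq_pow_dvd card_W WW)

/-- the weight -/
noncomputable def h0 (f : ℤ[X]) (p : ℕ) : ℝ := 1 / ((p : ℝ) - rho f p)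

variable {f : ℤ[X]} {d z y Y s v u : ℕ}

/-- the possible residues -/
noncomputable def Wq (f : ℤ[X]) (s : ℕ) (E : Finset ℕ) (θ : ℕ → ℕ) (p : ℕ) : Finset (ℕ × ℕ) :=
  (if p ∣ s then {θ p} else (range p).filter (fun a : ℕ => (p : ℤ) ∣ f.eval (a : ℤ))) ×ˢ
    (if p ∣ s then WW E p else {0})

lemma Ph_memq {t : ℕ} (hs : s ∈ (PP z y).divisors) (hv : v ∈ (PP z y).divisors)
    (hu : u ∈ (PP y Y).divisors) (g : Gt f z y s v u (t : ℤ)) {E : Finset ℕ}
    (hE : ngs (f.eval (t : ℤ)) s = E) {θ : ℕ → ℕ} (hθ : ∀ p ∈ s.primeFactors, t % p = θ p) :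
    Ph f s v u t ∈ Fintype.piFinset (fun p : (s * v * u).primeFactors => Wq f s E θ p.1) := by
  have h1 := Ph_mem hs hv hu g hE
  rw [Fintype.mem_piFinset] at h1 ⊢
  intro p
  have h2 := h1 p
  unfold Wt' at h2
  unfold Wq
  rw [mem_product] at h2 ⊢
  refine ⟨?_, h2.2⟩
  by_cases hps : p.1 ∣ s
  · rw [if_pos hps, mem_singleton]
    exact hθ p.1 (Nat.mem_primeFactors.2 ⟨Nat.prime_of_mem_primeFactors p.2, hps, dv_ne_zero hs⟩)
  · rw [if_neg hps]
    exact h2.1

lemma card_Phq {t : ℤ} (hz : 2 ≤ z) (g : Gt f z y s v u t) (hs : s ∈ (PP z y).divisors)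
    (hv : v ∈ (PP z y).divisors) (hu : u ∈ (PP y Y).divisors) (E : Finset ℕ) (θ : ℕ → ℕ) :
    ((Fintype.piFinset (fun p : (s * v * u).primeFactors => Wq f s E θ p.1)).card : ℝ) ≤
      (∏ p ∈ s.primeFactors, ((1 / 2) * (p : ℝ))) *
        (∏ p ∈ v.primeFactors, (rho f p : ℝ)) * ∏ p ∈ u.primeFactors, (rho f p : ℝ) := by
  rw [Fintype.card_piFinset]
  have h0 : ∏ p : (s * v * u).primeFactors, (Wq f s E θ p.1).card =
      ∏ p ∈ (s * v * u).primeFactors, (Wq f s E θ p).card :=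
    prod_coe_sort (s * v * u).primeFactors (fun p => (Wq f s E θ p).card)
  have hcard : ∀ p, ¬ p ∣ s → (Wq f s E θ p).card = rho f p := by
    intro p hp
    unfold Wq rho
    rw [card_product, if_neg hp, if_neg hp, card_singleton, mul_one]
  have hcard' : ∀ p, p ∣ s → (Wq f s E θ p).card = (WW E p).card := by
    intro p hp
    unfold Wq
    rw [card_product, if_pos hp, if_pos hp, card_singleton, one_mul]
  rw [h0, Nat.cast_prod, prod_svu g.cop (g.copu hs hv hu)]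
  have hnd : ∀ p : ℕ, p.Prime → (p ∣ v ∨ p ∣ u) → ¬ p ∣ s := by
    rintro p hp (h | h) h'
    · exact (g.fs hp h').2.2 (g.fv hp h).2
    · have h1 := (g.fu hu hp h).1
      have h2 := (dv_prime hs hp h').2
      omega
  refine mul_le_mul (mul_le_mul ?_ ?_ (prod_nonneg fun p _ => Nat.cast_nonneg _)
    (prod_nonneg fun p _ => by positivity)) ?_ (prod_nonneg fun p _ => Nat.cast_nonneg _) ?_
  · refine prod_le_prod (fun p _ => Nat.cast_nonneg _) fun p hp => ?_
    have hpp := Nat.prime_of_mem_primeFactors hp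
    have hps := Nat.dvd_of_mem_primeFactors hp
    have hpz := (dv_prime hs hpp hps).1
    rw [hcard' p hps]
    have h2 := card_W hpp (by omega) (if p ∈ E then -1 else 1) (by split_ifs <;> simp)
    have h3 : 2 * (WW E p).card ≤ p := by
      unfold WW
      omega
    have h4 : (2 : ℝ) * ((WW E p).card : ℝ) ≤ p := by exact_mod_cast h3
    linarith
  · refine prod_le_prod (fun p _ => Nat.cast_nonneg _) fun p hp => ?_
    rw [hcard p (hnd p (Nat.prime_of_mem_primeFactors hp)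
      (Or.inl (Nat.dvd_of_mem_primeFactors hp)))]
  · refine prod_le_prod (fun p _ => Nat.cast_nonneg _) fun p hp => ?_
    rw [hcard p (hnd p (Nat.prime_of_mem_primeFactors hp)
      (Or.inr (Nat.dvd_of_mem_primeFactors hp)))]
  · exact mul_nonneg (prod_nonneg fun p _ => by positivity)
      (prod_nonneg fun p _ => Nat.cast_nonneg _)

/-- **the count** -/
theorem cntq {f : ℤ[X]} {d z Me : ℕ} {C1 : ℝ} (hf : Pg f d z) (hC1 : 0 ≤ C1)
    (hP : ∀ y : ℕ, 3 ≤ y → z < y → ∏ p ∈ PS z y, (1 - (rho f p : ℝ) / p) ≤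
      C1 / (Real.log y) ^ Me) : ∃ (C : ℝ) (K y0 : ℕ), 0 ≤ C ∧ 1 ≤ K ∧
    ∀ X y Y : ℕ, y0 ≤ y → z < y → y ^ K ≤ X → ∀ s ∈ (PP z y).divisors,
      ∀ v ∈ (PP z y).divisors, ∀ u ∈ (PP y Y).divisors, (s * v * u) ^ 8 ≤ X →
      ∀ (E : Finset ℕ) (θ : ℕ → ℕ), (((Icc 1 X).filter (fun t : ℕ => t1 z y (f.eval (t : ℤ)) = s ∧
        t2 z y (f.eval (t : ℤ)) = v ∧ (u : ℤ) ∣ f.eval (t : ℤ) ∧
        ngs (f.eval (t : ℤ)) s = E ∧ ∀ p ∈ s.primeFactors, t % p = θ p)).card : ℝ) ≤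
        C * X * (1 / 2) ^ s.primeFactors.card * gh (h0 f) s *
          ((d : ℝ) ^ v.primeFactors.card * (gh (h0 f) v / v)) *
          ((d : ℝ) ^ u.primeFactors.card / u) / (Real.log y) ^ Me := by
  classical
  obtain ⟨C, K, y0, hC, hK, hSV⟩ := svp hf hC1 hP
  refine ⟨C, K, y0, hC, hK, ?_⟩
  intro X y Y hy0 hzy hX s hs v hv u hu hsvu E θ
  have hz : 2 ≤ z := by have := hf.zd; omega
  have hlog : 0 ≤ (Real.log y) ^ Me := pow_nonneg (Real.log_natCast_nonneg y) _
  have hsub : ∀ p : ℕ, p.Prime → z < p → 0 < (p : ℝ) - rho f p := by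
    intro p hp hzp
    have h1 := hf.rho p hp hzp
    have h2 := hf.zd
    have h3 : ((rho f p : ℕ) : ℝ) < p := by exact_mod_cast (by omega : rho f p < p)
    linarith
  have hgh : ∀ n ∈ (PP z y).divisors, 0 ≤ gh (h0 f) n := by
    intro n hn
    unfold gh h0
    refine prod_nonneg fun p hp => div_nonneg zero_le_one (hsub p ?_ ?_).le
    · exact Nat.prime_of_mem_primeFactors hp
    · exact (dv_prime hn (Nat.prime_of_mem_primeFactors hp) (Nat.dvd_of_mem_primeFactors hp)).1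
  have hgs := hgh s hs
  have hgv := hgh v hv
  obtain ⟨T, hT⟩ : ∃ T, T = (Icc 1 X).filter (fun t : ℕ => t1 z y (f.eval (t : ℤ)) = s ∧
        t2 z y (f.eval (t : ℤ)) = v ∧ (u : ℤ) ∣ f.eval (t : ℤ) ∧
        ngs (f.eval (t : ℤ)) s = E ∧ ∀ p ∈ s.primeFactors, t % p = θ p) := ⟨_, rfl⟩
  rw [← hT]
  have hgood : ∀ t ∈ T, Gt f z y s v u (t : ℤ) ∧ ngs (f.eval (t : ℤ)) s = E ∧
      ∀ p ∈ s.primeFactors, t % p = θ p := by
    intro t ht
    rw [hT, mem_filter] at ht
    exact ⟨⟨ht.2.1, ht.2.2.1, ht.2.2.2.1⟩, ht.2.2.2.2⟩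
  rcases T.eq_empty_or_nonempty with hTe | ⟨t0, ht0⟩
  · rw [hTe, card_empty, Nat.cast_zero]
    positivity
  obtain ⟨m, hm⟩ : ∃ m, m = s ^ 2 * v ^ 2 * u := ⟨_, rfl⟩
  have hs1 := dv_pos hs
  have hv1 := dv_pos hv
  have hu1 := dv_pos hu
  have hm1 : 1 ≤ m := by rw [hm]; exact Nat.succ_le_of_lt (by positivity)
  have hm4 : m ^ 4 ≤ X := by
    refine le_trans ?_ hsvu
    have h1 : m ≤ (s * v * u) ^ 2 := by
      rw [hm]
      calc s ^ 2 * v ^ 2 * u ≤ s ^ 2 * v ^ 2 * (u * u) := by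
            apply Nat.mul_le_mul_left
            nlinarith
        _ = (s * v * u) ^ 2 := by ring
    calc m ^ 4 ≤ ((s * v * u) ^ 2) ^ 4 := Nat.pow_le_pow_left h1 4
      _ = (s * v * u) ^ 8 := by rw [← pow_mul]
  have hsq := (hgood t0 ht0).1
  obtain ⟨B, hBdef⟩ : ∃ B, B = C * (X / m) * (∏ p ∈ m.primeFactors.filter (fun p => p ∈ PS z y),
        (p : ℝ) / ((p : ℝ) - rho f p)) / (Real.log y) ^ Me := ⟨_, rfl⟩
  have hfib : ∀ φ : (s * v * u).primeFactors → ℕ × ℕ,
      ((T.filter (fun t : ℕ => Ph f s v u t = φ)).card : ℝ) ≤ B := by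
    intro φ
    rcases (T.filter (fun t : ℕ => Ph f s v u t = φ)).eq_empty_or_nonempty with
      he | ⟨r, hr⟩
    · rw [he, card_empty, Nat.cast_zero, hBdef]
      exact le_trans (Nat.cast_nonneg _) (hSV X y hy0 hzy hX m 0 hm1 hm4)
    · rw [hBdef]
      refine le_trans ?_ (hSV X y hy0 hzy hX m r hm1 hm4)
      rw [Nat.cast_le]
      apply card_le_card
      intro t ht
      rw [mem_filter] at ht hr
      have g := (hgood t ht.1).1
      have g' := (hgood r hr.1).1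
      have htX : t ∈ Icc 1 X := by
        have := ht.1
        rw [hT] at this
        exact (mem_filter.1 this).1
      rw [mem_filter]
      refine ⟨htX, ?_, ?_⟩
      · have h1 := Ph_congr hf hzy hs hv hu g g' (ht.2.trans hr.2.symm)
        rw [← hm] at h1
        exact ((Nat.modEq_iff_dvd.2 h1)).symm
      · intro p hpP hpm hpf
        have hp := (mem_PS.1 hpP).2
        apply hpm
        rw [hm]
        by_cases h2 : (p : ℤ) ^ 2 ∣ f.eval (t : ℤ)
        · have h3 : p ∣ v := by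
            rw [← g.hv]
            exact (dvd_t2 hp).2 ⟨hpP, h2⟩
          exact ((h3.pow two_ne_zero).mul_left _).mul_right _
        · have h3 : p ∣ s := by
            rw [← g.hs]
            exact (dvd_t1 hp).2 ⟨hpP, hpf, h2⟩
          exact ((h3.pow two_ne_zero).mul_right _).mul_right _
  have hB0 : 0 ≤ B := by
    rw [hBdef]
    exact le_trans (Nat.cast_nonneg _) (hSV X y hy0 hzy hX m 0 hm1 hm4)
  have hcard : (T.card : ℝ) ≤
      ((Fintype.piFinset (fun p : (s * v * u).primeFactors => Wq f s E θ p.1)).card : ℝ) * B := by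
    rw [card_eq_sum_card_fiberwise (f := fun t : ℕ => Ph f s v u t)
      (t := Fintype.piFinset (fun p : (s * v * u).primeFactors => Wq f s E θ p.1))
      (fun t ht => Ph_memq hs hv hu (hgood t ht).1 (hgood t ht).2.1 (hgood t ht).2.2)]
    rw [Nat.cast_sum]
    refine (sum_le_sum fun φ _ => hfib φ).trans ?_
    rw [sum_const, nsmul_eq_mul]
  refine hcard.trans ((mul_le_mul_of_nonneg_right (card_Phq hz hsq hs hv hu E θ) hB0).trans ?_)
  have hmp : ∏ p ∈ m.primeFactors.filter (fun p => p ∈ PS z y),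
      (p : ℝ) / ((p : ℝ) - rho f p) =
      (∏ p ∈ s.primeFactors, (p : ℝ) / ((p : ℝ) - rho f p)) *
        ∏ p ∈ v.primeFactors, (p : ℝ) / ((p : ℝ) - rho f p) := by
    rw [hm, mod_primes hs hv hu, hsq.cop.primeFactors_mul,
      prod_union hsq.cop.disjoint_primeFactors]
  have hu' : ∏ p ∈ u.primeFactors, (rho f p : ℝ) ≤ (d : ℝ) ^ u.primeFactors.card := by
    rw [← prod_const]
    refine prod_le_prod (fun p _ => Nat.cast_nonneg _) fun p hp => ?_
    have h1 := dv_prime hu (Nat.prime_of_mem_primeFactors hp) (Nat.dvd_of_mem_primeFactors hp)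
    exact_mod_cast hf.rho p (Nat.prime_of_mem_primeFactors hp) (by omega)
  have hv' : ∏ p ∈ v.primeFactors, (rho f p : ℝ) ≤ (d : ℝ) ^ v.primeFactors.card := by
    rw [← prod_const]
    refine prod_le_prod (fun p _ => Nat.cast_nonneg _) fun p hp => ?_
    have h1 := dv_prime hv (Nat.prime_of_mem_primeFactors hp) (Nat.dvd_of_mem_primeFactors hp)
    exact_mod_cast hf.rho p (Nat.prime_of_mem_primeFactors hp) (by omega)
  have es : (∏ p ∈ s.primeFactors, ((1 / 2) * (p : ℝ))) *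
      (∏ p ∈ s.primeFactors, (p : ℝ) / ((p : ℝ) - rho f p)) =
      (1 / 2) ^ s.primeFactors.card * (s : ℝ) ^ 2 * gh (h0 f) s := by
    rw [cast_pf hs, ← prod_pow]
    unfold gh h0
    rw [← prod_const, ← prod_mul_distrib, ← prod_mul_distrib, ← prod_mul_distrib]
    refine prod_congr rfl fun p hp => ?_
    ring
  have ev : (∏ p ∈ v.primeFactors, (p : ℝ) / ((p : ℝ) - rho f p)) = (v : ℝ) * gh (h0 f) v := by
    rw [cast_pf hv]
    unfold gh h0
    rw [← prod_mul_distrib]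
    refine prod_congr rfl fun p hp => ?_
    ring
  have hs0 : (s : ℝ) ≠ 0 := by positivity
  have hv0 : (v : ℝ) ≠ 0 := by positivity
  have hu0 : (u : ℝ) ≠ 0 := by positivity
  have hmc : (m : ℝ) = (s : ℝ) ^ 2 * (v : ℝ) ^ 2 * u := by
    rw [hm]
    push_cast
    ring
  rw [hBdef, hmp, hmc]
  obtain ⟨a, ha⟩ : ∃ a, a = ∏ p ∈ s.primeFactors, ((1 / 2) * (p : ℝ)) := ⟨_, rfl⟩
  obtain ⟨a', ha'⟩ : ∃ a', a' = ∏ p ∈ s.primeFactors, (p : ℝ) / ((p : ℝ) - rho f p) := ⟨_, rfl⟩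
  obtain ⟨b, hb⟩ : ∃ b, b = ∏ p ∈ v.primeFactors, (rho f p : ℝ) := ⟨_, rfl⟩
  obtain ⟨b', hb'⟩ : ∃ b', b' = ∏ p ∈ v.primeFactors, (p : ℝ) / ((p : ℝ) - rho f p) := ⟨_, rfl⟩
  have hb0 : 0 ≤ b := by rw [hb]; exact prod_nonneg fun p _ => Nat.cast_nonneg _
  rw [← ha, ← ha'] at es
  rw [← hb'] at ev
  rw [← hb] at hv'
  rw [← ha, ← hb, ← ha', ← hb']
  calc a * b * (∏ p ∈ u.primeFactors, (rho f p : ℝ)) *
        (C * (X / ((s : ℝ) ^ 2 * (v : ℝ) ^ 2 * u)) * (a' * b') / (Real.log y) ^ Me)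
      = C * X * ((a * a') * (b * b')) * (∏ p ∈ u.primeFactors, (rho f p : ℝ)) /
          ((s : ℝ) ^ 2 * (v : ℝ) ^ 2 * u) / (Real.log y) ^ Me := by ring
    _ = C * X * (1 / 2) ^ s.primeFactors.card * gh (h0 f) s * (b * (gh (h0 f) v / v)) *
          ((∏ p ∈ u.primeFactors, (rho f p : ℝ)) / u) / (Real.log y) ^ Me := by
        rw [es, ev]
        field_simp
    _ ≤ _ := by
        apply div_le_div_of_nonneg_right _ hlog
        refine mul_le_mul (mul_le_mul_of_nonneg_left (mul_le_mul_of_nonneg_right hv' ?_)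
          (by positivity)) (div_le_div_of_nonneg_right hu' (Nat.cast_nonneg u)) ?_ ?_
        · exact div_nonneg hgv (Nat.cast_nonneg _)
        · exact div_nonneg (prod_nonneg fun p _ => Nat.cast_nonneg _) (Nat.cast_nonneg _)
        · exact mul_nonneg (by positivity) (mul_nonneg (by positivity)
            (div_nonneg hgv (Nat.cast_nonneg _)))

end Pool.Agent.U214.GT
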