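import Mathlib
import Pool.Agent.U214.PT.Mert
import Pool.Agent.U214.GT.Cnt

/-!
# Mertens' theorem for the roots of the factors of a separable polynomial
-/

set_option autoImplicit false

namespace Pool.Agent.U214.GT

open Finset Polynomial Pool.Agent.U214.PT UniqueFactorizationMonoid
open Pool.Agent.W262.RK (PS mem_PS)
open Pool.Agent.H474R2.PG (rho PR Sg)
open Pool.Agent.H474R2.GE (mertens_rho)

/-- the number of the irreducible factors over the rationals -/
noncomputable def nf (f : ℤ[X]) : ℕ :=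
  (normalizedFactors (f.map (Int.castRingHom ℚ))).card

lemma map_ne {f : ℤ[X]} (h : f ≠ 0) : f.map (Int.castRingHom ℚ) ≠ 0 :=
  (Polynomial.map_ne_zero_iff (RingHom.injective_int _)).2 h

lemma nf_const {c : ℤ} (hc : c ≠ 0) : nf (C c) = 0 := by
  unfold nf
  rw [Multiset.card_eq_zero, Polynomial.map_C]
  apply normalizedFactors_of_isUnit
  rw [isUnit_C, isUnit_iff_ne_zero]
  simpa using hc

lemma nf_mul {f g : ℤ[X]} (hf : f ≠ 0) (hg : g ≠ 0) : nf (f * g) = nf f + nf g := by
  unfold nf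
  rw [Polynomial.map_mul, normalizedFactors_mul (map_ne hf) (map_ne hg), Multiset.card_add]

lemma nf_irr {f : ℤ[X]} (hf : Irreducible f) (hd : 0 < f.natDegree) : nf f = 1 := by
  unfold nf
  have h1 : f.IsPrimitive := hf.isPrimitive hd.ne'
  have h2 : Irreducible (f.map (Int.castRingHom ℚ)) :=
    (IsPrimitive.Int.irreducible_iff_irreducible_map_cast h1).1 hf
  rw [normalizedFactors_irreducible h2, Multiset.card_singleton]

lemma nf_pos {f : ℤ[X]} (hd : 0 < f.natDegree) : 0 < nf f := by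
  unfold nf
  rw [Multiset.card_pos]
  intro h
  have h0 : f ≠ 0 := fun h => by rw [h, natDegree_zero] at hd; exact absurd hd (lt_irrefl 0)
  have h1 : IsUnit (f.map (Int.castRingHom ℚ)) := by
    by_contra hcon
    obtain ⟨p, hp⟩ := exists_mem_normalizedFactors (map_ne h0) hcon
    rw [h] at hp
    exact absurd hp (Multiset.notMem_zero p)
  have h2 := natDegree_eq_zero_of_isUnit h1
  rw [natDegree_map_eq_of_injective (RingHom.injective_int _)] at h2
  omega

/-- Mertens' theorem for separable polynomials -/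
theorem mert_nf (f : ℤ[X]) : Sep f → ∃ c : ℝ, 0 ≤ c ∧
    ∀ w : ℝ, 3 ≤ w → |Sg (rho f) w - nf f * Real.log (Real.log w)| ≤ c := by
  refine WfDvdMonoid.induction_on_irreducible f ?_ ?_ ?_
  · rintro ⟨N, hN, A, B, h⟩
    exfalso
    rw [derivative_zero, mul_zero, mul_zero, add_zero] at h
    exact hN (C_eq_zero.1 h.symm)
  · intro u hu _
    obtain ⟨r, hr, hru⟩ := Polynomial.isUnit_iff.1 hu
    refine ⟨0, le_rfl, fun w _ => ?_⟩
    have hn : nf u = 0 := by rw [← hru]; exact nf_const hr.ne_zero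
    have h0 : ∀ p ∈ PR w, (rho u p : ℝ) / p = 0 := by
      intro p hp
      have hp' := (mem_PR.1 hp).2
      have : rho u p = 0 := by
        unfold rho
        rw [card_eq_zero, filter_eq_empty_iff]
        intro a _ h1
        rw [← hru, eval_C] at h1
        have h2 := isUnit_of_dvd_unit h1 hr
        rw [Int.isUnit_iff_natAbs_eq, Int.natAbs_natCast] at h2
        exact hp'.one_lt.ne' h2
      rw [this]
      simp
    unfold Sg
    rw [sum_eq_zero h0, hn]
    simp
  · intro a i ha hi ih hsep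
    obtain ⟨N, hN, A, B, h⟩ := hsep
    rw [derivative_mul] at h
    have hsa : Sep a := ⟨N, hN, A * i + B * derivative i, B * i, by rw [← h]; ring⟩
    obtain ⟨c, hc, hMc⟩ := ih hsa
    rcases Nat.eq_zero_or_pos i.natDegree with hd | hd
    · obtain ⟨k, hk⟩ := natDegree_eq_zero.1 hd
      have hk0 : k ≠ 0 := by
        rintro rfl
        rw [C_0] at hk
        exact hi.ne_zero hk.symm
      obtain ⟨c', hc', hcl⟩ := Sg_close (r := rho (i * a)) (r' := rho a) k.natAbs
        (fun p hp hpk => by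
          rw [← hk]
          refine rho_C_mul hp fun hd => ?_
          have := Nat.le_of_dvd (Int.natAbs_pos.2 hk0) (Int.natCast_dvd.1 hd)
          omega)
      refine ⟨c + c', by positivity, fun w hw => ?_⟩
      have h1 := hMc w hw
      have h2 := hcl w
      have hn : nf (i * a) = nf a := by
        rw [nf_mul hi.ne_zero ha, ← hk, nf_const hk0, zero_add]
      rw [hn]
      rw [abs_le] at h1 h2 ⊢
      constructor <;> linarith
    · obtain ⟨C1, hC1, hm⟩ := mertens_rho i hi hd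
      obtain ⟨c', hc', hcl⟩ := Sg_close (r := rho (i * a)) (r' := fun p => rho i p + rho a p)
        N.natAbs (fun p hp hpN => by
          refine rho_mul hp fun t h1 h2 => ?_
          have h3 : (p : ℤ) ∣ N := by
            refine dvd_of_sep (f := i * a) (A := A) (B := B) (by rw [derivative_mul]; exact h)
              (t := t) ?_ ?_
            · rw [eval_mul]
              exact h1.mul_right _
            · rw [derivative_mul, eval_add, eval_mul, eval_mul]
              exact dvd_add (h2.mul_left _) (h1.mul_right _)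
          have := Nat.le_of_dvd (Int.natAbs_pos.2 hN) (Int.natCast_dvd.1 h3)
          omega)
      refine ⟨c + c' + C1, by positivity, fun w hw => ?_⟩
      have h1 := hMc w hw
      have h2 := hcl w
      have h3 := hm w hw
      have h4 : Sg (fun p => rho i p + rho a p) w = Sg (rho i) w + Sg (rho a) w := by
        unfold Sg
        rw [← sum_add_distrib]
        refine sum_congr rfl fun p _ => ?_
        push_cast
        ring
      have hn : nf (i * a) = 1 + nf a := by rw [nf_mul hi.ne_zero ha, nf_irr hi hd]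
      rw [h4] at h2
      rw [hn]
      push_cast
      rw [abs_le] at h1 h2 h3 ⊢
      constructor <;> linarith

lemma log3 {x : ℕ} (hx : 3 ≤ x) : 1 < Real.log x := by
  have hxr : (3 : ℝ) ≤ x := by exact_mod_cast hx
  rw [Real.lt_log_iff_exp_lt (by linarith)]
  have := Real.exp_one_lt_d9
  linarith

/-- the weights `a p / (p - ρ(p))` -/
theorem wt_gen {a : ℕ → ℕ} {M : ℕ} {c : ℝ} (hM : 0 < M) (hc : 0 ≤ c)
    (hMc : ∀ w : ℝ, 3 ≤ w → |Sg a w - M * Real.log (Real.log w)| ≤ c) {F : ℤ[X]} {d z1 : ℕ}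
    (hPg : Pg F d z1) (hd1 : 1 ≤ d) (ha : ∀ p : ℕ, p.Prime → z1 < p → a p ≤ d) :
    ∃ C0 : ℝ, 0 ≤ C0 ∧ ∀ C', C0 ≤ C' → Wt (fun p => (a p : ℝ) * h0 F p) (2 * d) C' M z1 := by
  have hMr : (0 : ℝ) < M := by exact_mod_cast hM
  have hzd := hPg.zd
  have hd0 : (0 : ℝ) ≤ d := Nat.cast_nonneg d
  have hbas : ∀ p : ℕ, p.Prime → z1 < p → (0 : ℝ) < p ∧ (rho F p : ℝ) ≤ d ∧ (a p : ℝ) ≤ d ∧
      (p : ℝ) / 2 ≤ (p : ℝ) - rho F p := by
    intro p hp h
    have h1 := hPg.rho p hp h
    have h2 : (rho F p : ℝ) ≤ d := by exact_mod_cast h1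
    have h2' : (a p : ℝ) ≤ d := by exact_mod_cast ha p hp h
    have h3 : 2 * (d : ℝ) ≤ p := by exact_mod_cast (by omega : 2 * d ≤ p)
    exact ⟨by exact_mod_cast hp.pos, h2, h2', by linarith⟩
  have hnn : ∀ p : ℕ, p.Prime → z1 < p → 0 ≤ (a p : ℝ) * h0 F p := by
    intro p hp h
    obtain ⟨h1, h2, h2', h3⟩ := hbas p hp h
    unfold h0
    exact mul_nonneg (Nat.cast_nonneg _) (div_nonneg zero_le_one (by linarith))
  have hle : ∀ p : ℕ, p.Prime → z1 < p → (a p : ℝ) * h0 F p ≤ 2 * d / p := by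
    intro p hp h
    obtain ⟨h1, h2, h2', h3⟩ := hbas p hp h
    unfold h0
    rw [mul_one_div, div_le_div_iff₀ (by linarith) h1]
    nlinarith [(Nat.cast_nonneg (rho F p) : (0 : ℝ) ≤ rho F p),
      (Nat.cast_nonneg (a p) : (0 : ℝ) ≤ a p)]
  have hup : ∀ p : ℕ, p.Prime → z1 < p →
      (a p : ℝ) * h0 F p ≤ (a p : ℝ) / p + 2 * d ^ 2 * (1 / (p : ℝ) ^ 2) := by
    intro p hp h
    obtain ⟨h1, h2, h2', h3⟩ := hbas p hp h
    have hr0 : (0 : ℝ) ≤ rho F p := Nat.cast_nonneg _
    have ha0 : (0 : ℝ) ≤ a p := Nat.cast_nonneg _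
    have h4 : 0 < (p : ℝ) - rho F p := by linarith
    have e : (a p : ℝ) * h0 F p = (a p : ℝ) / p + ((a p : ℝ) * rho F p) / (p * ((p : ℝ) - rho F p)) := by
      unfold h0
      field_simp
      ring
    rw [e]
    have h5 : ((a p : ℝ) * rho F p) / (p * ((p : ℝ) - rho F p)) ≤ 2 * d ^ 2 * (1 / (p : ℝ) ^ 2) := by
      calc ((a p : ℝ) * rho F p) / (p * ((p : ℝ) - rho F p)) ≤ (d : ℝ) ^ 2 / (p * (p / 2)) := by
            apply div_le_div₀ (by positivity) _ (by positivity)
            · exact mul_le_mul_of_nonneg_left h3 h1.le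
            · rw [sq]
              exact mul_le_mul h2' h2 hr0 hd0
        _ = _ := by field_simp
    linarith
  have hlow : ∀ p : ℕ, p.Prime → z1 < p → (a p : ℝ) / p ≤ (a p : ℝ) * h0 F p := by
    intro p hp h
    obtain ⟨h1, h2, h2', h3⟩ := hbas p hp h
    have hr0 : (0 : ℝ) ≤ rho F p := Nat.cast_nonneg _
    unfold h0
    rw [mul_one_div]
    apply div_le_div_of_nonneg_left (Nat.cast_nonneg _) (by linarith)
    linarith
  have hll : ∀ x : ℕ, 3 ≤ x → 0 ≤ Real.log (Real.log x) := fun x hx =>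
    Real.log_nonneg (log3 hx).le
  have hSg : ∀ x y : ℕ, 3 ≤ x → x ≤ y →
      |∑ p ∈ PS x y, (a p : ℝ) / p - M * (Real.log (Real.log y) - Real.log (Real.log x))| ≤
        2 * c := by
    intro x y hx hxy
    rw [Sg_diff _ hxy]
    have h1 := hMc x (by exact_mod_cast hx)
    have h2 := hMc y (by exact_mod_cast (by omega : 3 ≤ y))
    rw [abs_le] at h1 h2 ⊢
    constructor <;> linarith
  obtain ⟨K, hK, hsq⟩ := Pool.Agent.W655.RK.sum_inv_sq
  obtain ⟨C0, hC0⟩ : ∃ C0 : ℝ, C0 = 2 * c + 2 * d ^ 2 * K + M := ⟨_, rfl⟩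
  have hC00 : 0 ≤ C0 := by rw [hC0]; positivity
  refine ⟨C0, hC00, fun C' hC' => ⟨hMr, by positivity, hC00.trans hC', hnn, hle, fun y hy => ?_,
    fun x y hx hx2 hxy => ?_⟩⟩
  · rcases Nat.lt_or_ge z1 y with hzy | hzy
    · have h1 : ∑ p ∈ PS z1 y, (a p : ℝ) * h0 F p ≤
          ∑ p ∈ PS z1 y, ((a p : ℝ) / p + 2 * d ^ 2 * (1 / (p : ℝ) ^ 2)) :=
        sum_le_sum fun p hp => hup p (mem_PS.1 hp).2 (mem_PS.1 hp).1.1
      rw [sum_add_distrib, ← mul_sum] at h1
      have h2 := (abs_le.1 (hSg z1 y (by omega) hzy.le)).2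
      have h3 := hll z1 (by omega)
      have h4 : 2 * (d : ℝ) ^ 2 * ∑ p ∈ PS z1 y, 1 / (p : ℝ) ^ 2 ≤ 2 * d ^ 2 * K :=
        mul_le_mul_of_nonneg_left (hsq _) (by positivity)
      have h5 : 0 ≤ (M : ℝ) * Real.log (Real.log z1) := mul_nonneg hMr.le h3
      rw [mul_sub] at h2
      linarith
    · have h1 : PS z1 y = ∅ := by
        ext p
        rw [mem_PS]
        simp only [notMem_empty, iff_false, not_and]
        intro h
        omega
      rw [h1, sum_empty]
      have hl2 : 1 / 2 ≤ Real.log y := by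
        have h2 : Real.log 2 ≤ Real.log y :=
          Real.log_le_log (by norm_num) (by exact_mod_cast hy)
        have := Real.log_two_gt_d9
        linarith
      have h3 : -1 ≤ Real.log (Real.log y) := by
        have h4 : Real.log (1 / 2) ≤ Real.log (Real.log y) :=
          Real.log_le_log (by norm_num) hl2
        have h5 : Real.log (1 / 2) = -Real.log 2 := by
          rw [one_div, Real.log_inv]
        have := Real.log_two_lt_d9
        linarith
      have h4 : (M : ℝ) * (-1) ≤ M * Real.log (Real.log y) :=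
        mul_le_mul_of_nonneg_left h3 hMr.le
      have h5 : 0 ≤ 2 * c + 2 * (d : ℝ) ^ 2 * K := by positivity
      linarith
  · have h1 : ∑ p ∈ PS x y, (a p : ℝ) / p ≤ ∑ p ∈ PS x y, (a p : ℝ) * h0 F p :=
      sum_le_sum fun p hp => hlow p (mem_PS.1 hp).2 (by have := (mem_PS.1 hp).1.1; omega)
    have h2 := (abs_le.1 (hSg x y (by omega) hxy)).1
    have h5 : 0 ≤ 2 * (d : ℝ) ^ 2 * K + M := by positivity
    linarith

/-- the product of the sieve -/
theorem prod_gen {F : ℤ[X]} {M : ℕ} {c : ℝ}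
    (hMc : ∀ w : ℝ, 3 ≤ w → |Sg (rho F) w - M * Real.log (Real.log w)| ≤ c) {d z1 : ℕ}
    (hPg : Pg F d z1) (hz3 : 3 ≤ z1) : ∀ z, z1 ≤ z → ∃ C1 : ℝ, 0 ≤ C1 ∧ ∀ y : ℕ, 3 ≤ y → z < y →
        ∏ p ∈ PS z y, (1 - (rho F p : ℝ) / p) ≤ C1 / (Real.log y) ^ M := by
  intro z hz
  have hlz := log3 (show 3 ≤ z by omega)
  have hzd := hPg.zd
  refine ⟨Real.exp (2 * c) * (Real.log z) ^ M, by positivity, fun y hy3 hzy => ?_⟩
  have hly := log3 hy3
  have h1 : ∏ p ∈ PS z y, (1 - (rho F p : ℝ) / p) ≤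
      Real.exp (-∑ p ∈ PS z y, (rho F p : ℝ) / p) := by
    rw [← sum_neg_distrib, Real.exp_sum]
    refine prod_le_prod (fun p hp => ?_) (fun p hp => ?_)
    · have hp1 := (mem_PS.1 hp).1.1
      have h1 := hPg.rho p (mem_PS.1 hp).2 (by omega)
      have h2 : (rho F p : ℝ) ≤ p := by exact_mod_cast (by omega : rho F p ≤ p)
      have h3 : (0 : ℝ) < p := by exact_mod_cast (mem_PS.1 hp).2.pos
      have : (rho F p : ℝ) / p ≤ 1 := by
        rw [div_le_one h3]
        exact h2
      linarith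
    · have := Real.add_one_le_exp (-((rho F p : ℝ) / p))
      linarith
  refine h1.trans ?_
  have h2 : |∑ p ∈ PS z y, (rho F p : ℝ) / p - M * (Real.log (Real.log y) - Real.log (Real.log z))| ≤
      2 * c := by
    rw [Sg_diff _ hzy.le]
    have h1 := hMc z (by exact_mod_cast (by omega : 3 ≤ z))
    have h2 := hMc y (by exact_mod_cast hy3)
    rw [abs_le] at h1 h2 ⊢
    constructor <;> linarith
  have h2 := (abs_le.1 h2).1
  calc Real.exp (-∑ p ∈ PS z y, (rho F p : ℝ) / p)
      ≤ Real.exp (2 * c + M * Real.log (Real.log z) - M * Real.log (Real.log y)) := by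
        apply Real.exp_le_exp.2
        linarith
    _ = Real.exp (2 * c) * (Real.log z) ^ M / (Real.log y) ^ M := by
        have e1 : Real.exp (M * Real.log (Real.log z)) = (Real.log z) ^ M := by
          rw [mul_comm, Real.exp_mul, Real.exp_log (by linarith), Real.rpow_natCast]
        have e2 : Real.exp (M * Real.log (Real.log y)) = (Real.log y) ^ M := by
          rw [mul_comm, Real.exp_mul, Real.exp_log (by linarith), Real.rpow_natCast]
        rw [Real.exp_sub, Real.exp_add, e1, e2]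

lemma rho_X {p : ℕ} (hp : p.Prime) : rho X p = 1 := by
  unfold rho
  rw [card_eq_one]
  refine ⟨0, ?_⟩
  ext a
  rw [mem_filter, mem_range, mem_singleton, eval_X]
  constructor
  · rintro ⟨h1, h2⟩
    have h3 : p ∣ a := by exact_mod_cast h2
    exact Nat.eq_zero_of_dvd_of_lt h3 h1
  · rintro rfl
    exact ⟨hp.pos, by simp⟩

/-- Mertens' theorem -/
lemma mert_one : ∃ c : ℝ, 0 ≤ c ∧
    ∀ w : ℝ, 3 ≤ w → |Sg (fun _ => 1) w - (1 : ℕ) * Real.log (Real.log w)| ≤ c := by
  have hs : Sep (X : ℤ[X]) := ⟨1, one_ne_zero, 0, 1, by simp⟩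
  obtain ⟨c, hc, h⟩ := mert_nf X hs
  have hn : nf (X : ℤ[X]) = 1 := nf_irr irreducible_X (by simp)
  obtain ⟨c', hc', hcl⟩ := Sg_close (r := fun _ => 1) (r' := rho X) 0 (fun p hp _ => (rho_X hp).symm)
  refine ⟨c + c', by positivity, fun w hw => ?_⟩
  have h1 := h w hw
  have h2 := hcl w
  rw [hn] at h1
  rw [abs_le] at h1 h2 ⊢
  constructor <;> linarith

end Pool.Agent.U214.GT
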