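import Mathlib
import Pool.Agent.U214.PT.Rank
import Pool.Agent.U214.GT.Exp
import Pool.Agent.U214.GT.Mert
import Pool.Agent.W45.RT.ANT

/-!
# The local data of the family `y² = x (x - A(t) D(t)) (x - B(t) D(t))`
-/

set_option autoImplicit false

namespace Pool.Agent.U214.GT

open Finset Polynomial Pool.Agent.W262.RK Pool.Agent.U214.PT
open Pool.Agent.W307.RT (S1 S2 Gd)
open Pool.Agent.H474R2.PG (rho)

/-- the four factors -/
noncomputable def fj (A B D : ℤ[X]) (j : Fin 4) : ℤ[X] :=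
  if j = 0 then A else if j = 1 then B else if j = 2 then A - B else D

/-- the product of the factors -/
noncomputable def ft (A B D : ℤ[X]) : ℤ[X] := A * B * (A - B) * D

/-- the constants of the local conditions -/
noncomputable def KK (A B D : ℤ[X]) (j : Fin 4) (k : Fin 3) : ℤ[X] :=
  if j = 0 then -(B * D) else if j = 1 then -(A * D) else if j = 2 then A * D
  else (if k = 0 then A else if k = 1 then B else A - B) * (A * B * (A - B))

/-- the nonconstant factors -/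
abbrev JJ (A B D : ℤ[X]) : Type := {j : Fin 4 // 0 < (fj A B D j).natDegree}

variable {A B D : ℤ[X]} {d z : ℕ}

/-- the cofactors -/
noncomputable def qj (A B D : ℤ[X]) (j : Fin 4) : ℤ[X] :=
  if j = 0 then B * (A - B) * D else if j = 1 then A * (A - B) * D
  else if j = 2 then A * B * D else A * B * (A - B)

lemma f4 (j : Fin 4) : j = 0 ∨ j = 1 ∨ j = 2 ∨ j = 3 := by
  fin_cases j
  · exact Or.inl rfl
  · exact Or.inr (Or.inl rfl)
  · exact Or.inr (Or.inr (Or.inl rfl))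
  · exact Or.inr (Or.inr (Or.inr rfl))

lemma fj_mul (A B D : ℤ[X]) (j : Fin 4) : fj A B D j * qj A B D j = ft A B D := by
  unfold fj qj ft
  rcases f4 j with rfl | rfl | rfl | rfl
  · rw [if_pos rfl, if_pos rfl]; ring
  · rw [if_neg (by decide), if_pos rfl, if_neg (by decide), if_pos rfl]; ring
  · rw [if_neg (by decide), if_neg (by decide), if_pos rfl, if_neg (by decide),
      if_neg (by decide), if_pos rfl]; ring
  · rw [if_neg (by decide), if_neg (by decide), if_neg (by decide), if_neg (by decide),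
      if_neg (by decide), if_neg (by decide)]; ring

lemma no_two {f : ℤ[X]} (hf : Pg f d z) {g h : ℤ[X]} (hgh : g * h ∣ f) {p : ℕ} (hp : p.Prime)
    (hz : z < p) {t : ℤ} (h1 : (p : ℤ) ∣ g.eval t) (h2 : (p : ℤ) ∣ h.eval t) : False := by
  obtain ⟨q, hq⟩ := hgh
  refine hf.der p hp hz t ?_ ?_
  · rw [hq, eval_mul, eval_mul]
    exact (h1.mul_right _).mul_right _
  · rw [hq, derivative_mul, derivative_mul, eval_add, eval_mul, eval_add, eval_mul, eval_mul,
      eval_mul, eval_mul]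
    refine dvd_add (dvd_mul_of_dvd_left (dvd_add ?_ ?_) _) ?_
    · exact h2.mul_left _
    · exact h1.mul_right _
    · exact dvd_mul_of_dvd_left (h1.mul_right _) _

lemma const_nd {f : ℤ[X]} (hf : Pg f d z) {g : ℤ[X]} (hgf : g ∣ f) (hg : g.natDegree = 0) {p : ℕ}
    (hp : p.Prime) (hz : z < p) (t : ℤ) : ¬ (p : ℤ) ∣ g.eval t := by
  intro h
  obtain ⟨c, rfl⟩ := natDegree_eq_zero.1 hg
  rw [eval_C] at h
  have h1 : rho f p = p := by
    unfold rho
    rw [filter_true_of_mem, card_range]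
    intro a _
    obtain ⟨q, hq⟩ := hgf
    rw [hq, eval_mul, eval_C]
    exact h.mul_right _
  have h2 := hf.rho p hp hz
  have h3 := hf.zd
  omega

lemma fj_dvd (A B D : ℤ[X]) (j : Fin 4) : fj A B D j ∣ ft A B D := Dvd.intro _ (fj_mul A B D j)

lemma ex_j (hf : Pg (ft A B D) d z) {p : ℕ} (hp : p.Prime) (hz : z < p) {t : ℤ}
    (h : (p : ℤ) ∣ (ft A B D).eval t) : ∃ j : JJ A B D, (p : ℤ) ∣ (fj A B D j.1).eval t := by
  have hpi : Prime (p : ℤ) := Nat.prime_iff_prime_int.1 hp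
  have h1 : ∃ j : Fin 4, (p : ℤ) ∣ (fj A B D j).eval t := by
    unfold ft at h
    rw [eval_mul, eval_mul, eval_mul] at h
    rcases hpi.dvd_or_dvd h with h | h
    · rcases hpi.dvd_or_dvd h with h | h
      · rcases hpi.dvd_or_dvd h with h | h
        · exact ⟨0, h⟩
        · exact ⟨1, h⟩
      · exact ⟨2, h⟩
    · exact ⟨3, h⟩
  obtain ⟨j, hj⟩ := h1
  refine ⟨⟨j, ?_⟩, hj⟩
  by_contra hcon
  exact const_nd hf (fj_dvd A B D j) (by omega) hp hz t hj

lemma q_nd (hf : Pg (ft A B D) d z) {p : ℕ} (hp : p.Prime) (hz : z < p) {t : ℤ} (j : Fin 4)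
    (h : (p : ℤ) ∣ (fj A B D j).eval t) : ¬ (p : ℤ) ∣ (qj A B D j).eval t := fun h2 =>
  no_two hf (by rw [fj_mul]) hp hz h h2

lemma ft_eval (A B D : ℤ[X]) (j : Fin 4) (t : ℤ) :
    (ft A B D).eval t = (fj A B D j).eval t * (qj A B D j).eval t := by
  rw [← eval_mul, fj_mul]

lemma sq_iff (hf : Pg (ft A B D) d z) {p : ℕ} (hp : p.Prime) (hz : z < p) {t : ℤ} (j : Fin 4)
    (h : (p : ℤ) ∣ (fj A B D j).eval t) :
    (p : ℤ) ^ 2 ∣ (ft A B D).eval t ↔ (p : ℤ) ^ 2 ∣ (fj A B D j).eval t := by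
  have hpi : Prime (p : ℤ) := Nat.prime_iff_prime_int.1 hp
  have h1 := q_nd hf hp hz j h
  rw [ft_eval A B D j]
  constructor
  · intro h2
    exact (IsCoprime.pow_left ((Prime.coprime_iff_not_dvd hpi).2 h1)).dvd_of_dvd_mul_right h2
  · intro h2
    exact h2.mul_right _

lemma fj_ne {t : ℤ} (h0 : (ft A B D).eval t ≠ 0) (j : Fin 4) : (fj A B D j).eval t ≠ 0 := by
  rw [ft_eval A B D j] at h0
  exact left_ne_zero_of_mul h0

lemma fj0 (A B D : ℤ[X]) : fj A B D 0 = A := by unfold fj; rw [if_pos rfl]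

lemma fj1 (A B D : ℤ[X]) : fj A B D 1 = B := by
  unfold fj; rw [if_neg (by decide), if_pos rfl]

lemma fj2 (A B D : ℤ[X]) : fj A B D 2 = A - B := by
  unfold fj; rw [if_neg (by decide), if_neg (by decide), if_pos rfl]

lemma fj3 (A B D : ℤ[X]) : fj A B D 3 = D := by
  unfold fj; rw [if_neg (by decide), if_neg (by decide), if_neg (by decide)]

lemma qj0 (A B D : ℤ[X]) : qj A B D 0 = B * (A - B) * D := by unfold qj; rw [if_pos rfl]

lemma qj1 (A B D : ℤ[X]) : qj A B D 1 = A * (A - B) * D := by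
  unfold qj; rw [if_neg (by decide), if_pos rfl]

lemma qj2 (A B D : ℤ[X]) : qj A B D 2 = A * B * D := by
  unfold qj; rw [if_neg (by decide), if_neg (by decide), if_pos rfl]

lemma qj3 (A B D : ℤ[X]) : qj A B D 3 = A * B * (A - B) := by
  unfold qj; rw [if_neg (by decide), if_neg (by decide), if_neg (by decide)]

lemma d1 (a b c : ℤ[X]) : a ∣ a * b * c := (Dvd.intro b rfl).mul_right c

lemma d2 (a b c : ℤ[X]) : b ∣ a * b * c := (Dvd.intro_left a rfl).mul_right c

lemma d3 (a b c : ℤ[X]) : c ∣ a * b * c := Dvd.intro_left (a * b) rfl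

lemma fj_cop {i j : Fin 4} (hij : i ≠ j) : fj A B D j ∣ qj A B D i := by
  rcases f4 i with rfl | rfl | rfl | rfl <;> rcases f4 j with rfl | rfl | rfl | rfl
  · exact absurd rfl hij
  · rw [fj1, qj0]; exact d1 _ _ _
  · rw [fj2, qj0]; exact d2 _ _ _
  · rw [fj3, qj0]; exact d3 _ _ _
  · rw [fj0, qj1]; exact d1 _ _ _
  · exact absurd rfl hij
  · rw [fj2, qj1]; exact d2 _ _ _
  · rw [fj3, qj1]; exact d3 _ _ _
  · rw [fj0, qj2]; exact d1 _ _ _
  · rw [fj1, qj2]; exact d2 _ _ _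
  · exact absurd rfl hij
  · rw [fj3, qj2]; exact d3 _ _ _
  · rw [fj0, qj3]; exact d1 _ _ _
  · rw [fj1, qj3]; exact d2 _ _ _
  · rw [fj2, qj3]; exact d3 _ _ _
  · exact absurd rfl hij

/-- the values -/
noncomputable def vl (A B D : ℤ[X]) (t : ℕ) (j : JJ A B D) : ℤ := (fj A B D j.1).eval (t : ℤ)

lemma gd (hf : Pg (ft A B D) d z) {t : ℕ} (h0 : (ft A B D).eval (t : ℤ) ≠ 0) :
    Gd z (vl A B D t) := by
  refine ⟨fun j => fj_ne h0 j.1, fun p hp hz j l hjl ⟨h1, h2⟩ => ?_⟩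
  have h3 : j.1 ≠ l.1 := fun h => hjl (Subtype.ext h)
  refine q_nd hf hp hz j.1 h1 ?_
  obtain ⟨q, hq⟩ := fj_cop (A := A) (B := B) (D := D) h3
  rw [hq, eval_mul]
  exact h2.mul_right _

lemma prod_S1 (hf : Pg (ft A B D) d z) {y t : ℕ} (h0 : (ft A B D).eval (t : ℤ) ≠ 0) :
    ∏ j, S1 z y (vl A B D t) j = t1 z y ((ft A B D).eval (t : ℤ)) := by
  classical
  unfold S1 t1
  rw [← prod_biUnion]
  · refine prod_congr ?_ fun _ _ => rfl
    ext p
    simp only [mem_biUnion, mem_filter, mem_univ, true_and]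
    constructor
    · rintro ⟨j, hp, h1, h2⟩
      have hp1 := (mem_PS.1 hp).2
      have hp2 := (mem_PS.1 hp).1.1
      refine ⟨hp, ?_, fun h3 => h2 ((sq_iff hf hp1 hp2 j.1 h1).1 h3)⟩
      rw [ft_eval A B D j.1]
      exact h1.mul_right _
    · rintro ⟨hp, h1, h2⟩
      have hp1 := (mem_PS.1 hp).2
      have hp2 := (mem_PS.1 hp).1.1
      obtain ⟨j, hj⟩ := ex_j hf hp1 hp2 h1
      exact ⟨j, hp, hj, fun h3 => h2 ((sq_iff hf hp1 hp2 j.1 hj).2 h3)⟩
  · intro i _ j _ hij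
    rw [Function.onFun, disjoint_left]
    intro p hp hp'
    rw [mem_filter] at hp hp'
    exact (gd hf h0).2 p (mem_PS.1 hp.1).2 (mem_PS.1 hp.1).1.1 i j hij ⟨hp.2.1, hp'.2.1⟩

lemma prod_S2 (hf : Pg (ft A B D) d z) {y t : ℕ} (h0 : (ft A B D).eval (t : ℤ) ≠ 0) :
    ∏ j, S2 z y (vl A B D t) j = t2 z y ((ft A B D).eval (t : ℤ)) := by
  classical
  unfold S2 t2
  rw [← prod_biUnion]
  · refine prod_congr ?_ fun _ _ => rfl
    ext p
    simp only [mem_biUnion, mem_filter, mem_univ, true_and]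
    constructor
    · rintro ⟨j, hp, h1⟩
      refine ⟨hp, ?_⟩
      rw [ft_eval A B D j.1]
      exact h1.mul_right _
    · rintro ⟨hp, h1⟩
      have hp1 := (mem_PS.1 hp).2
      have hp2 := (mem_PS.1 hp).1.1
      have h2 : (p : ℤ) ∣ (ft A B D).eval (t : ℤ) := (dvd_pow_self (p : ℤ) two_ne_zero).trans h1
      obtain ⟨j, hj⟩ := ex_j hf hp1 hp2 h2
      exact ⟨j, hp, (sq_iff hf hp1 hp2 j.1 hj).1 h1⟩
  · intro i _ j _ hij
    rw [Function.onFun, disjoint_left]
    intro p hp hp'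
    rw [mem_filter] at hp hp'
    exact (gd hf h0).2 p (mem_PS.1 hp.1).2 (mem_PS.1 hp.1).1.1 i j hij
      ⟨(dvd_pow_self (p : ℤ) two_ne_zero).trans hp.2, (dvd_pow_self (p : ℤ) two_ne_zero).trans hp'.2⟩

/-- the constants at a residue -/
noncomputable def kJ (A B D : ℤ[X]) (j : JJ A B D) (θ : ℕ) (k : Fin 3) : ℤ :=
  (KK A B D j.1 k).eval (θ : ℤ)

/-- the roots -/
noncomputable def ZJ (A B D : ℤ[X]) (j : JJ A B D) (p : ℕ) : Finset ℕ :=
  (range p).filter (fun a : ℕ => (p : ℤ) ∣ (fj A B D j.1).eval (a : ℤ))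

lemma K_nd (hf : Pg (ft A B D) d z) {p : ℕ} (hp : p.Prime) (hz : z < p) {t : ℤ} (j : Fin 4)
    (h : (p : ℤ) ∣ (fj A B D j).eval t) (k : Fin 3) : ¬ (p : ℤ) ∣ (KK A B D j k).eval t := by
  have hpi : Prime (p : ℤ) := Nat.prime_iff_prime_int.1 hp
  have hq := q_nd hf hp hz j h
  rcases f4 j with rfl | rfl | rfl | rfl
  · intro h1
    apply hq
    unfold KK at h1
    unfold qj
    rw [if_pos rfl] at h1 ⊢
    rw [eval_neg, dvd_neg, eval_mul] at h1
    rw [eval_mul, eval_mul]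
    rcases hpi.dvd_or_dvd h1 with h2 | h2
    · exact (h2.mul_right _).mul_right _
    · exact h2.mul_left _
  · intro h1
    apply hq
    unfold KK at h1
    unfold qj
    rw [if_neg (by decide), if_pos rfl] at h1 ⊢
    rw [eval_neg, dvd_neg, eval_mul] at h1
    rw [eval_mul, eval_mul]
    rcases hpi.dvd_or_dvd h1 with h2 | h2
    · exact (h2.mul_right _).mul_right _
    · exact h2.mul_left _
  · intro h1
    apply hq
    unfold KK at h1
    unfold qj
    rw [if_neg (by decide), if_neg (by decide), if_pos rfl] at h1 ⊢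
    rw [eval_mul] at h1
    rw [eval_mul, eval_mul]
    rcases hpi.dvd_or_dvd h1 with h2 | h2
    · exact (h2.mul_right _).mul_right _
    · exact h2.mul_left _
  · intro h1
    apply hq
    unfold KK at h1
    unfold qj
    rw [if_neg (by decide), if_neg (by decide), if_neg (by decide)] at h1 ⊢
    rw [eval_mul] at h1
    rcases hpi.dvd_or_dvd h1 with h2 | h2
    · rw [eval_mul, eval_mul]
      split_ifs at h2
      · exact (h2.mul_right _).mul_right _
      · exact (h2.mul_left _).mul_right _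
      · exact h2.mul_left _
    · exact h2

lemma ZJ_card (hf : Pg (ft A B D) d z) {p : ℕ} (hp : p.Prime) (hz : z < p) (j : JJ A B D) :
    (ZJ A B D j p).card ≤ d := by
  refine le_trans ?_ (hf.rho p hp hz)
  unfold ZJ rho
  apply card_le_card
  intro a ha
  rw [mem_filter] at ha ⊢
  refine ⟨ha.1, ?_⟩
  rw [ft_eval A B D j.1]
  exact ha.2.mul_right _

lemma eval_cong (K : ℤ[X]) (p t : ℕ) : (p : ℤ) ∣ K.eval ((t % p : ℕ) : ℤ) - K.eval (t : ℤ) := by
  refine dvd_trans ?_ (sub_dvd_eval_sub _ _ K)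
  have h1 := Nat.mod_add_div t p
  have h2 : ((t % p : ℕ) : ℤ) - (t : ℤ) = -((p : ℤ) * ((t / p : ℕ) : ℤ)) := by
    have h3 : ((t % p : ℕ) : ℤ) + (p : ℤ) * ((t / p : ℕ) : ℤ) = (t : ℤ) := by exact_mod_cast h1
    linarith
  rw [h2]
  exact (Dvd.intro _ rfl).neg_right

lemma jac_cong {p : ℕ} {a b : ℤ} (h : (p : ℤ) ∣ a - b) : jacobiSym a p = jacobiSym b p := by
  have h1 : a % (p : ℤ) = b % (p : ℤ) := ((Int.modEq_iff_dvd).2 h : b ≡ a [ZMOD p]).symm
  rw [jacobiSym.mod_left a p, jacobiSym.mod_left b p, h1]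

end Pool.Agent.U214.GT
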