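import Mathlib
import Pool.Agent.U409.SH.Avg
import Pool.Agent.U409.SH.Inv
import Pool.Agent.U214.PT.ShaQ
import Pool.Agent.U214.GT.Loc

/-!
# The local bound for the family
-/

set_option autoImplicit false

namespace Pool.Agent.U214.GT

open Finset Polynomial Pool.Agent.W262.RK Pool.Agent.U214.PT
open Pool.Agent.W307.RT (S1 S2 Gd)
open Pool.Agent.U409.SH (qq qq_le locl')

/-- `Q A B` is invariant under the scaling by squares and bounded by every local count -/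
structure QL (Q : ℤ → ℤ → ℝ) : Prop where
  nn : ∀ A B, 0 ≤ Q A B
  sq : ∀ {A B u : ℤ}, A ≠ 0 → B ≠ 0 → A ≠ B → u ≠ 0 → Q (u ^ 2 * A) (u ^ 2 * B) = Q A B
  bd : ∀ (m : ℕ) (L : ℕ → Bool → Bool → Bool → Bool → Prop) (A B : ℤ), A ≠ 0 → B ≠ 0 → A ≠ B →
    Odd m → Squarefree m → (∀ p : ℕ, p.Prime → p ∣ m → XC (L p)) →
    (∀ p : ℕ, p.Prime → p ∣ m → ∃ (c : Fin 4) (κ : Fin 3 → ℤ) (neg : Bool),
      (∀ k, ¬ (p : ℤ) ∣ κ k) ∧ LocH c κ neg p A B ∧
      ∀ v w h g, LL c κ neg p v w h g → L p v w h g) →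
    Q A B ≤ (4 : ℝ) ^ (((2 * A * B * (A - B)).natAbs.primeFactors.filter
      (fun q => ¬ q ∣ m)).card + 2) * (NL m L : ℝ)

theorem tr_QL : QL tr where
  nn := fun A B => zero_le_one.trans (one_le_tr A B)
  sq := fun hA hB hAB hu => tr_sq hA hB hAB hu
  bd := fun m L A B hA hB hAB hodd hsq hX hl => by
    have h := Pool.Agent.W214.RK2.desc4 m L A B hA hB hAB hodd hsq hX
      (fun p hp hpd x x' hx' hcurve e1 e2 he1 he2 hsq1 hsq2 => by
        have hpp : p.Prime := Fact.out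
        obtain ⟨c, κ, neg, hκ, hL, himp⟩ := hl p hpp hpd
        refine himp _ _ _ _ (Pool.Agent.W342.RK2.locl c κ neg p A B ?_ hκ hL x x' hx' hcurve e1 e2
          he1 he2 hsq1 hsq2)
        rintro rfl
        rw [← Nat.not_even_iff_odd, even_iff_two_dvd] at hodd
        exact hodd hpd)
    unfold tr
    exact_mod_cast h

theorem qq_QL : QL (fun A B => (qq A B : ℝ)) where
  nn := fun _ _ => Nat.cast_nonneg _
  sq := fun hA hB hAB hu => by
    show (qq _ _ : ℝ) = (qq _ _ : ℝ)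
    rw [qq_sq hA hB hAB hu]
  bd := fun m L A B hA hB hAB hodd hsq hX hl => by
    have h := qq_le m L A B hA hB hAB hodd hsq hX
      (fun p hp hpd e1 e2 he1 he2 hsol => by
        have hpp : p.Prime := Fact.out
        obtain ⟨c, κ, neg, hκ, hL, himp⟩ := hl p hpp hpd
        refine himp _ _ _ _ (locl' c κ neg p A B ?_ hκ hL e1 e2 he1 he2 hsol)
        rintro rfl
        rw [← Nat.not_even_iff_odd, even_iff_two_dvd] at hodd
        exact hodd hpd)
    exact_mod_cast h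

variable {A B D : ℤ[X]} {d z : ℕ}

/-- the sign and the residue -/
noncomputable def ct (A B D : ℤ[X]) (t p : ℕ) : Bool × ℕ :=
  (decide (jacobiSym ((ft A B D).eval (t : ℤ) / p) p = -1), t % p)

lemma bad_le {F : ℤ} {z y X K e : ℕ} (S : Finset ℕ) (hS : ∀ q ∈ S, q.Prime ∧ (z < q → (q : ℤ) ∣ F))
    (h0 : F ≠ 0) (hb : F.natAbs ≤ X ^ e) (he : 1 ≤ e) (hy : 1 ≤ y) (hK : X < (y + 1) ^ K) :
    (S.filter (fun q => ¬ q ∣ t1 z y F)).card ≤ z + e * K + (t2 z y F).primeFactors.card := by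
  have hsub : (S.filter (fun q => ¬ q ∣ t1 z y F)) ⊆
      ((Icc 1 z) ∪ (F.natAbs.primeFactors.filter (y < ·))) ∪ (t2 z y F).primeFactors := by
    intro q hq
    rw [mem_filter] at hq
    obtain ⟨hp, hqF⟩ := hS q hq.1
    rw [mem_union, mem_union, mem_Icc]
    rcases Nat.lt_or_ge z q with h | h
    swap
    · exact Or.inl (Or.inl ⟨hp.one_lt.le, h⟩)
    · have hqF := hqF h
      rcases Nat.lt_or_ge y q with hyq | hyq
      · left; right
        rw [mem_filter, Nat.mem_primeFactors]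
        exact ⟨⟨hp, Int.natCast_dvd.1 hqF, Int.natAbs_ne_zero.2 h0⟩, hyq⟩
      · right
        have hPS : q ∈ PS z y := mem_PS.2 ⟨⟨h, hyq⟩, hp⟩
        have hsq : (q : ℤ) ^ 2 ∣ F := by
          by_contra hcon
          exact hq.2 ((dvd_t1 hp).2 ⟨hPS, hqF, hcon⟩)
        rw [Nat.mem_primeFactors]
        refine ⟨hp, (dvd_t2 hp).2 ⟨hPS, hsq⟩, ?_⟩
        unfold t2
        exact prod_ne_zero_iff.2 fun p hp => (mem_PS.1 (mem_filter.1 hp).1).2.ne_zero
  have hone : (F.natAbs.primeFactors.filter (y < ·)).card ≤ e * K := by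
    obtain ⟨S, hS⟩ : ∃ S, S = F.natAbs.primeFactors.filter (y < ·) := ⟨_, rfl⟩
    rw [← hS]
    have h1 : (y + 1) ^ S.card ≤ ∏ q ∈ S, q :=
      Finset.pow_card_le_prod _ _ _ (fun q hq => by
        rw [hS] at hq
        have := (mem_filter.1 hq).2
        omega)
    have h2 : ∏ q ∈ S, q ∣ F.natAbs := by
      rw [hS]
      exact (prod_dvd_prod_of_subset _ _ _ (filter_subset _ _)).trans
        (Nat.prod_primeFactors_dvd _)
    have h3 : ∏ q ∈ S, q ≤ F.natAbs :=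
      Nat.le_of_dvd (Nat.pos_of_ne_zero (Int.natAbs_ne_zero.2 h0)) h2
    have h4 : (y + 1) ^ S.card < (y + 1) ^ (e * K) := by
      calc (y + 1) ^ S.card ≤ X ^ e := h1.trans (h3.trans hb)
        _ < ((y + 1) ^ K) ^ e := Nat.pow_lt_pow_left hK (by omega)
        _ = (y + 1) ^ (e * K) := by rw [← pow_mul, mul_comm]
    exact ((Nat.pow_lt_pow_iff_right (by omega)).1 h4).le
  refine (card_le_card hsub).trans ((card_union_le _ _).trans (add_le_add
    ((card_union_le _ _).trans (add_le_add ?_ hone)) le_rfl))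
  simp

/-- the local hypotheses hold -/
lemma locG (hf : Pg (ft A B D) d z) {p : ℕ} (hp : p.Prime) (hz : z < p) {t : ℕ} (j : Fin 4)
    (hj : (p : ℤ) ∣ (fj A B D j).eval (t : ℤ)) (hj2 : ¬ (p : ℤ) ^ 2 ∣ (fj A B D j).eval (t : ℤ)) :
    LocH j (fun k => (KK A B D j k).eval ((t % p : ℕ) : ℤ))
      (decide (jacobiSym ((ft A B D).eval (t : ℤ) / p) p = -1)) p
      (A.eval (t : ℤ) * D.eval (t : ℤ)) (B.eval (t : ℤ) * D.eval (t : ℤ)) := by
  have hpi : Prime (p : ℤ) := Nat.prime_iff_prime_int.1 hp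
  have hp0 : (p : ℤ) ≠ 0 := hpi.ne_zero
  haveI : Fact p.Prime := ⟨hp⟩
  have hq := q_nd hf hp hz j hj
  obtain ⟨a, ha⟩ : ∃ a, a = A.eval (t : ℤ) := ⟨_, rfl⟩
  obtain ⟨b, hb⟩ : ∃ b, b = B.eval (t : ℤ) := ⟨_, rfl⟩
  obtain ⟨c, hc⟩ : ∃ c, c = D.eval (t : ℤ) := ⟨_, rfl⟩
  have hnd : ∀ {x y : ℤ}, ¬ (p : ℤ) ∣ x → ¬ (p : ℤ) ∣ y → ¬ (p : ℤ) ∣ x * y := by
    intro x y h1 h2 h3
    rcases hpi.dvd_or_dvd h3 with h | h
    · exact h1 h
    · exact h2 h
  have hsq1 : ∀ x : ℤ, ¬ (p : ℤ) ∣ x → jacobiSym (x ^ 2) p = 1 := by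
    intro x hx
    apply jacobiSym.sq_one'
    rw [← Int.isCoprime_iff_gcd_eq_one]
    exact ((Prime.coprime_iff_not_dvd hpi).2 hx).symm
  have hcp : ∀ x y : ℤ, (p : ℤ) ∣ x → ¬ (p : ℤ) ^ 2 ∣ x → ¬ (p : ℤ) ∣ y → ¬ (p : ℤ) ^ 2 ∣ x * y := by
    intro x y _ h2 h3 h4
    exact h2 ((IsCoprime.pow_left ((Prime.coprime_iff_not_dvd hpi).2 h3)).dvd_of_dvd_mul_right h4)
  rcases f4 j with rfl | rfl | rfl | rfl
  · rw [fj0, ← ha] at hj hj2
    rw [qj0, eval_mul, eval_mul, eval_sub, ← ha, ← hb, ← hc] at hq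
    have hb' : ¬ (p : ℤ) ∣ b := fun h => hq ((h.mul_right _).mul_right _)
    have hc' : ¬ (p : ℤ) ∣ c := fun h => hq (h.mul_left _)
    unfold LocH
    rw [if_pos rfl, ← ha, ← hb, ← hc]
    refine ⟨hj.mul_right _, hcp _ _ hj hj2 hc', hnd hb' hc', ?_⟩
    have h1 : (KK A B D 0 0).eval (t : ℤ) = -(b * c) := by
      unfold KK
      rw [if_pos rfl, eval_neg, eval_mul, ← hb, ← hc]
    have h2 := eval_cong (KK A B D 0 0) p t
    rw [h1] at h2
    rw [jac_cong (b := (b * c) ^ 2), hsq1 _ (hnd hb' hc')]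
    have h3 : (KK A B D 0 0).eval ((t % p : ℕ) : ℤ) * -(b * c) - (b * c) ^ 2 =
        ((KK A B D 0 0).eval ((t % p : ℕ) : ℤ) - -(b * c)) * -(b * c) := by ring
    rw [h3]
    exact h2.mul_right _
  · rw [fj1, ← hb] at hj hj2
    rw [qj1, eval_mul, eval_mul, eval_sub, ← ha, ← hb, ← hc] at hq
    have ha' : ¬ (p : ℤ) ∣ a := fun h => hq ((h.mul_right _).mul_right _)
    have hc' : ¬ (p : ℤ) ∣ c := fun h => hq (h.mul_left _)
    unfold LocH
    rw [if_neg (by decide), if_pos rfl, ← ha, ← hb, ← hc]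
    refine ⟨hj.mul_right _, hcp _ _ hj hj2 hc', hnd ha' hc', ?_⟩
    have h1 : (KK A B D 1 0).eval (t : ℤ) = -(a * c) := by
      unfold KK
      rw [if_neg (by decide), if_pos rfl, eval_neg, eval_mul, ← ha, ← hc]
    have h2 := eval_cong (KK A B D 1 0) p t
    rw [h1] at h2
    rw [jac_cong (b := (a * c) ^ 2), hsq1 _ (hnd ha' hc')]
    have h3 : (KK A B D 1 0).eval ((t % p : ℕ) : ℤ) * -(a * c) - (a * c) ^ 2 =
        ((KK A B D 1 0).eval ((t % p : ℕ) : ℤ) - -(a * c)) * -(a * c) := by ring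
    rw [h3]
    exact h2.mul_right _
  · rw [fj2, eval_sub, ← ha, ← hb] at hj hj2
    rw [qj2, eval_mul, eval_mul, ← ha, ← hb, ← hc] at hq
    have ha' : ¬ (p : ℤ) ∣ a := fun h => hq ((h.mul_right _).mul_right _)
    have hc' : ¬ (p : ℤ) ∣ c := fun h => hq (h.mul_left _)
    unfold LocH
    rw [if_neg (by decide), if_neg (by decide), if_pos rfl, ← ha, ← hb, ← hc, ← sub_mul]
    refine ⟨hj.mul_right _, hcp _ _ hj hj2 hc', hnd ha' hc', ?_⟩
    have h1 : (KK A B D 2 0).eval (t : ℤ) = a * c := by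
      unfold KK
      rw [if_neg (by decide), if_neg (by decide), if_pos rfl, eval_mul, ← ha, ← hc]
    have h2 := eval_cong (KK A B D 2 0) p t
    rw [h1] at h2
    rw [jac_cong (b := (a * c) ^ 2), hsq1 _ (hnd ha' hc')]
    have h3 : (KK A B D 2 0).eval ((t % p : ℕ) : ℤ) * (a * c) - (a * c) ^ 2 =
        ((KK A B D 2 0).eval ((t % p : ℕ) : ℤ) - (a * c)) * (a * c) := by ring
    rw [h3]
    exact h2.mul_right _
  · rw [fj3, ← hc] at hj hj2
    rw [qj3, eval_mul, eval_mul, eval_sub, ← ha, ← hb] at hq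
    have ha' : ¬ (p : ℤ) ∣ a := fun h => hq ((h.mul_right _).mul_right _)
    have hb' : ¬ (p : ℤ) ∣ b := fun h => hq ((h.mul_left _).mul_right _)
    have hab' : ¬ (p : ℤ) ∣ a - b := fun h => hq (h.mul_left _)
    obtain ⟨q, hcq⟩ := hj
    have hq' : ¬ (p : ℤ) ∣ q := by
      intro h
      apply hj2
      rw [hcq, sq]
      exact mul_dvd_mul_left _ h
    have hF : (ft A B D).eval (t : ℤ) / p = a * b * (a - b) * q := by
      unfold ft
      rw [eval_mul, eval_mul, eval_mul, eval_sub, ← ha, ← hb, ← hc, hcq]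
      rw [show a * b * (a - b) * ((p : ℤ) * q) = (p : ℤ) * (a * b * (a - b) * q) by ring]
      exact Int.mul_ediv_cancel_left _ hp0
    have hFn : ¬ (p : ℤ) ∣ a * b * (a - b) * q := hnd (hnd (hnd ha' hb') hab') hq'
    have hJ : jacobiSym (a * b * (a - b) * q) p =
        if (decide (jacobiSym (a * b * (a - b) * q) p = -1)) = true then -1 else 1 := by
      split_ifs with h5
      · exact of_decide_eq_true h5
      · have h6 : jacobiSym (a * b * (a - b) * q) p ≠ -1 := fun h7 => h5 (decide_eq_true h7)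
        have h7 : (a * b * (a - b) * q).gcd p = 1 := by
          rw [← Int.isCoprime_iff_gcd_eq_one]
          exact ((Prime.coprime_iff_not_dvd hpi).2 hFn).symm
        rcases jacobiSym.eq_one_or_neg_one h7 with h8 | h8
        · exact h8
        · exact absurd h8 h6
    have hK : ∀ (k : Fin 3) (x : ℤ), ¬ (p : ℤ) ∣ x →
        (KK A B D 3 k).eval (t : ℤ) = x * (a * b * (a - b)) →
        jacobiSym ((KK A B D 3 k).eval ((t % p : ℕ) : ℤ) * (x * q)) p =
          jacobiSym (a * b * (a - b) * q) p := by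
      intro k x hx h1
      have h2 := eval_cong (KK A B D 3 k) p t
      rw [h1] at h2
      rw [jac_cong (b := x ^ 2 * (a * b * (a - b) * q)), jacobiSym.mul_left, hsq1 x hx, one_mul]
      have h3 : (KK A B D 3 k).eval ((t % p : ℕ) : ℤ) * (x * q) - x ^ 2 * (a * b * (a - b) * q) =
          ((KK A B D 3 k).eval ((t % p : ℕ) : ℤ) - x * (a * b * (a - b))) * (x * q) := by ring
      rw [h3]
      exact h2.mul_right _
    have hK0 : (KK A B D 3 0).eval (t : ℤ) = a * (a * b * (a - b)) := by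
      unfold KK
      rw [if_neg (by decide), if_neg (by decide), if_neg (by decide), if_pos rfl, eval_mul,
        eval_mul, eval_mul, eval_sub, ← ha, ← hb]
    have hK1 : (KK A B D 3 1).eval (t : ℤ) = b * (a * b * (a - b)) := by
      unfold KK
      rw [if_neg (by decide), if_neg (by decide), if_neg (by decide), if_neg (by decide),
        if_pos rfl, eval_mul, eval_mul, eval_mul, eval_sub, ← ha, ← hb]
    have hK2 : (KK A B D 3 2).eval (t : ℤ) = (a - b) * (a * b * (a - b)) := by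
      unfold KK
      rw [if_neg (by decide), if_neg (by decide), if_neg (by decide), if_neg (by decide),
        if_neg (by decide), eval_mul, eval_mul, eval_mul, eval_sub, ← ha, ← hb]
    have hdiv : ∀ x : ℤ, x * c / p = x * q := by
      intro x
      rw [hcq, mul_left_comm]
      exact Int.mul_ediv_cancel_left _ hp0
    have hnn : ∀ x : ℤ, ¬ (p : ℤ) ∣ x → ¬ (p : ℤ) ^ 2 ∣ x * c := by
      intro x hx
      rw [mul_comm]
      exact hcp _ _ (by rw [hcq]; exact Dvd.intro _ rfl) hj2 hx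
    unfold LocH
    rw [if_neg (by decide), if_neg (by decide), if_neg (by decide), hF, ← ha, ← hb, ← hc,
      ← sub_mul, hdiv, hdiv, hdiv, hK 0 a ha' hK0, hK 1 b hb' hK1, hK 2 (a - b) hab' hK2]
    have hdc : (p : ℤ) ∣ c := by rw [hcq]; exact Dvd.intro _ rfl
    exact ⟨hdc.mul_left _, hdc.mul_left _, hnn a ha', hnn b hb', hnn _ hab', hJ, hJ, hJ⟩

/-- the classes -/
def cJ (A B D : ℤ[X]) : JJ A B D → Fin 4 := Subtype.val

/-- **the local bound** -/
lemma rankG {Q : ℤ → ℤ → ℝ} (hQ : QL Q) (hf : Pg (ft A B D) d z) {y X k e t : ℕ}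
    (h0 : (ft A B D).eval (t : ℤ) ≠ 0) (hF : ((ft A B D).eval (t : ℤ)).natAbs ≤ X ^ e) (he : 1 ≤ e)
    (hy : 1 ≤ y) (hk : X < (y + 1) ^ k) :
    Q (A.eval (t : ℤ) * D.eval (t : ℤ)) (B.eval (t : ℤ) * D.eval (t : ℤ)) ≤
      (4 : ℝ) ^ (z + 2) * (4 ^ e) ^ k *
        4 ^ (t2 z y ((ft A B D).eval (t : ℤ))).primeFactors.card *
        (NL (∏ j, S1 z y (vl A B D t) j)
          (LLc (cJ A B D) (kJ A B D) (S1 z y (vl A B D t)) (ct A B D t)) : ℝ) := by
  classical
  have hz2 : 2 ≤ z := by have := hf.zd; omega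
  have hne := ft_eval A B D
  obtain ⟨m, hm⟩ : ∃ m, m = t1 z y ((ft A B D).eval (t : ℤ)) := ⟨_, rfl⟩
  rw [prod_S1 hf h0, ← hm]
  have hmd : m ∣ PP z y := by rw [hm]; exact Nat.dvd_of_mem_divisors (t1_mem _)
  have hPSof : ∀ p : ℕ, p.Prime → p ∣ m → p ∈ PS z y := fun p hp h =>
    (prime_dvd_PP hp).1 (h.trans hmd)
  have hodd : ∀ p : ℕ, p.Prime → p ∣ m → p ≠ 2 := by
    intro p hp h
    have h1 := (mem_PS.1 (hPSof p hp h)).1.1
    omega
  have ha := fj_ne h0 0
  have hb := fj_ne h0 1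
  have hab := fj_ne h0 2
  have hc := fj_ne h0 3
  rw [fj0] at ha
  rw [fj1] at hb
  rw [fj2, eval_sub] at hab
  rw [fj3] at hc
  -- the local data
  have hS1 : ∀ (p : ℕ) (j : JJ A B D), p.Prime → p ∣ S1 z y (vl A B D t) j →
      (p ∈ PS z y ∧ (p : ℤ) ∣ (fj A B D j.1).eval (t : ℤ) ∧
        ¬ (p : ℤ) ^ 2 ∣ (fj A B D j.1).eval (t : ℤ)) := by
    intro p j hp hpj
    unfold S1 at hpj
    obtain ⟨q, hq, hpq⟩ := (hp.prime.dvd_finsetProd_iff _).1 hpj
    rw [mem_filter] at hq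
    rw [(Nat.prime_dvd_prime_iff_eq hp (mem_PS.1 hq.1).2).1 hpq]
    exact hq
  have hloc : ∀ (p : ℕ) (j : JJ A B D), p.Prime → p ∣ S1 z y (vl A B D t) j →
      (∀ k, ¬ (p : ℤ) ∣ kJ A B D j (ct A B D t p).2 k) ∧
      LocH (cJ A B D j) (kJ A B D j (ct A B D t p).2) (ct A B D t p).1 p
        (A.eval (t : ℤ) * D.eval (t : ℤ)) (B.eval (t : ℤ) * D.eval (t : ℤ)) := by
    intro p j hp hpj
    obtain ⟨hPS, h1, h2⟩ := hS1 p j hp hpj
    have hzp := (mem_PS.1 hPS).1.1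
    refine ⟨fun k => ?_, locG hf hp hzp j.1 h1 h2⟩
    unfold kJ ct
    refine K_nd hf hp hzp j.1 ?_ k
    simp only
    have h3 := eval_cong (fj A B D j.1) p t
    exact (dvd_iff_dvd_of_dvd_sub h3).2 h1
  have hbd := hQ.bd m (LLc (cJ A B D) (kJ A B D) (S1 z y (vl A B D t)) (ct A B D t))
    (A.eval (t : ℤ) * D.eval (t : ℤ)) (B.eval (t : ℤ) * D.eval (t : ℤ))
    (mul_ne_zero ha hc) (mul_ne_zero hb hc)
    (fun h => hab (by rw [mul_right_cancel₀ hc h, sub_self]))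
    (by
      rw [← Nat.not_even_iff_odd, even_iff_two_dvd]
      intro h
      exact hodd 2 Nat.prime_two h rfl)
    ((PP_squarefree z y).squarefree_of_dvd hmd)
    (fun p hp hpd => by
      have hx : ∀ j, p ∣ S1 z y (vl A B D t) j → XC (LL (cJ A B D j)
          (kJ A B D j (ct A B D t p).2) (ct A B D t p).1 p) := fun j hj =>
        Pool.Agent.W342.RK2.xcl _ _ _ p hp (hodd p hp hpd) (hloc p j hp hj).1
      exact ⟨fun j hj => (hx j hj).1, fun a1 b1 c1 d1 a2 b2 c2 d2 e1 e2 j hj =>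
        (hx j hj).2 a1 b1 c1 d1 a2 b2 c2 d2 (e1 j hj) (e2 j hj)⟩)
    (fun p hp hpd => by
      have hpd' := hpd
      rw [hm, ← prod_S1 hf h0] at hpd'
      obtain ⟨j, _, hj⟩ := (hp.prime.dvd_finsetProd_iff _).1 hpd'
      obtain ⟨h1, h2⟩ := hloc p j hp hj
      refine ⟨_, _, _, h1, h2, fun v w h g hL i hi => ?_⟩
      have hij : i = j := by
        by_contra hne
        exact (gd hf h0).2 p hp (mem_PS.1 (hS1 p j hp hj).1).1.1 i j hne
          ⟨(hS1 p i hp hi).2.1, (hS1 p j hp hj).2.1⟩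
      rw [hij]
      exact hL)
  refine hbd.trans ?_
  apply mul_le_mul_of_nonneg_right _ (Nat.cast_nonneg _)
  have hcard := bad_le (z := z) (y := y) (2 * (A.eval (t : ℤ) * D.eval (t : ℤ)) * (B.eval (t : ℤ) * D.eval (t : ℤ)) *
    (A.eval (t : ℤ) * D.eval (t : ℤ) - B.eval (t : ℤ) * D.eval (t : ℤ))).natAbs.primeFactors
    (fun q hq => by
      have hp := Nat.prime_of_mem_primeFactors hq
      refine ⟨hp, fun hzq => ?_⟩
      have hqi : Prime (q : ℤ) := Nat.prime_iff_prime_int.1 hp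
      have hdv : (q : ℤ) ∣ 2 * (A.eval (t : ℤ) * D.eval (t : ℤ)) * (B.eval (t : ℤ) * D.eval (t : ℤ)) *
        (A.eval (t : ℤ) * D.eval (t : ℤ) - B.eval (t : ℤ) * D.eval (t : ℤ)) :=
        Int.natCast_dvd.2 (Nat.dvd_of_mem_primeFactors hq)
      unfold ft
      rw [eval_mul, eval_mul, eval_mul, eval_sub]
      rw [← sub_mul] at hdv
      rcases hqi.dvd_or_dvd hdv with h1 | h1
      · rcases hqi.dvd_or_dvd h1 with h2 | h2
        · rcases hqi.dvd_or_dvd h2 with h3 | h3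
          · exfalso
            have h4 : q ∣ 2 := by exact_mod_cast h3
            have h5 := Nat.le_of_dvd (by norm_num) h4
            omega
          · rcases hqi.dvd_or_dvd h3 with h4 | h4
            · exact ((h4.mul_right _).mul_right _).mul_right _
            · exact h4.mul_left _
        · rcases hqi.dvd_or_dvd h2 with h4 | h4
          · exact ((h4.mul_left _).mul_right _).mul_right _
          · exact h4.mul_left _
      · rcases hqi.dvd_or_dvd h1 with h4 | h4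
        · exact (h4.mul_left _).mul_right _
        · exact h4.mul_left _) h0 hF he hy hk
  rw [← hm] at hcard
  calc (4 : ℝ) ^ _ ≤ (4 : ℝ) ^ ((z + 2) + e * k +
        (t2 z y ((ft A B D).eval (t : ℤ))).primeFactors.card) :=
        pow_le_pow_right₀ (by norm_num) (by omega)
    _ = _ := by
        rw [pow_add, pow_add, pow_mul]

end Pool.Agent.U214.GT
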