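import Pool.Agent.W125.RK2.SUBB
import Pool.Agent.U214.GT.Exp

/-!
# The sum of the powers of the local counts grows at most by a constant for each prime
-/

set_option autoImplicit false

namespace Pool.Agent.U214.GT

open Finset Pool.Agent.W262.RK Pool.Agent.W125.RK2

lemma pi_union_le (P Q : Finset ℕ) (t : ℕ → Finset (Bool × ℕ)) (g : (∀ p ∈ P, Bool × ℕ) → ℝ)
    (hg : ∀ c, 0 ≤ g c) :
    ∑ c ∈ (P ∪ Q).pi t, g (fun p hp => c p (mem_union_left Q hp)) ≤
      (∏ p ∈ Q, ((t p).card : ℝ)) * ∑ c ∈ P.pi t, g c := by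
  classical
  set Φ : (∀ p ∈ P ∪ Q, Bool × ℕ) → (∀ p ∈ P, Bool × ℕ) × (∀ p ∈ Q, Bool × ℕ) :=
    fun c => (fun p hp => c p (mem_union_left Q hp), fun p hp => c p (mem_union_right P hp))
    with hΦ
  have hinj : Function.Injective Φ := by
    intro c c' h
    funext p hp
    rcases mem_union.1 hp with h1 | h1
    · exact congrFun (congrFun (congrArg Prod.fst h) p) h1
    · exact congrFun (congrFun (congrArg Prod.snd h) p) h1
  calc ∑ c ∈ (P ∪ Q).pi t, g (fun p hp => c p (mem_union_left Q hp))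
      = ∑ c ∈ (P ∪ Q).pi t, (fun x : (∀ p ∈ P, Bool × ℕ) × (∀ p ∈ Q, Bool × ℕ) => g x.1) (Φ c) :=
        rfl
    _ = ∑ x ∈ ((P ∪ Q).pi t).image Φ, g x.1 := by
        rw [sum_image (fun c _ c' _ h => hinj h)]
    _ ≤ ∑ x ∈ (P.pi t) ×ˢ (Q.pi t), g x.1 := by
        refine sum_le_sum_of_subset_of_nonneg ?_ fun x _ _ => hg _
        intro x hx
        obtain ⟨c, hc, rfl⟩ := mem_image.1 hx
        rw [mem_product]
        constructor
        · rw [mem_pi]
          intro p hp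
          exact (mem_pi.1 hc) p (mem_union_left Q hp)
        · rw [mem_pi]
          intro p hp
          exact (mem_pi.1 hc) p (mem_union_right P hp)
    _ = _ := by
        rw [sum_product]
        simp only
        simp only [sum_const, nsmul_eq_mul]
        rw [← mul_sum, card_pi, Nat.cast_prod]

lemma pi_congr' {P : Finset ℕ} {t t' : ℕ → Finset (Bool × ℕ)} (h : ∀ p ∈ P, t p = t' p) :
    P.pi t = P.pi t' := by
  ext c
  rw [mem_pi, mem_pi]
  exact forall_congr' fun p => forall_congr' fun hp => by rw [h p hp]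

variable {J : Type} [Fintype J] [DecidableEq J] {z y : ℕ}

/-- the residues at a prime of the tuple -/
lemma Zs_eq {s : J → ℕ} (hcop : ∀ i j, i ≠ j → (s i).Coprime (s j)) (Z : J → ℕ → Finset ℕ)
    {p : ℕ} (hp : p.Prime) {j : J} (hj : p ∣ s j) : Zs Z s p = Z j p := by
  unfold Zs
  have : univ.filter (fun j => p ∣ s j) = {j} := by
    ext i
    rw [mem_filter, mem_singleton]
    constructor
    · rintro ⟨-, hi⟩
      by_contra hij
      have h1 := hcop i j hij
      have h2 := Nat.dvd_gcd hi hj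
      rw [h1.gcd_eq_one] at h2
      exact hp.one_lt.ne' (Nat.dvd_one.1 h2)
    · rintro rfl
      exact ⟨mem_univ _, hj⟩
  rw [this, singleton_biUnion]

theorem subb_s (h4 : SUB4) (hx : XCL) (r : ℕ) (cls : J → Fin 4) (Z : J → ℕ → Finset ℕ)
    (k : J → ℕ → Fin 3 → ℤ) (d z y : ℕ) (hz : 2 ≤ z) (hd1 : 1 ≤ d)
    (hk : ∀ p : ℕ, p.Prime → z < p → ∀ j, ∀ θ ∈ Z j p, ∀ i, ¬ (p : ℤ) ∣ k j θ i)
    (hZd : ∀ p : ℕ, p.Prime → z < p → ∀ j, (Z j p).card ≤ d)
    (s e : J → ℕ) (hT : (fun j => s j * e j) ∈ Tup J z y) :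
    NBS r cls Z k (fun j => s j * e j) ≤
      ((4 : ℝ) ^ r * d) ^ (∑ j, (e j).primeFactors.card) * NBS r cls Z k s := by
  classical
  have hT' : (∀ j, s j * e j ∈ (PP z y).divisors) ∧
      ∀ i j, i ≠ j → (s i * e i).Coprime (s j * e j) := by
    unfold Tup at hT
    rw [mem_filter, Fintype.mem_piFinset] at hT
    exact hT
  have hcs : ∀ i j, i ≠ j → (s i).Coprime (s j) := fun i j hij =>
    Nat.Coprime.coprime_dvd_left (Dvd.intro _ rfl)
      (Nat.Coprime.coprime_dvd_right (Dvd.intro _ rfl) (hT'.2 i j hij))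
  have hsqj : ∀ j, Squarefree (s j * e j) := fun j => dv_squarefree (hT'.1 j)
  have hsq : Squarefree (∏ j, (s j * e j)) := by
    apply Finset.squarefree_prod_of_pairwise_isCoprime
    · intro i _ j _ hij
      exact Nat.coprime_iff_isRelPrime.1 (hT'.2 i j hij)
    · intro j _
      exact hsqj j
  have hprod : ∏ j, (s j * e j) = (∏ j, s j) * ∏ j, e j := Finset.prod_mul_distrib
  have hme : Squarefree ((∏ j, s j) * ∏ j, e j) := by rw [← hprod]; exact hsq
  have hs0 : ∀ j, s j ≠ 0 := fun j => left_ne_zero_of_mul (hsqj j).ne_zero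
  have he0 : ∀ j, e j ≠ 0 := fun j => right_ne_zero_of_mul (hsqj j).ne_zero
  obtain ⟨P, hP⟩ : ∃ P, P = Ps s := ⟨_, rfl⟩
  obtain ⟨Q, hQ⟩ : ∃ Q, Q = Ps e := ⟨_, rfl⟩
  have hPQ : Disjoint P Q := by
    rw [hP, hQ]
    exact (Nat.coprime_of_squarefree_mul hme).disjoint_primeFactors
  have hPU : Ps (fun j => s j * e j) = P ∪ Q := by
    rw [hP, hQ]
    unfold Ps
    rw [hprod]
    exact Nat.primeFactors_mul (prod_ne_zero_iff.2 fun j _ => hs0 j)
      (prod_ne_zero_iff.2 fun j _ => he0 j)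
  -- primes dividing `∏ s`
  have hpr : ∀ p : ℕ, p.Prime → p ∣ ∏ j, s j → ∃ j0, p ∣ s j0 ∧ z < p := by
    intro p hp h
    obtain ⟨j0, _, hj0⟩ := (hp.prime.dvd_finsetProd_iff _).1 h
    refine ⟨j0, hj0, ?_⟩
    exact (dv_prime (hT'.1 j0) hp (hj0.trans (Dvd.intro _ rfl))).1
  have hiff : ∀ p : ℕ, p.Prime → p ∣ ∏ j, s j → ∀ j, p ∣ s j * e j ↔ p ∣ s j := by
    intro p hp h j
    constructor
    · intro hj
      obtain ⟨j0, hj0, _⟩ := hpr p hp h
      by_cases hjj : j = j0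
      · rw [hjj]
        exact hj0
      · exfalso
        have h1 := hT'.2 j j0 hjj
        have h2 : p ∣ (s j * e j).gcd (s j0 * e j0) := Nat.dvd_gcd hj (hj0.trans (Dvd.intro _ rfl))
        rw [h1.gcd_eq_one] at h2
        exact hp.one_lt.ne' (Nat.dvd_one.1 h2)
    · intro hj
      exact hj.trans (Dvd.intro _ rfl)
  obtain ⟨t, ht⟩ : ∃ t, t = Cf Z (fun j => s j * e j) := ⟨_, rfl⟩
  have hct : ∀ c ∈ (P ∪ Q).pi t, ∀ p : ℕ, p.Prime → p ∣ ∏ j, s j → ∀ j, p ∣ s j * e j →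
      (xt (P ∪ Q) c p).2 ∈ Z j p := by
    intro c hc p hp hps j hj
    have hmem : p ∈ P ∪ Q := by
      rw [mem_union, hP]
      left
      unfold Ps
      exact Nat.mem_primeFactors.2 ⟨hp, hps, prod_ne_zero_iff.2 fun j _ => hs0 j⟩
    have h1 := (mem_pi.1 hc) p hmem
    rw [ht] at h1
    unfold Cf at h1
    rw [mem_product, Zs_eq hT'.2 Z hp hj] at h1
    unfold xt
    rw [dif_pos hmem]
    exact h1.2
  have hXC : ∀ c ∈ (P ∪ Q).pi t, ∀ p, p.Prime → p ∣ ∏ j, s j →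
      XC (LLc cls k (fun j => s j * e j) (xt (P ∪ Q) c) p) := by
    intro c hc p hp h
    obtain ⟨_, _, hzp⟩ := hpr p hp h
    have h1 : ∀ j, p ∣ s j * e j → XC (LL (cls j) (k j (xt (P ∪ Q) c p).2) (xt (P ∪ Q) c p).1 p) := by
      intro j hj
      apply hx _ _ _ p hp (by omega)
      exact hk p hp hzp j _ (hct c hc p hp h j hj)
    constructor
    · intro j hj
      exact (h1 j hj).1
    · intro a b c d a' b' c' d' g g' j hj
      exact (h1 j hj).2 _ _ _ _ _ _ _ _ (g j hj) (g' j hj)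
  obtain ⟨G, hG⟩ : ∃ G : (∀ p ∈ P, Bool × ℕ) → ℝ,
    G = fun c => (NL (∏ j, s j) (LLc cls k s (xt P c)) : ℝ) ^ r := ⟨_, rfl⟩
  have hG0 : ∀ c, 0 ≤ G c := fun c => by rw [hG]; exact pow_nonneg (Nat.cast_nonneg _) _
  have hNL : ∀ c : (∀ p ∈ P ∪ Q, Bool × ℕ),
      NL (∏ j, s j) (LLc cls k (fun j => s j * e j) (xt (P ∪ Q) c)) =
      NL (∏ j, s j) (LLc cls k s (xt P (fun p hp => c p (mem_union_left Q hp)))) := by
    intro c
    apply NL_congr
    intro p hp
    have hpp := Nat.prime_of_mem_primeFactors hp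
    have hpd := Nat.dvd_of_mem_primeFactors hp
    have hpP : p ∈ P := by rw [hP]; exact hp
    have hx1 : xt (P ∪ Q) c p = xt P (fun p hp => c p (mem_union_left Q hp)) p := by
      unfold xt
      rw [dif_pos (mem_union_left Q hpP), dif_pos hpP]
    funext v w h g
    unfold LLc
    apply propext
    apply forall_congr'
    intro j
    rw [hiff p hpp hpd j, hx1]
  have hω : (∏ j, e j).primeFactors.card ≤ ∑ j, (e j).primeFactors.card := by
    have h1 : (∏ j, e j).primeFactors ⊆ univ.biUnion (fun j => (e j).primeFactors) := by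
      intro p hp
      rw [mem_biUnion]
      have hpp := Nat.prime_of_mem_primeFactors hp
      obtain ⟨j, _, hj⟩ := (hpp.prime.dvd_finsetProd_iff _).1 (Nat.dvd_of_mem_primeFactors hp)
      exact ⟨j, mem_univ _, Nat.mem_primeFactors.2 ⟨hpp, hj, he0 j⟩⟩
    exact (Finset.card_le_card h1).trans card_biUnion_le
  have hQc : Q.card = (∏ j, e j).primeFactors.card := by rw [hQ]; rfl
  have hstep : ∀ c ∈ (P ∪ Q).pi t,
      (NL (∏ j, (s j * e j)) (LLc cls k (fun j => s j * e j) (xt (P ∪ Q) c)) : ℝ) ^ r ≤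
      ((4 : ℝ) ^ r) ^ Q.card * G (fun p hp => c p (mem_union_left Q hp)) := by
    intro c hc
    have h1 := h4 (∏ j, s j) (∏ j, e j) (LLc cls k (fun j => s j * e j) (xt (P ∪ Q) c)) hme
      (hXC c hc)
    rw [hNL c] at h1
    have h2 : (NL (∏ j, (s j * e j)) (LLc cls k (fun j => s j * e j) (xt (P ∪ Q) c)) : ℝ) ≤
        4 ^ Q.card *
          (NL (∏ j, s j) (LLc cls k s (xt P (fun p hp => c p (mem_union_left Q hp)))) : ℝ) := by
      rw [hprod, hQc]
      exact_mod_cast h1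
    have h3 := pow_le_pow_left₀ (Nat.cast_nonneg _) h2 r
    rw [mul_pow, ← pow_mul, mul_comm _ r, pow_mul] at h3
    rw [hG]
    exact h3
  have htq : ∀ q ∈ Q, ((t q).card : ℝ) ≤ 2 * d := by
    intro q hq
    have hq' : q ∈ (∏ j, e j).primeFactors := by rw [hQ] at hq; exact hq
    have hqp := Nat.prime_of_mem_primeFactors hq'
    obtain ⟨j, _, hj⟩ := (hqp.prime.dvd_finsetProd_iff _).1 (Nat.dvd_of_mem_primeFactors hq')
    have hj' : q ∣ s j * e j := hj.trans (Dvd.intro_left _ rfl)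
    have hzq := (dv_prime (hT'.1 j) hqp hj').1
    rw [ht]
    unfold Cf
    rw [card_product, Zs_eq hT'.2 Z hqp hj', card_univ, Fintype.card_bool]
    have := hZd q hqp hzq j
    exact_mod_cast Nat.mul_le_mul_left 2 this
  have htp : ∀ p ∈ P, t p = Cf Z s p := by
    intro p hp
    have hp' : p ∈ (∏ j, s j).primeFactors := by rw [hP] at hp; exact hp
    have hpp := Nat.prime_of_mem_primeFactors hp'
    obtain ⟨j, _, hj⟩ := (hpp.prime.dvd_finsetProd_iff _).1 (Nat.dvd_of_mem_primeFactors hp')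
    rw [ht]
    unfold Cf
    rw [Zs_eq hT'.2 Z hpp (hj.trans (Dvd.intro _ rfl)), Zs_eq hcs Z hpp hj]
  have hsumG : 0 ≤ ∑ c ∈ P.pi t, G c := sum_nonneg fun c _ => hG0 c
  have hdr : (1 : ℝ) ≤ d := by exact_mod_cast hd1
  have h41 : (1 : ℝ) ≤ (4 : ℝ) ^ r := one_le_pow₀ (by norm_num)
  have hNB : NBS r cls Z k s = (1 / 2) ^ P.card * ∑ c ∈ P.pi t, G c := by
    unfold NBS
    rw [pi_congr' htp, hG, hP]
  have hNB' : NBS r cls Z k (fun j => s j * e j) = (1 / 2) ^ (P ∪ Q).card *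
      ∑ c ∈ (P ∪ Q).pi t,
        (NL (∏ j, (s j * e j)) (LLc cls k (fun j => s j * e j) (xt (P ∪ Q) c)) : ℝ) ^ r := by
    unfold NBS
    rw [hPU, ht]
  rw [hNB', hNB, card_union_of_disjoint hPQ]
  calc (1 / 2 : ℝ) ^ (P.card + Q.card) * ∑ c ∈ (P ∪ Q).pi t,
        (NL (∏ j, (s j * e j)) (LLc cls k (fun j => s j * e j) (xt (P ∪ Q) c)) : ℝ) ^ r ≤
      (1 / 2 : ℝ) ^ (P.card + Q.card) * ∑ c ∈ (P ∪ Q).pi t,
        ((4 : ℝ) ^ r) ^ Q.card * G (fun p hp => c p (mem_union_left Q hp)) := by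
        apply mul_le_mul_of_nonneg_left _ (by positivity)
        exact Finset.sum_le_sum hstep
    _ = (1 / 2 : ℝ) ^ (P.card + Q.card) * ((4 : ℝ) ^ r) ^ Q.card * ∑ c ∈ (P ∪ Q).pi t,
        G (fun p hp => c p (mem_union_left Q hp)) := by rw [← mul_sum, mul_assoc]
    _ ≤ (1 / 2 : ℝ) ^ (P.card + Q.card) * ((4 : ℝ) ^ r) ^ Q.card *
        ((∏ p ∈ Q, ((t p).card : ℝ)) * ∑ c ∈ P.pi t, G c) :=
        mul_le_mul_of_nonneg_left (pi_union_le P Q t G hG0) (by positivity)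
    _ ≤ (1 / 2 : ℝ) ^ (P.card + Q.card) * ((4 : ℝ) ^ r) ^ Q.card *
        ((2 * d) ^ Q.card * ∑ c ∈ P.pi t, G c) := by
        apply mul_le_mul_of_nonneg_left _ (by positivity)
        apply mul_le_mul_of_nonneg_right _ hsumG
        rw [← prod_const]
        exact prod_le_prod (fun p _ => Nat.cast_nonneg _) htq
    _ = ((4 : ℝ) ^ r * d) ^ Q.card * ((1 / 2) ^ P.card * ∑ c ∈ P.pi t, G c) := by
        have h2 : (1 / 2 : ℝ) ^ Q.card * (2 * d) ^ Q.card = (d : ℝ) ^ Q.card := by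
          rw [← mul_pow]
          congr 1
          ring
        rw [pow_add, mul_pow (((4 : ℝ)) ^ r) (d : ℝ), ← h2]
        ring
    _ ≤ ((4 : ℝ) ^ r * d) ^ (∑ j, (e j).primeFactors.card) *
        ((1 / 2) ^ P.card * ∑ c ∈ P.pi t, G c) := by
        apply mul_le_mul_of_nonneg_right _ (mul_nonneg (by positivity) hsumG)
        apply pow_le_pow_right₀ (one_le_mul_of_one_le_of_one_le h41 hdr)
        rw [hQ]
        exact hω

end Pool.Agent.U214.GT
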