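import Mathlib
import Pool.Agent.W358.RK2.GR
import Pool.Agent.U214.PT.Ant
import Pool.Agent.U214.GT.Comb
import Pool.Agent.U214.GT.Sub
import Pool.Agent.U214.GT.Rank

/-!
# The summation for the family
-/

set_option autoImplicit false

namespace Pool.Agent.U214.GT

open Finset Polynomial Pool.Agent.W262.RK Pool.Agent.U214.PT Pool.Agent.U214.RM
open Pool.Agent.W307.RT (S1 S2 Gd)
open Pool.Agent.W591.RK2 (mem_Tup')
open Pool.Agent.H474R2.PG (rho)

section tup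

variable {J : Type} [Fintype J] [DecidableEq J] {a b : ℕ}

lemma Tup_cop {s : J → ℕ} (hs : s ∈ Tup J a b) : ∀ i j, i ≠ j → (s i).Coprime (s j) := by
  unfold Tup at hs
  exact (mem_filter.1 hs).2

lemma prod_dv {s : J → ℕ} (hs : s ∈ Tup J a b) : ∏ j, s j ∈ (PP a b).divisors := by
  rw [Nat.mem_divisors]
  refine ⟨?_, PP_ne_zero a b⟩
  refine Finset.prod_dvd_of_isRelPrime ?_ fun j _ => Nat.dvd_of_mem_divisors (mem_Tup' hs j)
  intro i _ j _ hij
  exact Nat.coprime_iff_isRelPrime.1 (Tup_cop hs i j hij)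

lemma prod_pfT {s : J → ℕ} (hs : s ∈ Tup J a b) (f : ℕ → ℝ) :
    ∏ p ∈ (∏ j, s j).primeFactors, f p = ∏ j, ∏ p ∈ (s j).primeFactors, f p := by
  rw [← prod_biUnion]
  · refine prod_congr ?_ fun _ _ => rfl
    ext p
    rw [mem_biUnion]
    have hne : ∀ j, s j ≠ 0 := fun j => dv_ne_zero (mem_Tup' hs j)
    constructor
    · intro hp
      have hpp := Nat.prime_of_mem_primeFactors hp
      obtain ⟨j, _, hj⟩ := (hpp.prime.dvd_finsetProd_iff _).1 (Nat.dvd_of_mem_primeFactors hp)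
      exact ⟨j, mem_univ j, Nat.mem_primeFactors.2 ⟨hpp, hj, hne j⟩⟩
    · rintro ⟨j, _, hj⟩
      refine Nat.mem_primeFactors.2 ⟨Nat.prime_of_mem_primeFactors hj,
        (Nat.dvd_of_mem_primeFactors hj).trans (dvd_prod_of_mem s (mem_univ j)),
        prod_ne_zero_iff.2 fun j _ => hne j⟩
  · intro i _ j _ hij
    exact (Tup_cop hs i j hij).disjoint_primeFactors

lemma gh_T {s : J → ℕ} (hs : s ∈ Tup J a b) (h : ℕ → ℝ) : gh h (∏ j, s j) = ∏ j, gh h (s j) :=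
  prod_pfT hs h

lemma pow_T {s : J → ℕ} (hs : s ∈ Tup J a b) (Q : ℝ) :
    Q ^ (∏ j, s j).primeFactors.card = ∏ j, Q ^ (s j).primeFactors.card := by
  have := prod_pfT hs (fun _ => Q)
  simpa [prod_const] using this

end tup

variable {A B D : ℤ[X]} {d z : ℕ}

/-- the sum over one class -/
lemma sum_cls (A B D : ℤ[X]) (c : Fin 4) :
    ∑ j ∈ univ.filter (fun j : JJ A B D => cJ A B D j = c), (nf (fj A B D j.1) : ℝ) =
      if 0 < (fj A B D c).natDegree then (nf (fj A B D c) : ℝ) else 0 := by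
  classical
  split_ifs with h
  · have : univ.filter (fun j : JJ A B D => cJ A B D j = c) = {⟨c, h⟩} := by
      ext j
      rw [mem_filter, mem_singleton]
      constructor
      · rintro ⟨-, hj⟩
        exact Subtype.ext hj
      · rintro rfl
        exact ⟨mem_univ _, rfl⟩
    rw [this, sum_singleton]
  · have : univ.filter (fun j : JJ A B D => cJ A B D j = c) = ∅ := by
      rw [filter_eq_empty_iff]
      intro j _ hj
      apply h
      rw [← hj]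
      exact j.2
    rw [this, sum_empty]

lemma nf_cls (h0 : ft A B D ≠ 0) (c : Fin 4) :
    (if 0 < (fj A B D c).natDegree then (nf (fj A B D c) : ℝ) else 0) = nf (fj A B D c) := by
  split_ifs with h
  · rfl
  · obtain ⟨k, hk⟩ := natDegree_eq_zero.1 (Nat.eq_zero_of_not_pos h)
    have hk0 : k ≠ 0 := by
      rintro rfl
      apply h0
      rw [← fj_mul A B D c, ← hk, C_0, zero_mul]
    rw [← hk, nf_const hk0]
    simp

lemma nf_ft (h0 : ft A B D ≠ 0) : (nf (ft A B D) : ℝ) = ∑ j : JJ A B D, (nf (fj A B D j.1) : ℝ) := by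
  classical
  have h1 : ∑ j : JJ A B D, (nf (fj A B D j.1) : ℝ) = ∑ c : Fin 4,
      ∑ j ∈ univ.filter (fun j : JJ A B D => cJ A B D j = c), (nf (fj A B D j.1) : ℝ) :=
    (sum_fiberwise univ (cJ A B D) _).symm
  rw [h1]
  simp only [sum_cls, nf_cls h0]
  rw [Fin.sum_univ_four, fj0, fj1, fj2, fj3]
  unfold ft at h0 ⊢
  have h2 := right_ne_zero_of_mul h0
  have h3 := left_ne_zero_of_mul h0
  have h4 := right_ne_zero_of_mul h3
  have h5 := left_ne_zero_of_mul h3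
  rw [nf_mul h3 h2, nf_mul h5 h4, nf_mul (left_ne_zero_of_mul h5) (right_ne_zero_of_mul h5)]
  push_cast
  rfl

/-- the weights -/
structure WtJ (A B D : ℤ[X]) (d z1 : ℕ) (C0 : ℝ) : Prop where
  pg : Pg (ft A B D) d z1
  d1 : 1 ≤ d
  w1 : Wt (h0 (ft A B D)) (2 * d) C0 1 z1
  wj : ∀ j : JJ A B D, Wt (hZ (ZJ A B D) (h0 (ft A B D)) j) (2 * d) C0 (nf (fj A B D j.1)) z1
  sv : ∀ z, z1 ≤ z → ∃ C1 : ℝ, 0 ≤ C1 ∧ ∀ y : ℕ, 3 ≤ y → z < y →
      ∏ p ∈ PS z y, (1 - (rho (ft A B D) p : ℝ) / p) ≤ C1 / (Real.log y) ^ (nf (ft A B D))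

/-- the exponents -/
structure Ex (A B D : ℤ[X]) (r : ℕ) (e : ℝ) : Prop where
  nn : 0 ≤ e
  h0 : ((2 : ℝ) ^ r - 1) * (nf A - ((nf B : ℝ) + nf (A - B)) / 2 ^ r) ≤ e
  h1 : ((2 : ℝ) ^ r - 1) * (nf B - ((nf A : ℝ) + nf (A - B)) / 2 ^ r) ≤ e
  h2 : ((2 : ℝ) ^ r - 1) * (nf (A - B) - ((nf A : ℝ) + nf B) / 2 ^ r) ≤ e

/-- the sum with the weights -/
theorem ma_G {r : ℕ} {e : ℝ} {z1 : ℕ} {C0 : ℝ} (hW : WtJ A B D d z1 C0) (hE : Ex A B D r e)
    (hn : ft A B D ≠ 0) :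
    ∃ z0 : ℕ, ∀ z, z0 ≤ z → z1 ≤ z → ∃ C : ℝ, ∀ y, z < y →
      ∑ s ∈ Tup (JJ A B D) z y, NBS r (cJ A B D) (ZJ A B D) (kJ A B D) s *
        ∏ j, gh (h0 (ft A B D)) (s j) ≤ C * (Real.log y) ^ ((nf (ft A B D) : ℝ) + e) := by
  classical
  obtain ⟨z0, hz0⟩ := at_s (Ir r (cJ A B D)) (w_r (cJ A B D)) (L_r (cJ A B D))
    (fun i => hZ (ZJ A B D) (h0 (ft A B D)) i.1.1) (psi (cJ A B D) (ZJ A B D) (kJ A B D))
    (2 * d) C0 (fun i => nf (fj A B D i.1.1.1)) z1 ((nf (ft A B D) : ℝ) + e)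
    (fun i => hW.wj i.1.1) (fun i p => abs_psi _ _ _ i p) (fun i => by
      unfold w_r wr Pool.Agent.W762.RK2.wc
      split_ifs <;> positivity) (fun i => Ar_orth i.2) (fun U hU => by
      have h1 := comb_m (r := r) (cls := cJ A B D) (M := fun j => (nf (fj A B D j.1) : ℝ))
        (fun j => Nat.cast_nonneg _)
        ((sum_cls A B D 0).trans (nf_cls hn 0)) ((sum_cls A B D 1).trans (nf_cls hn 1))
        ((sum_cls A B D 2).trans (nf_cls hn 2)) hE.nn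
        (by rw [fj0, fj1, fj2]; exact hE.h0) (by rw [fj0, fj1, fj2]; exact hE.h1)
        (by rw [fj0, fj1, fj2]; exact hE.h2) hU
      rw [nf_ft hn]
      exact h1)
  refine ⟨z0, fun z hz hz1 => ?_⟩
  obtain ⟨C, hC⟩ := hz0 z hz
  refine ⟨C, fun y hy => ?_⟩
  rw [exp_s (cJ A B D) (ZJ A B D) (kJ A B D) (h0 (ft A B D)) r z y (fun p hp hzp j θ hθ k => by
    unfold ZJ at hθ
    rw [mem_filter] at hθ
    exact K_nd hW.pg hp (by omega) j.1 hθ.2 k)]
  exact le_trans (le_abs_self _) (hC y hy)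

lemma Pg.mono {f : ℤ[X]} {d z z' : ℕ} (hf : Pg f d z) (h : z ≤ z') : Pg f d z' :=
  ⟨by have := hf.zd; omega, fun p hp h1 => hf.rho p hp (by omega),
    fun p hp h1 => hf.der p hp (by omega)⟩

/-- **the summation** for a function with the local bound -/
theorem sum_RG {r : ℕ} {e : ℝ} {z1 : ℕ} {C0 : ℝ} (hW : WtJ A B D d z1 C0) (hE : Ex A B D r e)
    (hn : ft A B D ≠ 0) {E : ℝ} (hE1 : 1 ≤ E) (R : ℕ → ℝ) (hR0 : ∀ t, 0 ≤ R t)
    {z2 y2 : ℕ} (hR : ∀ z, z2 ≤ z → ∃ A' : ℝ, 0 ≤ A' ∧ ∀ t X y k : ℕ, 1 ≤ t → t ≤ X → y2 ≤ y →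
      y ≤ X → X < (y + 1) ^ k → (ft A B D).eval (t : ℤ) ≠ 0 →
      R t ≤ A' * E ^ k * ((4 : ℝ) ^ r) ^ (t2 z y ((ft A B D).eval (t : ℤ))).primeFactors.card *
        (NL (∏ j, S1 z y (vl A B D t) j)
          (LLc (cJ A B D) (kJ A B D) (S1 z y (vl A B D t)) (ct A B D t)) : ℝ) ^ r) :
    ∃ C : ℝ, ∀ X : ℕ, 1 ≤ X →
      ∑ t ∈ (Icc 1 X).filter (fun t : ℕ => (ft A B D).eval (t : ℤ) ≠ 0), R t ≤
        C * (X * (1 + Real.log X) ^ e) := by
  classical
  obtain ⟨F, hF⟩ : ∃ F, F = ft A B D := ⟨_, rfl⟩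
  obtain ⟨J, hJ⟩ : ∃ J, J = JJ A B D := ⟨_, rfl⟩
  obtain ⟨z0, hz0⟩ := ma_G hW hE hn
  obtain ⟨z, hz⟩ : ∃ z, z = z0 + z1 + z2 + 2 := ⟨_, rfl⟩
  have hz2 : 2 ≤ z := by omega
  have Hz := hW.w1.mono (show z1 ≤ z by omega)
  have hfz : Pg (ft A B D) d z := Pg.mono hW.pg (by omega)
  have hd1 := hW.d1
  have hdr : (1 : ℝ) ≤ d := by exact_mod_cast hd1
  obtain ⟨C', hC'⟩ := hz0 z (by omega) (by omega)
  obtain ⟨C1', hC1', hP'⟩ := hW.sv z (by omega)
  obtain ⟨C, K, y0, hC0, hK1, hcn⟩ := cntq hfz hC1' hP'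
  obtain ⟨A', hA0, hA⟩ := hR z (by omega)
  obtain ⟨Q, hQ⟩ : ∃ Q : ℝ, Q = (4 : ℝ) ^ r * d := ⟨_, rfl⟩
  have hQ0 : 0 ≤ Q := by rw [hQ]; positivity
  have hlogE : 0 ≤ Real.log E := Real.log_nonneg hE1
  have hkn : ∀ p : ℕ, p.Prime → z < p → ∀ j, ∀ θ ∈ ZJ A B D j p, ∀ i, ¬ (p : ℤ) ∣ kJ A B D j θ i := by
    intro p hp hzp j θ hθ k
    unfold ZJ at hθ
    rw [mem_filter] at hθ
    exact K_nd hfz hp hzp j.1 hθ.2 k
  obtain ⟨E', hE'0, hE'⟩ := bracketW Hz hQ0 (JJ A B D) (16 * (Real.log E + 1)) hz2 (by linarith)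
  have hant := antG (J := JJ A B D) (Ω := ℕ) Hz Pool.Agent.W358.RK2.gr
    (f := vl A B D)
    (T := fun X => (Icc 1 X).filter (fun t : ℕ => (ft A B D).eval (t : ℤ) ≠ 0))
    (S := fun X => (X : ℝ)) (G := fun _ s => NBS r (cJ A B D) (ZJ A B D) (kJ A B D) s) (R := R)
    (C := C * A') (D := E) (A1 := E' * |C'|) (Q := Q) (κ := e)
    (K := K) (y0 := y0 + y2) (Me := nf (ft A B D)) hz2 (fun X hX => by exact_mod_cast hX)
    (fun X t ht => gd hfz (mem_filter.1 ht).2)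
    (fun y s => NBS_nonneg r _ _ _ s) hR0 (by positivity)
    hE1 hK1 hQ0 hE.nn (fun y hy => ?_) ?_
  · exact hant
  · have hy3 : 3 ≤ y := by omega
    have hl1 := log3 hy3
    have hδ : 0 ≤ 16 * (Real.log E + 1) / Real.log y := div_nonneg (by linarith) (by linarith)
    have hm := main_ineqW Hz hQ0 (JJ A B D) y (NBS r (cJ A B D) (ZJ A B D) (kJ A B D))
      (16 * (Real.log E + 1) / Real.log y) hδ (NBS_nonneg r _ _ _)
      (fun s e hse => by
        rw [hQ]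
        exact subb_s Pool.Agent.W125.RK2.sub4 Pool.Agent.W342.RK2.xcl r (cJ A B D) (ZJ A B D)
          (kJ A B D) d z y hz2 hd1 hkn (fun p hp hzp j => ZJ_card hfz hp hzp j) s e hse)
    refine hm.trans ?_
    have hn0 : 0 ≤ ∑ s ∈ Tup (JJ A B D) z y, NBS r (cJ A B D) (ZJ A B D) (kJ A B D) s *
        ∏ j, gh (h0 (ft A B D)) (s j) := by
      refine sum_nonneg fun s hs => mul_nonneg (NBS_nonneg r _ _ _ s) (prod_nonneg fun j _ => ?_)
      exact gh_nn Hz hs j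
    have h1 : ∑ s ∈ Tup (JJ A B D) z y, NBS r (cJ A B D) (ZJ A B D) (kJ A B D) s *
        ∏ j, gh (h0 (ft A B D)) (s j) ≤
        |C'| * ((1 + Real.log y) ^ e * (Real.log y) ^ (nf (ft A B D))) := by
      refine (hC' y hy).trans ?_
      rw [Real.rpow_add (by linarith), Real.rpow_natCast]
      have h2 : (Real.log y) ^ e ≤ (1 + Real.log y) ^ e :=
        Real.rpow_le_rpow (by linarith) (by linarith) hE.nn
      have h3 : 0 ≤ (Real.log y) ^ (nf (ft A B D)) := by positivity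
      have h4 : 0 ≤ (Real.log y) ^ e := Real.rpow_nonneg (by linarith) _
      calc C' * ((Real.log y) ^ (nf (ft A B D)) * (Real.log y) ^ e)
          ≤ |C'| * ((Real.log y) ^ (nf (ft A B D)) * (Real.log y) ^ e) :=
            mul_le_mul_of_nonneg_right (le_abs_self _) (mul_nonneg h3 h4)
        _ ≤ |C'| * ((1 + Real.log y) ^ e * (Real.log y) ^ (nf (ft A B D))) := by
            apply mul_le_mul_of_nonneg_left _ (abs_nonneg _)
            rw [mul_comm]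
            exact mul_le_mul_of_nonneg_right h2 h3
    calc _ ≤ E' * ∑ s ∈ Tup (JJ A B D) z y, NBS r (cJ A B D) (ZJ A B D) (kJ A B D) s *
          ∏ j, gh (h0 (ft A B D)) (s j) := mul_le_mul_of_nonneg_right (hE' y hy) hn0
      _ ≤ E' * (|C'| * ((1 + Real.log y) ^ e * (Real.log y) ^ (nf (ft A B D)))) :=
          mul_le_mul_of_nonneg_left h1 hE'0
      _ = _ := by ring
  intro X y Y k hy0 hzy hyK hk s hs v hv u hu h8 T' hT' hT2
  have hyX : y ≤ X := le_trans (Nat.le_self_pow (by omega) y) hyK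
  have hX1 : 1 ≤ X := by omega
  obtain ⟨s', hs'd⟩ : ∃ s', s' = ∏ j, s j := ⟨_, rfl⟩
  obtain ⟨v', hv'd⟩ : ∃ v', v' = ∏ j, v j := ⟨_, rfl⟩
  obtain ⟨u', hu'd⟩ : ∃ u', u' = ∏ j, u j := ⟨_, rfl⟩
  have hs' : s' ∈ (PP z y).divisors := by rw [hs'd]; exact prod_dv hs
  have hv' : v' ∈ (PP z y).divisors := by rw [hv'd]; exact prod_dv hv
  have hu' : u' ∈ (PP y Y).divisors := by rw [hu'd]; exact prod_dv hu
  have h8' : (s' * v' * u') ^ 8 ≤ X := by
    rw [hs'd, hv'd, hu'd, ← prod_mul_distrib, ← prod_mul_distrib]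
    exact h8
  have hPs : Ps s = s'.primeFactors := by rw [hs'd]; rfl
  obtain ⟨g, hg⟩ : ∃ g : (∀ p ∈ Ps s, Bool × ℕ) → ℝ,
    g = fun c => (NL (∏ j, s j) (LLc (cJ A B D) (kJ A B D) s (xt (Ps s) c)) : ℝ) ^ r := ⟨_, rfl⟩
  have hg0 : ∀ c, 0 ≤ g c := fun c => by rw [hg]; exact pow_nonneg (Nat.cast_nonneg _) _
  obtain ⟨cc, hcc⟩ : ∃ cc : ℕ → (∀ p ∈ Ps s, Bool × ℕ), cc = fun t p _ => ct A B D t p := ⟨_, rfl⟩
  have hgd : ∀ t ∈ T', (ft A B D).eval (t : ℤ) ≠ 0 ∧ t ∈ Icc 1 X ∧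
      t1 z y ((ft A B D).eval (t : ℤ)) = s' ∧ t2 z y ((ft A B D).eval (t : ℤ)) = v' ∧
      (u' : ℤ) ∣ (ft A B D).eval (t : ℤ) := by
    intro t ht
    have ht' := mem_filter.1 (hT' ht)
    obtain ⟨hts, htv, htu⟩ := hT2 t ht
    refine ⟨ht'.2, ht'.1, ?_, ?_, ?_⟩
    · rw [← prod_S1 hfz ht'.2, hts, hs'd]
    · rw [← prod_S2 hfz ht'.2, htv, hv'd]
    · rw [hu'd, Nat.cast_prod]
      refine Finset.prod_dvd_of_coprime ?_ fun j _ => ?_
      · intro i _ j _ hij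
        exact Nat.isCoprime_iff_coprime.2 (Tup_cop hu i j hij)
      · refine (htu j).trans ?_
        rw [ft_eval A B D j.1]
        exact Dvd.intro _ rfl
  have hsj : ∀ t ∈ T', ∀ (p : ℕ) (j : JJ A B D), p.Prime → p ∣ s j →
      (p : ℤ) ∣ (fj A B D j.1).eval (t : ℤ) := by
    intro t ht p j hp hpj
    have h1 := (hT2 t ht).1
    rw [← h1] at hpj
    unfold S1 at hpj
    obtain ⟨q, hq, hpq⟩ := (hp.prime.dvd_finsetProd_iff _).1 hpj
    rw [mem_filter] at hq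
    rw [(Nat.prime_dvd_prime_iff_eq hp (mem_PS.1 hq.1).2).1 hpq]
    exact hq.2.1
  have hxt : ∀ t, ∀ p ∈ Ps s, xt (Ps s) (cc t) p = ct A B D t p := by
    intro t p hp
    unfold xt
    rw [dif_pos hp, hcc]
  have h1 : ∀ t ∈ T', R t ≤ A' * E ^ k * ((4 : ℝ) ^ r) ^ v'.primeFactors.card * g (cc t) := by
    intro t ht
    obtain ⟨h0t, htI, ht1, ht2, _⟩ := hgd t ht
    rw [mem_Icc] at htI
    have h2 := hA t X y k htI.1 htI.2 (by omega) hyX hk h0t
    rw [ht2, (hT2 t ht).1] at h2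
    refine h2.trans (le_of_eq ?_)
    rw [hg]
    simp only
    congr 3
    apply Pool.Agent.W125.RK2.NL_congr
    intro p hp
    funext v w h g
    unfold LLc
    rw [hxt t p hp]
  have hmaps : ∀ t ∈ T', cc t ∈ (Ps s).pi (Cf (ZJ A B D) s) := by
    intro t ht
    rw [mem_pi]
    intro p hp
    have hpp := Nat.prime_of_mem_primeFactors hp
    obtain ⟨j, _, hj⟩ := (hpp.prime.dvd_finsetProd_iff _).1 (Nat.dvd_of_mem_primeFactors hp)
    rw [hcc]
    unfold Cf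
    rw [mem_product, Zs_eq (Tup_cop hs) _ hpp hj]
    refine ⟨mem_univ _, ?_⟩
    unfold ZJ ct
    rw [mem_filter, mem_range]
    refine ⟨Nat.mod_lt _ hpp.pos, ?_⟩
    exact (dvd_iff_dvd_of_dvd_sub (eval_cong (fj A B D j.1) p t)).2 (hsj t ht p j hpp hj)
  have h2 : ∑ t ∈ T', g (cc t) = ∑ c ∈ (Ps s).pi (Cf (ZJ A B D) s),
        ((T'.filter (fun t : ℕ => cc t = c)).card : ℝ) * g c := by
    rw [← sum_fiberwise_of_maps_to hmaps]
    refine sum_congr rfl fun c _ => ?_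
    rw [← nsmul_eq_mul, ← sum_const]
    refine sum_congr rfl fun t ht => ?_
    rw [(mem_filter.1 ht).2]
  obtain ⟨W, hW'⟩ : ∃ W : ℝ, W = C * X * (1 / 2) ^ s'.primeFactors.card * gh (h0 (ft A B D)) s' *
        ((d : ℝ) ^ v'.primeFactors.card * (gh (h0 (ft A B D)) v' / v')) *
          ((d : ℝ) ^ u'.primeFactors.card / u') / (Real.log y) ^ (nf (ft A B D)) := ⟨_, rfl⟩
  have h3 : ∀ c ∈ (Ps s).pi (Cf (ZJ A B D) s),
      ((T'.filter (fun t : ℕ => cc t = c)).card : ℝ) * g c ≤ W * g c := by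
    intro c _
    refine mul_le_mul_of_nonneg_right ?_ (hg0 c)
    rw [hW']
    refine le_trans ?_ (hcn X y Y (by omega) hzy hyK s' hs' v' hv' u' hu' h8'
      (s'.primeFactors.filter (fun p => (xt (Ps s) c p).1 = true)) (fun p => (xt (Ps s) c p).2))
    have h4 : T'.filter (fun t : ℕ => cc t = c) ⊆
        (Icc 1 X).filter (fun t : ℕ => t1 z y ((ft A B D).eval (t : ℤ)) = s' ∧
          t2 z y ((ft A B D).eval (t : ℤ)) = v' ∧ (u' : ℤ) ∣ (ft A B D).eval (t : ℤ) ∧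
          ngs ((ft A B D).eval (t : ℤ)) s' =
            s'.primeFactors.filter (fun p => (xt (Ps s) c p).1 = true) ∧
          ∀ p ∈ s'.primeFactors, t % p = (xt (Ps s) c p).2) := by
      intro t ht
      rw [mem_filter] at ht
      obtain ⟨h0t, htI, ht1, ht2, htu⟩ := hgd t ht.1
      rw [mem_filter]
      refine ⟨htI, ht1, ht2, htu, ?_, ?_⟩
      · unfold ngs
        refine filter_congr fun p hp => ?_
        rw [← hPs] at hp
        rw [← ht.2, hxt t p hp]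
        unfold ct
        simp only [decide_eq_true_eq]
      · intro p hp
        rw [← hPs] at hp
        rw [← ht.2, hxt t p hp]
        rfl
    exact_mod_cast card_le_card h4
  have hNB : NBS r (cJ A B D) (ZJ A B D) (kJ A B D) s = (1 / 2) ^ s'.primeFactors.card *
      ∑ c ∈ (Ps s).pi (Cf (ZJ A B D) s), g c := by
    unfold NBS
    rw [hg, hPs]
  have hd2 : (d : ℝ) ^ u'.primeFactors.card / u' ≤ (2 * (d : ℝ)) ^ u'.primeFactors.card / u' := by
    apply div_le_div_of_nonneg_right _ (Nat.cast_nonneg _)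
    apply pow_le_pow_left₀ (Nat.cast_nonneg _)
    linarith
  have hgs0 : 0 ≤ gh (h0 (ft A B D)) s' := ghn Hz (Nat.dvd_of_mem_divisors hs')
  have hgv0 : 0 ≤ gh (h0 (ft A B D)) v' := ghn Hz (Nat.dvd_of_mem_divisors hv')
  have hNB0 := NBS_nonneg r (cJ A B D) (ZJ A B D) (kJ A B D) s
  have hly : 0 ≤ Real.log y := Real.log_natCast_nonneg y
  have eS : gh (h0 (ft A B D)) s' = ∏ j, gh (h0 (ft A B D)) (s j) := by
    rw [hs'd]; exact gh_T hs _
  have eV : Q ^ v'.primeFactors.card * (gh (h0 (ft A B D)) v' / v') =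
      ∏ j, Q ^ (v j).primeFactors.card * (gh (h0 (ft A B D)) (v j) / v j) := by
    rw [hv'd, gh_T hv, pow_T hv, Nat.cast_prod, ← prod_div_distrib, ← prod_mul_distrib]
  have eU : (2 * (d : ℝ)) ^ u'.primeFactors.card / u' =
      ∏ j, (2 * (d : ℝ)) ^ (u j).primeFactors.card / (u j : ℝ) := by
    rw [hu'd, pow_T hu, Nat.cast_prod, ← prod_div_distrib]
  calc ∑ t ∈ T', R t ≤ ∑ t ∈ T', A' * E ^ k * ((4 : ℝ) ^ r) ^ v'.primeFactors.card *
          g (cc t) := sum_le_sum h1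
    _ = A' * E ^ k * ((4 : ℝ) ^ r) ^ v'.primeFactors.card *
        ∑ c ∈ (Ps s).pi (Cf (ZJ A B D) s),
        ((T'.filter (fun t : ℕ => cc t = c)).card : ℝ) * g c := by
        rw [← mul_sum, h2]
    _ ≤ A' * E ^ k * ((4 : ℝ) ^ r) ^ v'.primeFactors.card *
        ∑ c ∈ (Ps s).pi (Cf (ZJ A B D) s), W * g c :=
        mul_le_mul_of_nonneg_left (sum_le_sum h3) (by positivity)
    _ = C * A' * E ^ k * X * (NBS r (cJ A B D) (ZJ A B D) (kJ A B D) s *
          gh (h0 (ft A B D)) s') *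
          ((((4 : ℝ) ^ r) ^ v'.primeFactors.card * (d : ℝ) ^ v'.primeFactors.card) *
            (gh (h0 (ft A B D)) v' / v')) *
          ((d : ℝ) ^ u'.primeFactors.card / u') / (Real.log y) ^ (nf (ft A B D)) := by
        rw [← mul_sum, hNB, hW']
        ring
    _ ≤ C * A' * E ^ k * X * (NBS r (cJ A B D) (ZJ A B D) (kJ A B D) s *
          gh (h0 (ft A B D)) s') *
          ((((4 : ℝ) ^ r) ^ v'.primeFactors.card * (d : ℝ) ^ v'.primeFactors.card) *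
            (gh (h0 (ft A B D)) v' / v')) *
          ((2 * (d : ℝ)) ^ u'.primeFactors.card / u') / (Real.log y) ^ (nf (ft A B D)) := by
        apply div_le_div_of_nonneg_right _ (by positivity)
        apply mul_le_mul_of_nonneg_left hd2 (by positivity)
    _ = _ := by
        rw [← mul_pow, ← hQ, eV, eU, eS]

end Pool.Agent.U214.GT
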