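import Mathlib
import Pool.Agent.U214.PT.Asm
import Pool.Agent.U214.PT.AsmQ
import Pool.Agent.U214.GT.Mert
import Pool.Agent.U214.GT.Main

/-!
# The moments in the one-parameter families: assembly
-/

set_option autoImplicit false

namespace Pool.Agent.U214.GT

open Finset Polynomial Pool.Agent.W262.RK Pool.Agent.U214.PT UniqueFactorizationMonoid

lemma sep_left {g h : ℤ[X]} (hs : Sep (g * h)) : Sep g := by
  obtain ⟨N, hN, A, B, e⟩ := hs
  rw [derivative_mul] at e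
  exact ⟨N, hN, A * h + B * derivative h, B * h, by rw [← e]; ring⟩

lemma sep_of_sqf {f : ℤ[X]} (hsq : Squarefree (f.map (Int.castRingHom ℚ))) : Sep f := by
  have hinj : Function.Injective (Polynomial.map (Int.castRingHom ℚ)) :=
    map_injective _ Int.cast_injective
  obtain ⟨u, v, huv⟩ := PerfectField.separable_iff_squarefree.2 hsq
  obtain ⟨m, u0, hm, hu0⟩ := clear u
  obtain ⟨n', v0, hn', hv0⟩ := clear v
  refine ⟨m * n', mul_ne_zero hm hn', C n' * u0, C m * v0, hinj ?_⟩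
  simp only [Polynomial.map_add, Polynomial.map_mul, Polynomial.map_C, hu0, hv0,
    ← Polynomial.derivative_map, Int.coe_castRingHom, Int.cast_mul, C_mul]
  linear_combination (C (m : ℚ) * C (n' : ℚ)) * huv

lemma sqf_of_sep {f : ℤ[X]} (hs : Sep f) : Squarefree (f.map (Int.castRingHom ℚ)) := by
  obtain ⟨N, hN, A, B, e⟩ := hs
  apply Polynomial.Separable.squarefree
  have hN' : (N : ℚ) ≠ 0 := by exact_mod_cast hN
  refine ⟨C (N : ℚ)⁻¹ * A.map (Int.castRingHom ℚ), C (N : ℚ)⁻¹ * B.map (Int.castRingHom ℚ), ?_⟩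
  have h1 := congrArg (Polynomial.map (Int.castRingHom ℚ)) e
  simp only [Polynomial.map_add, Polynomial.map_mul, Polynomial.map_C, Int.coe_castRingHom,
    ← Polynomial.derivative_map] at h1
  have h2 : C (N : ℚ)⁻¹ * C (N : ℚ) = 1 := by rw [← C_mul, inv_mul_cancel₀ hN', C_1]
  linear_combination C (N : ℚ)⁻¹ * h1 + h2

/-- the weights of the family -/
theorem wtJ_of {A B D : ℤ[X]} (hs : Sep (ft A B D)) (hd : 0 < (ft A B D).natDegree) :
    ∃ (z1 : ℕ) (C0 : ℝ), WtJ A B D (ft A B D).natDegree z1 C0 := by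
  classical
  obtain ⟨c, hc, hMc⟩ := mert_nf _ hs
  obtain ⟨c1, hc1, hM1⟩ := mert_one
  obtain ⟨N, hN, A', B', hAB⟩ := id hs
  obtain ⟨B0, hB0⟩ := Pool.Agent.H474R2.PG.rho_le (ft A B D) (fun h => by
    rw [h, natDegree_zero] at hd; exact absurd hd (lt_irrefl 0))
  obtain ⟨d, hdd⟩ : ∃ d, d = (ft A B D).natDegree := ⟨_, rfl⟩
  rw [← hdd] at hB0 hd ⊢
  obtain ⟨z1, hz1⟩ : ∃ z1, z1 = 2 * d + 3 + N.natAbs + B0 := ⟨_, rfl⟩
  have hPg : Pg (ft A B D) d z1 := by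
    refine ⟨by omega, fun p hp h => hB0 p hp (by omega), fun p hp hz t h1 h2 => ?_⟩
    have h3 := dvd_of_sep hAB h1 h2
    have := Nat.le_of_dvd (Int.natAbs_pos.2 hN) (Int.natCast_dvd.1 h3)
    omega
  obtain ⟨C1, hC1, hW1⟩ := wt_gen (a := fun _ => 1) (M := 1) one_pos hc1 hM1 hPg hd
    (fun p _ _ => hd)
  have hj : ∀ j : JJ A B D, ∃ C : ℝ, 0 ≤ C ∧ ∀ C', C ≤ C' →
      Wt (hZ (ZJ A B D) (h0 (ft A B D)) j) (2 * d) C' (nf (fj A B D j.1)) z1 := by
    intro j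
    have hsj : Sep (fj A B D j.1) := by
      rw [← fj_mul A B D j.1] at hs
      exact sep_left hs
    obtain ⟨cj, hcj, hMj⟩ := mert_nf _ hsj
    exact wt_gen (nf_pos j.2) hcj hMj hPg hd (fun p hp h => ZJ_card hPg hp h j)
  choose Cj hCj hWj using hj
  obtain ⟨C0, hC0⟩ : ∃ C0 : ℝ, C0 = C1 + ∑ j, Cj j := ⟨_, rfl⟩
  have hsum : 0 ≤ ∑ j, Cj j := sum_nonneg fun j _ => hCj j
  refine ⟨z1, C0, hPg, hd, ?_, fun j => ?_, prod_gen hMc hPg (by omega)⟩
  · have := hW1 C0 (by rw [hC0]; linarith)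
    simpa using this
  · refine hWj j C0 ?_
    have := single_le_sum (fun j _ => hCj j) (mem_univ j)
    rw [hC0]
    linarith

variable {Q : ℤ → ℤ → ℝ}

/-- the family away from the zeros -/
theorem half_sepG (hQ : QL Q) {A B D : ℤ[X]} (hs : Sep (ft A B D))
    (hd : 0 < (ft A B D).natDegree) {r : ℕ} {e : ℝ} (hE : Ex A B D r e) :
    ∃ C : ℝ, ∀ X : ℕ, 1 ≤ X →
      ∑ t ∈ (Icc 1 X).filter (fun t : ℕ => (ft A B D).eval (t : ℤ) ≠ 0),
        Q (A.eval (t : ℤ) * D.eval (t : ℤ)) (B.eval (t : ℤ) * D.eval (t : ℤ)) ^ r ≤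
        C * (X * (1 + Real.log X) ^ e) := by
  classical
  obtain ⟨z1, C0, hW⟩ := wtJ_of hs hd
  obtain ⟨K, hK1, hK⟩ := Pool.Agent.H474R2.GE.eval_bound (ft A B D)
  have hn : ft A B D ≠ 0 := fun h => by
    rw [h, natDegree_zero] at hd
    exact absurd hd (lt_irrefl 0)
  obtain ⟨d, hdd⟩ : ∃ d, d = (ft A B D).natDegree := ⟨_, rfl⟩
  rw [← hdd] at hW hK hd
  obtain ⟨y2, hy2⟩ := exists_nat_ge K
  refine sum_RG (E := ((4 : ℝ) ^ (d + 1)) ^ r) hW hE hn (one_le_pow₀ (one_le_pow₀ (by norm_num)))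
    (fun t : ℕ => Q (A.eval (t : ℤ) * D.eval (t : ℤ)) (B.eval (t : ℤ) * D.eval (t : ℤ)) ^ r)
    (fun t => pow_nonneg (hQ.nn _ _) _) (z2 := z1) (y2 := max 1 y2) (fun z hz => ?_)
  refine ⟨((4 : ℝ) ^ (z + 2)) ^ r, by positivity, fun t X y k ht htX hy2y hyX hk h0 => ?_⟩
  have hF : ((ft A B D).eval (t : ℤ)).natAbs ≤ X ^ (d + 1) := by
    have hXr : (1 : ℝ) ≤ X := by exact_mod_cast (by omega : 1 ≤ X)
    have h1 := hK (t : ℤ) X hXr (by
      rw [Int.cast_natCast, abs_of_nonneg (Nat.cast_nonneg t)]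
      exact_mod_cast htX)
    have h2 : K ≤ X := hy2.trans (by exact_mod_cast (le_trans (le_max_right 1 y2) (hy2y.trans hyX)))
    have h3 : ((((ft A B D).eval (t : ℤ)).natAbs : ℕ) : ℝ) ≤ (X : ℝ) ^ (d + 1) := by
      rw [Nat.cast_natAbs, Int.cast_abs]
      refine h1.trans ?_
      rw [pow_succ, mul_comm ((X : ℝ) ^ d)]
      exact mul_le_mul_of_nonneg_right h2 (by positivity)
    exact_mod_cast h3
  have h6 := rankG hQ (Pg.mono hW.pg hz) h0 hF (by omega) (le_trans (le_max_left 1 y2) hy2y) hk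
  refine (pow_le_pow_left₀ (hQ.nn _ _) h6 r).trans (le_of_eq ?_)
  rw [mul_pow, mul_pow, mul_pow, pow_right_comm _ k r,
    pow_right_comm _ (t2 z y ((ft A B D).eval (t : ℤ))).primeFactors.card r]

/-- the bound dominates a linear one -/
lemma le_XL {C e : ℝ} (hC : 0 ≤ C) (he : 0 ≤ e) {X : ℕ} (hX : 1 ≤ X) :
    C * X ≤ C * (X * (1 + Real.log X) ^ e) := by
  have hXr : (1 : ℝ) ≤ X := by exact_mod_cast hX
  have h1 : (1 : ℝ) ≤ (1 + Real.log X) ^ e :=
    Real.one_le_rpow (by have := Real.log_nonneg hXr; linarith) he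
  exact mul_le_mul_of_nonneg_left (le_mul_of_one_le_right (by linarith) h1) hC

/-- the family away from the zeros, in general -/
theorem half_sepG' (hQ : QL Q) {A B D : ℤ[X]} (hs : Sep (ft A B D)) {r : ℕ} {e : ℝ}
    (hE : Ex A B D r e) :
    ∃ C : ℝ, ∀ X : ℕ, 1 ≤ X →
      ∑ t ∈ (Icc 1 X).filter (fun t : ℕ => (ft A B D).eval (t : ℤ) ≠ 0),
        Q (A.eval (t : ℤ) * D.eval (t : ℤ)) (B.eval (t : ℤ) * D.eval (t : ℤ)) ^ r ≤
        C * (X * (1 + Real.log X) ^ e) := by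
  rcases Nat.eq_zero_or_pos (ft A B D).natDegree with h | h
  swap
  · exact half_sepG hQ hs h hE
  by_cases h0 : ft A B D = 0
  · refine ⟨0, fun X hX => ?_⟩
    rw [filter_false_of_mem, sum_empty]
    · simp
    · intro t _ ht
      apply ht
      rw [h0, eval_zero]
  have h1 : ∀ j, ∀ t : ℤ, (fj A B D j).eval t = (fj A B D j).coeff 0 := by
    intro j t
    have h2 : (fj A B D j).natDegree = 0 := by
      rw [← fj_mul A B D j] at h h0
      rw [natDegree_mul (left_ne_zero_of_mul h0) (right_ne_zero_of_mul h0)] at h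
      omega
    conv_lhs => rw [eq_C_of_natDegree_eq_zero h2]
    rw [eval_C]
  have hA := h1 0
  have hB := h1 1
  have hD := h1 3
  rw [fj0] at hA
  rw [fj1] at hB
  rw [fj3] at hD
  refine ⟨Q (A.coeff 0 * D.coeff 0) (B.coeff 0 * D.coeff 0) ^ r, fun X hX => ?_⟩
  simp only [hA, hB, hD]
  refine le_trans ?_ (le_XL (pow_nonneg (hQ.nn _ _) _) hE.nn hX)
  rw [sum_const, nsmul_eq_mul, mul_comm]
  refine mul_le_mul_of_nonneg_left ?_ (pow_nonneg (hQ.nn _ _) _)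
  have := card_filter_le (Icc 1 X) (fun t : ℕ => (ft A B D).eval (t : ℤ) ≠ 0)
  rw [Nat.card_Icc] at this
  exact_mod_cast this

/-- the twist by a polynomial which is `D` up to squares -/
theorem half_DG (hQ : QL Q) {A B D D' G : ℤ[X]} {c : ℤ} (hc : c ≠ 0) (hG : G ≠ 0)
    (hD : C (c ^ 2) * D' = G ^ 2 * D) (hs : Sep (ft A B D)) {r : ℕ} {e : ℝ}
    (hE : Ex A B D r e) :
    ∃ C : ℝ, ∀ X : ℕ, 1 ≤ X → ∑ t ∈ Icc 1 X,
        Q (A.eval (t : ℤ) * D'.eval (t : ℤ)) (B.eval (t : ℤ) * D'.eval (t : ℤ)) ^ r ≤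
        C * (X * (1 + Real.log X) ^ e) := by
  classical
  obtain ⟨C1, hC1⟩ := half_sepG' hQ hs hE
  have hft : ft A B D ≠ 0 := by
    intro h
    obtain ⟨N, hN, A', B', hAB⟩ := hs
    rw [h, derivative_zero, mul_zero, mul_zero, add_zero] at hAB
    exact hN (C_eq_zero.1 hAB.symm)
  obtain ⟨P, hP⟩ : ∃ P, P = ft A B D * G := ⟨_, rfl⟩
  have hP0 : P ≠ 0 := by rw [hP]; exact mul_ne_zero hft hG
  obtain ⟨Z, hZ⟩ : ∃ Z : Finset ℕ, ∀ t : ℕ, P.eval (t : ℤ) = 0 → t ∈ Z := by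
    refine ⟨P.roots.toFinset.image Int.natAbs, fun t ht => ?_⟩
    rw [mem_image]
    refine ⟨(t : ℤ), ?_, Int.natAbs_natCast t⟩
    rw [Multiset.mem_toFinset, mem_roots hP0]
    exact ht
  obtain ⟨R, hR⟩ : ∃ R : ℕ → ℝ, R = fun t : ℕ =>
      Q (A.eval (t : ℤ) * D'.eval (t : ℤ)) (B.eval (t : ℤ) * D'.eval (t : ℤ)) ^ r := ⟨_, rfl⟩
  have hR0 : ∀ t, 0 ≤ R t := fun t => by
    rw [hR]
    exact pow_nonneg (hQ.nn _ _) _
  have heq : ∀ t : ℕ, P.eval (t : ℤ) ≠ 0 → R t =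
      Q (A.eval (t : ℤ) * D.eval (t : ℤ)) (B.eval (t : ℤ) * D.eval (t : ℤ)) ^ r := by
    intro t ht
    rw [hP, eval_mul] at ht
    have ht1 := left_ne_zero_of_mul ht
    have hg := right_ne_zero_of_mul ht
    have ha := fj_ne ht1 0
    have hb := fj_ne ht1 1
    have hab := fj_ne ht1 2
    have hd := fj_ne ht1 3
    rw [fj0] at ha
    rw [fj1] at hb
    rw [fj2, eval_sub] at hab
    rw [fj3] at hd
    have hev : c ^ 2 * D'.eval (t : ℤ) = (G.eval (t : ℤ)) ^ 2 * D.eval (t : ℤ) := by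
      have := congrArg (eval (t : ℤ)) hD
      simpa only [eval_mul, eval_C, eval_pow] using this
    have hd' : D'.eval (t : ℤ) ≠ 0 := by
      intro h
      rw [h, mul_zero] at hev
      exact mul_ne_zero (pow_ne_zero 2 hg) hd hev.symm
    have hne : ∀ x : ℤ, x ≠ 0 → A.eval (t : ℤ) * x ≠ B.eval (t : ℤ) * x := fun x hx h =>
      hab (by rw [mul_right_cancel₀ hx h, sub_self])
    rw [hR]
    show Q (A.eval (t : ℤ) * D'.eval (t : ℤ)) (B.eval (t : ℤ) * D'.eval (t : ℤ)) ^ r = _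
    rw [← hQ.sq (mul_ne_zero ha hd') (mul_ne_zero hb hd') (hne _ hd') hc,
      ← hQ.sq (mul_ne_zero ha hd) (mul_ne_zero hb hd) (hne _ hd) hg,
      show c ^ 2 * (A.eval (t : ℤ) * D'.eval (t : ℤ)) =
        (G.eval (t : ℤ)) ^ 2 * (A.eval (t : ℤ) * D.eval (t : ℤ)) by
          linear_combination A.eval (t : ℤ) * hev,
      show c ^ 2 * (B.eval (t : ℤ) * D'.eval (t : ℤ)) =
        (G.eval (t : ℤ)) ^ 2 * (B.eval (t : ℤ) * D.eval (t : ℤ)) by
          linear_combination B.eval (t : ℤ) * hev]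
  refine ⟨C1 + ∑ t ∈ Z, R t, fun X hX => ?_⟩
  have h1 := hC1 X hX
  have h2 : ∑ t ∈ (Icc 1 X).filter (fun t : ℕ => ¬ P.eval (t : ℤ) ≠ 0), R t ≤ ∑ t ∈ Z, R t := by
    refine sum_le_sum_of_subset_of_nonneg ?_ (fun t _ _ => hR0 t)
    intro t ht
    rw [mem_filter] at ht
    exact hZ t (not_not.1 ht.2)
  have hXr : (1 : ℝ) ≤ X := by exact_mod_cast hX
  have hZ0 : 0 ≤ ∑ t ∈ Z, R t := sum_nonneg fun t _ => hR0 t
  have h3 : ∑ t ∈ Z, R t ≤ (∑ t ∈ Z, R t) * (X * (1 + Real.log X) ^ e) :=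
    (le_mul_of_one_le_right hZ0 hXr).trans (le_XL hZ0 hE.nn hX)
  have h6 : ∑ t ∈ (Icc 1 X).filter (fun t : ℕ => P.eval (t : ℤ) ≠ 0), R t ≤
      C1 * (X * (1 + Real.log X) ^ e) := by
    refine le_trans ?_ h1
    rw [sum_congr rfl (fun t ht => heq t (mem_filter.1 ht).2)]
    refine sum_le_sum_of_subset_of_nonneg ?_ (fun t _ _ => pow_nonneg (hQ.nn _ _) _)
    intro t ht
    rw [mem_filter] at ht ⊢
    refine ⟨ht.1, ?_⟩
    have := ht.2
    rw [hP, eval_mul] at this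
    exact left_ne_zero_of_mul this
  have h4 := sum_filter_add_sum_filter_not (Icc 1 X) (fun t : ℕ => P.eval (t : ℤ) ≠ 0) R
  have h5 : ∑ t ∈ Icc 1 X, R t ≤ (C1 + ∑ t ∈ Z, R t) * (X * (1 + Real.log X) ^ e) := by
    rw [← h4, add_mul]
    exact add_le_add h6 (h2.trans h3)
  calc _ = ∑ t ∈ Icc 1 X, R t := by rw [hR]
    _ ≤ _ := h5

/-- the number of the factors does not change under `X ↦ -X` -/
lemma nf_comp (f : ℤ[X]) (hf : f ≠ 0) : nf (f.comp (-X)) = nf f := by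
  classical
  unfold nf
  obtain ⟨P, hP⟩ : ∃ P, P = f.map (Int.castRingHom ℚ) := ⟨_, rfl⟩
  have hP0 : P ≠ 0 := by rw [hP]; exact map_ne hf
  have e1 : (f.comp (-X)).map (Int.castRingHom ℚ) = (algEquivAevalNegX : ℚ[X] ≃ₐ[ℚ] ℚ[X]) P := by
    rw [hP, Polynomial.map_comp, Polynomial.map_neg, Polynomial.map_X]
    simp [algEquivAevalNegX, comp, aeval_def]
  rw [e1, ← hP]
  obtain ⟨E, hE⟩ : ∃ E : ℚ[X] ≃ₐ[ℚ] ℚ[X], E = algEquivAevalNegX := ⟨_, rfl⟩
  rw [← hE]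
  have hEP : E P ≠ 0 := by
    intro h
    exact hP0 (E.map_eq_zero_iff.1 h)
  have h1 : Associated ((normalizedFactors P).map E).prod (normalizedFactors (E P)).prod := by
    rw [Multiset.prod_hom]
    refine Associated.trans ?_ (prod_normalizedFactors hEP).symm
    exact (prod_normalizedFactors hP0).map (E : ℚ[X] →* ℚ[X])
  have h2 := factors_unique (f := (normalizedFactors P).map E) (g := normalizedFactors (E P))
    (fun x hx => by
      obtain ⟨y, hy, rfl⟩ := Multiset.mem_map.1 hx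
      exact (MulEquiv.irreducible_iff E).2 (irreducible_of_normalized_factor y hy))
    (fun x hx => irreducible_of_normalized_factor x hx) h1
  have h3 := Multiset.card_eq_card_of_rel h2
  rw [Multiset.card_map] at h3
  exact h3.symm

lemma comp_ne {f : ℤ[X]} (hf : f ≠ 0) : f.comp (-X) ≠ 0 := by
  intro h
  apply hf
  have h1 := congrArg (fun g : ℤ[X] => g.comp (-X)) h
  simp only [zero_comp] at h1
  rw [comp_assoc, neg_comp, X_comp, neg_neg, comp_X] at h1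
  exact h1

lemma ft_comp (A B D : ℤ[X]) : ft (A.comp (-X)) (B.comp (-X)) (D.comp (-X)) =
    (ft A B D).comp (-X) := by
  unfold ft
  rw [mul_comp, mul_comp, mul_comp, sub_comp]

/-- **the moments in the one-parameter family** -/
theorem all_DG (hQ : QL Q) {A B D D' G : ℤ[X]} {c : ℤ} (hc : c ≠ 0) (hG : G ≠ 0)
    (hD : C (c ^ 2) * D' = G ^ 2 * D) (hs : Sep (ft A B D)) {r : ℕ} {e : ℝ}
    (hE : Ex A B D r e) :
    ∃ C : ℝ, ∀ X : ℕ, 1 ≤ X → ∑ t ∈ Icc (-(X : ℤ)) X,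
        Q (A.eval t * D'.eval t) (B.eval t * D'.eval t) ^ r ≤
        C * (X * (1 + Real.log X) ^ e) := by
  classical
  obtain ⟨C1, hC1⟩ := half_DG hQ hc hG hD hs hE
  have hft : ft A B D ≠ 0 := by
    intro h
    obtain ⟨N, hN, A', B', hAB⟩ := hs
    rw [h, derivative_zero, mul_zero, mul_zero, add_zero] at hAB
    exact hN (C_eq_zero.1 hAB.symm)
  have hD2 : C (c ^ 2) * D'.comp (-X) = (G.comp (-X)) ^ 2 * D.comp (-X) := by
    have := congrArg (fun g : ℤ[X] => g.comp (-X)) hD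
    simpa only [mul_comp, C_comp, pow_comp] using this
  have hs2 : Sep (ft (A.comp (-X)) (B.comp (-X)) (D.comp (-X))) := by
    rw [ft_comp]
    exact hs.neg
  have hA0 : A ≠ 0 := by
    rw [← fj_mul A B D 0, fj0] at hft
    exact left_ne_zero_of_mul hft
  have hB0 : B ≠ 0 := by
    rw [← fj_mul A B D 1, fj1] at hft
    exact left_ne_zero_of_mul hft
  have hAB0 : A - B ≠ 0 := by
    rw [← fj_mul A B D 2, fj2] at hft
    exact left_ne_zero_of_mul hft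
  have hE2 : Ex (A.comp (-X)) (B.comp (-X)) (D.comp (-X)) r e := by
    obtain ⟨h1, h2, h3, h4⟩ := hE
    have e1 := nf_comp A hA0
    have e2 := nf_comp B hB0
    have e3 := nf_comp (A - B) hAB0
    rw [sub_comp] at e3
    rw [← e1, ← e2, ← e3] at h2 h3 h4
    exact ⟨h1, h2, h3, h4⟩
  obtain ⟨C2, hC2⟩ := half_DG hQ hc (comp_ne hG) hD2 hs2 hE2
  set P : ℤ → ℝ := fun t => Q (A.eval t * D'.eval t) (B.eval t * D'.eval t) ^ r with hP
  have hP0 : ∀ t, 0 ≤ P t := fun t => pow_nonneg (hQ.nn _ _) _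
  refine ⟨C1 + C2 + P 0, fun X hX => ?_⟩
  have hXr : (1 : ℝ) ≤ X := by exact_mod_cast hX
  have e1 : ∑ t ∈ Icc 1 X, P (t : ℤ) ≤ C1 * (X * (1 + Real.log X) ^ e) := hC1 X hX
  have e2 : ∑ t ∈ Icc 1 X, P (-(t : ℤ)) ≤ C2 * (X * (1 + Real.log X) ^ e) := by
    have h := hC2 X hX
    simp only [eval_neg_comp] at h
    exact h
  have hsub : Icc (-(X : ℤ)) X ⊆ ((Icc 1 X).image (fun t : ℕ => (t : ℤ)) ∪
      (Icc 1 X).image (fun t : ℕ => -(t : ℤ))) ∪ {0} := by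
    intro t ht
    rw [mem_Icc] at ht
    rw [mem_union, mem_union, mem_image, mem_image, mem_singleton]
    rcases lt_trichotomy t 0 with h | h | h
    · left; right
      exact ⟨t.natAbs, mem_Icc.2 (by omega), by omega⟩
    · right; exact h
    · left; left
      exact ⟨t.natAbs, mem_Icc.2 (by omega), by omega⟩
  have hun : ∀ S T : Finset ℤ, ∑ t ∈ S ∪ T, P t ≤ ∑ t ∈ S, P t + ∑ t ∈ T, P t := by
    intro S T
    rw [← sum_union_inter]
    exact le_add_of_nonneg_right (sum_nonneg fun t _ => hP0 t)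
  have e3 : ∑ t ∈ (Icc 1 X).image (fun t : ℕ => (t : ℤ)), P t = ∑ t ∈ Icc 1 X, P (t : ℤ) :=
    sum_image (fun i _ j _ hij => by exact_mod_cast hij)
  have e4 : ∑ t ∈ (Icc 1 X).image (fun t : ℕ => -(t : ℤ)), P t = ∑ t ∈ Icc 1 X, P (-(t : ℤ)) :=
    sum_image (fun i _ j _ hij => by simpa using hij)
  show ∑ t ∈ Icc (-(X : ℤ)) X, P t ≤ (C1 + C2 + P 0) * (X * (1 + Real.log X) ^ e)
  have h5 := (sum_le_sum_of_subset_of_nonneg hsub (fun t _ _ => hP0 t)).trans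
    ((hun _ _).trans (add_le_add (hun _ _) le_rfl))
  rw [e3, e4, sum_singleton] at h5
  have h6 : P 0 ≤ P 0 * (X * (1 + Real.log X) ^ e) :=
    (le_mul_of_one_le_right (hP0 0) hXr).trans (le_XL (hP0 0) hE.nn hX)
  linarith

/-- **the moments in the one-parameter family**, the twisting polynomial has even order at the
zeros of `A B (A - B)` -/
theorem fam_Q (hQ : QL Q) {A B D : ℤ[X]} (hD : D ≠ 0)
    (hS : Squarefree ((A * B * (A - B)).map (Int.castRingHom ℚ)))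
    (hev : ∀ P : ℚ[X], Irreducible P → P ∣ (A * B * (A - B)).map (Int.castRingHom ℚ) →
      Even (multiplicity P (D.map (Int.castRingHom ℚ))))
    {r : ℕ} {e : ℝ} (he : 0 ≤ e)
    (h0 : ((2 : ℝ) ^ r - 1) * (nf A - ((nf B : ℝ) + nf (A - B)) / 2 ^ r) ≤ e)
    (h1 : ((2 : ℝ) ^ r - 1) * (nf B - ((nf A : ℝ) + nf (A - B)) / 2 ^ r) ≤ e)
    (h2 : ((2 : ℝ) ^ r - 1) * (nf (A - B) - ((nf A : ℝ) + nf B) / 2 ^ r) ≤ e) :
    ∃ C : ℝ, ∀ X : ℕ, 1 ≤ X → ∑ t ∈ Icc (-(X : ℤ)) X,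
        Q (A.eval t * D.eval t) (B.eval t * D.eval t) ^ r ≤
        C * (X * (1 + Real.log X) ^ e) := by
  obtain ⟨c, g, f, hc, hg, hf, hs, heq⟩ := sep_sq _ D rfl hD
  refine all_DG hQ hc hg heq ?_ ⟨he, h0, h1, h2⟩
  apply sep_of_sqf
  unfold ft
  rw [Polynomial.map_mul, squarefree_mul_iff]
  refine ⟨?_, hS, sqf_of_sep hs⟩
  have hsf := sqf_of_sep hs
  refine WfDvdMonoid.isRelPrime_of_no_irreducible_factors (fun h => map_ne hf h.2) ?_
  intro P hP hPA hPf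
  have hev' := hev P hP hPA
  have hPp : Prime P := hP.prime
  have hm : C ((c : ℚ) ^ 2) * D.map (Int.castRingHom ℚ) =
      (g.map (Int.castRingHom ℚ)) ^ 2 * f.map (Int.castRingHom ℚ) := by
    have := congrArg (Polynomial.map (Int.castRingHom ℚ)) heq
    simpa only [Polynomial.map_mul, Polynomial.map_C, Polynomial.map_pow, Int.coe_castRingHom,
      Int.cast_pow] using this
  have hcq : ((c : ℚ) ^ 2) ≠ 0 := by
    have : (c : ℚ) ≠ 0 := by exact_mod_cast hc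
    positivity
  have hfin : ∀ x : ℚ[X], x ≠ 0 → FiniteMultiplicity P x := fun x hx =>
    FiniteMultiplicity.of_prime_left hPp hx
  have hu : multiplicity P (C ((c : ℚ) ^ 2)) = 0 := by
    apply multiplicity_eq_zero.2
    intro h
    exact hP.not_isUnit (isUnit_of_dvd_unit h (isUnit_C.2 (isUnit_iff_ne_zero.2 hcq)))
  have h3 := congrArg (multiplicity P) hm
  rw [multiplicity_mul hPp (hfin _ (mul_ne_zero (C_ne_zero.2 hcq) (map_ne hD))), hu, zero_add,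
    multiplicity_mul hPp (hfin _ (mul_ne_zero (pow_ne_zero 2 (map_ne hg)) (map_ne hf))),
    FiniteMultiplicity.multiplicity_pow hPp (hfin _ (map_ne hg))] at h3
  have h4 : multiplicity P (f.map (Int.castRingHom ℚ)) = 1 := by
    refine multiplicity_eq_of_dvd_of_not_dvd (by rwa [pow_one]) ?_
    intro h
    rw [sq] at h
    exact hP.not_isUnit (hsf P h)
  rw [h4] at h3
  rw [h3] at hev'
  obtain ⟨k, hk⟩ := hev'
  omega

end Pool.Agent.U214.GT
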