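import Mathlib
import Pool.Agent.W262.RK.SymL
import Pool.Agent.U214.PT.Wt

/-! # Symbols with general bounded multiplicative functions -/

set_option autoImplicit false

namespace Pool.Agent.U214.GT

open Finset Pool.Agent.W262.RK Pool.Agent.U214.PT
open Pool.Agent.W655.RK (PS_prime PS_lt PS_le sum_mult prod_le_exp sum_inv_sq chr chr_prod chr_abs
  exp_small prod_primes_squarefree)

variable {ι : Type} [Fintype ι] [DecidableEq ι]

/-- the symbol -/
noncomputable def SymG (L : ι → ι → Bool) (ψ : ι → ℕ → ℝ) (d : ι → ℕ) : ℝ :=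
  (∏ a, ∏ b, if L a b then Jr (d a) (d b) else 1) * ∏ a, gh (ψ a) (d a)

/-- the rest -/
noncomputable def RRG (L : ι → ι → Bool) (ψ : ι → ℕ → ℝ) (i : ι) (e : ι → ℕ) : ℝ :=
  (∏ a ∈ univ.erase i, ∏ b ∈ univ.erase i, if L a b then Jr (e a) (e b) else 1) *
    ∏ a ∈ univ.erase i, gh (ψ a) (e a)

lemma Jr_one' (m : ℕ) : Jr 1 m = 1 := by
  unfold Jr
  simp

lemma symG_update (L : ι → ι → Bool) (ψ : ι → ℕ → ℝ) (i : ι) (hL : L i i = false) (e : ι → ℕ)
    (m : ℕ) : SymG L ψ (Function.update e i m) = XX L i e m * gh (ψ i) m * RRG L ψ i e := by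
  have h1 := sym_update L (fun _ => (1 : ℤ)) i hL e m
  unfold Pool.Agent.W262.RK.Sym RR at h1
  simp only [Jr_one', prod_const_one, mul_one] at h1
  unfold SymG RRG
  rw [h1, ← mul_prod_erase univ _ (mem_univ i), Function.update_self]
  have h2 : ∏ x ∈ univ.erase i, gh (ψ x) (Function.update e i m x) =
      ∏ x ∈ univ.erase i, gh (ψ x) (e x) := by
    refine prod_congr rfl fun x hx => ?_
    rw [Function.update_of_ne (mem_erase.1 hx).1]
  rw [h2]
  ring

lemma abs_gh_le {φ : ℕ → ℝ} (h : ∀ p, |φ p| ≤ 1) (d : ℕ) : |gh φ d| ≤ 1 := by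
  unfold gh
  exact abs_prod_le_one _ _ fun p _ => h p

lemma abs_RRG_le {ψ : ι → ℕ → ℝ} (h : ∀ i p, |ψ i p| ≤ 1) (L : ι → ι → Bool) (i : ι)
    (e : ι → ℕ) : |RRG L ψ i e| ≤ 1 := by
  unfold RRG
  rw [abs_mul]
  apply mul_le_one₀ _ (abs_nonneg _) _
  · apply abs_prod_le_one
    intro a _
    apply abs_prod_le_one
    intro b _
    exact abs_ite_Jr _ _ _
  · apply abs_prod_le_one
    intro a _
    exact abs_gh_le (h a) _

lemma abs_SymG_le {ψ : ι → ℕ → ℝ} (h : ∀ i p, |ψ i p| ≤ 1) (L : ι → ι → Bool)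
    (d : ι → ℕ) : |SymG L ψ d| ≤ 1 := by
  unfold SymG
  rw [abs_mul]
  apply mul_le_one₀ _ (abs_nonneg _) _
  · apply abs_prod_le_one
    intro a _
    apply abs_prod_le_one
    intro b _
    exact abs_ite_Jr _ _ _
  · apply abs_prod_le_one
    intro a _
    exact abs_gh_le (h a) _

variable {h : ℕ → ℝ} {B C0 M : ℝ} {z : ℕ}

/-- the twisted Euler product -/
theorem epG (H : Wt h B C0 M z) {w : ℝ} (hw : 0 < w) (hwB : w * B ≤ 1) (hz : 3 ≤ z) {ψ : ℕ → ℝ}
    (hψ : ∀ p, |ψ p| ≤ 1) (y R r : ℕ) (e : Bool) (hy : z < y) (hR : R ≠ 0) :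
    |∑ d ∈ (PP z y).divisors.filter (fun d => d.Coprime R),
        gh (fun p => w * h p) d * (Jr d r * gh ψ d * x4 e d)| ≤
      Real.exp (w * C0) * (Real.log y) ^ (w * M) *
        Real.exp (-(w * ∑ p ∈ PS z y, h p * (1 - Jr p r * ψ p * x4 e p))) * hh R := by
  classical
  have hlog : 0 < Real.log y := Real.log_pos (by exact_mod_cast (by omega : 1 < y))
  set S' := (PS z y).filter (fun p => ¬ p ∣ R) with hS'
  have hS'p : ∀ p ∈ S', p.Prime := fun p hp => PS_prime (mem_filter.1 hp).1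
  have hset : (PP z y).divisors.filter (fun d => d.Coprime R) = (∏ p ∈ S', p).divisors := by
    have hsq1 := prod_primes_squarefree (PS z y) fun p hp => PS_prime hp
    have hsq2 := prod_primes_squarefree S' hS'p
    ext d
    rw [mem_filter, Nat.mem_divisors, Nat.mem_divisors]
    constructor
    · rintro ⟨⟨hd, -⟩, hc⟩
      refine ⟨?_, hsq2.ne_zero⟩
      have hsd : Squarefree d := hsq1.squarefree_of_dvd hd
      rw [← Nat.prod_primeFactors_of_squarefree hsd]
      refine Finset.prod_dvd_prod_of_subset _ _ _ fun p hp => ?_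
      have hpp := Nat.prime_of_mem_primeFactors hp
      have hpd := Nat.dvd_of_mem_primeFactors hp
      have h1 : p ∈ PS z y := by
        rw [← Nat.primeFactors_prod (s := PS z y) fun p hp => PS_prime hp]
        exact Nat.primeFactors_mono hd hsq1.ne_zero hp
      refine mem_filter.2 ⟨h1, fun hpR => ?_⟩
      have := Nat.dvd_gcd hpd hpR
      rw [hc.gcd_eq_one] at this
      exact hpp.one_lt.ne' (Nat.dvd_one.1 this)
    · rintro ⟨hd, -⟩
      refine ⟨⟨hd.trans (Finset.prod_dvd_prod_of_subset _ _ _ (filter_subset _ _)),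
        hsq1.ne_zero⟩, ?_⟩
      refine Nat.Coprime.coprime_dvd_left hd ?_
      exact Nat.Coprime.prod_left fun p hp =>
        ((hS'p p hp).coprime_iff_not_dvd).2 (mem_filter.1 hp).2
  set φ : ℕ → ℝ := fun p => w * h p * (chr 1 r e p * ψ p) with hφ
  have hsum : ∑ d ∈ (PP z y).divisors.filter (fun d => d.Coprime R),
      gh (fun p => w * h p) d * (Jr d r * gh ψ d * x4 e d) = ∏ p ∈ S', (1 + φ p) := by
    rw [hset, ← sum_mult S' hS'p φ]
    refine Finset.sum_congr rfl fun d hd => ?_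
    have hsd : Squarefree d :=
      (prod_primes_squarefree S' hS'p).squarefree_of_dvd (Nat.dvd_of_mem_divisors hd)
    have h0 : Jr d r * gh ψ d * x4 e d = chr 1 r e d * gh ψ d := by
      unfold chr
      rw [Jr_one']
      ring
    rw [h0]
    have h1 : chr 1 r e d = ∏ p ∈ d.primeFactors, chr 1 r e p := by
      rw [← chr_prod 1 r e _ fun p hp => Nat.prime_of_mem_primeFactors hp,
        Nat.prod_primeFactors_of_squarefree hsd]
    rw [h1]
    unfold gh
    rw [← Finset.prod_mul_distrib, ← Finset.prod_mul_distrib]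
  rw [hsum]
  have hwh : ∀ p ∈ PS z y, 0 ≤ w * h p ∧ w * h p ≤ 1 / p ∧ (1 : ℝ) / p ≤ 1 / 2 := by
    intro p hp
    refine ⟨mul_nonneg hw.le (H.nn p (PS_prime hp) (PS_lt hp)),
      wh_le H hw.le hwB (PS_prime hp) (PS_lt hp), ?_⟩
    apply one_div_le_one_div_of_le (by norm_num)
    exact_mod_cast (PS_prime hp).two_le
  have habs : ∀ p ∈ PS z y, |φ p| ≤ w * h p := by
    intro p hp
    rw [hφ]
    simp only
    rw [abs_mul, abs_of_nonneg (hwh p hp).1]
    apply mul_le_of_le_one_right (hwh p hp).1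
    rw [abs_mul]
    exact mul_le_one₀ (chr_abs 1 r e p) (abs_nonneg _) (hψ p)
  have hfac : ∀ p ∈ S', 0 ≤ 1 + φ p := by
    intro p hp
    have h1 := (abs_le.1 (habs p (mem_filter.1 hp).1)).1
    obtain ⟨h2, h3, h4⟩ := hwh p (mem_filter.1 hp).1
    linarith
  rw [abs_of_nonneg (Finset.prod_nonneg hfac)]
  refine (prod_le_exp S' φ hfac).trans ?_
  have hexp : ∑ p ∈ S', φ p ≤ (w * C0 + w * M * Real.log (Real.log y) +
      -(w * ∑ p ∈ PS z y, h p * (1 - Jr p r * ψ p * x4 e p))) +
      ∑ p ∈ (PS z y).filter (fun p => p ∣ R), w * h p := by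
    have hsplit := Finset.sum_filter_add_sum_filter_not (PS z y) (fun p => p ∣ R) φ
    have h1 : -∑ p ∈ (PS z y).filter (fun p => p ∣ R), w * h p ≤
        ∑ p ∈ (PS z y).filter (fun p => p ∣ R), φ p := by
      rw [← Finset.sum_neg_distrib]
      exact Finset.sum_le_sum fun p hp => (abs_le.1 (habs p (mem_filter.1 hp).1)).1
    have h2 : ∑ p ∈ PS z y, φ p = w * ∑ p ∈ PS z y, h p -
        w * ∑ p ∈ PS z y, h p * (1 - Jr p r * ψ p * x4 e p) := by
      rw [← mul_sub, ← sum_sub_distrib, mul_sum]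
      refine sum_congr rfl fun p _ => ?_
      rw [hφ]
      simp only
      unfold chr
      rw [Jr_one']
      ring
    have h3 := mul_le_mul_of_nonneg_left (H.up y (by omega)) hw.le
    have h4 : w * (M * Real.log (Real.log y) + C0) = w * C0 + w * M * Real.log (Real.log y) := by
      ring
    linarith
  have hhh : Real.exp (∑ p ∈ (PS z y).filter (fun p => p ∣ R), w * h p) ≤ hh R := by
    rw [Real.exp_sum]
    unfold hh
    have hsub : (PS z y).filter (fun p => p ∣ R) ⊆ R.primeFactors := by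
      intro p hp
      rw [mem_filter] at hp
      exact Nat.mem_primeFactors.2 ⟨PS_prime hp.1, hp.2, hR⟩
    calc ∏ p ∈ (PS z y).filter (fun p => p ∣ R), Real.exp (w * h p)
        ≤ ∏ p ∈ (PS z y).filter (fun p => p ∣ R), (1 + 2 / (p : ℝ)) := by
          refine Finset.prod_le_prod (fun p _ => (Real.exp_pos _).le) fun p hp => ?_
          obtain ⟨h2, h3, h4⟩ := hwh p (mem_filter.1 hp).1
          refine (exp_small _ h2 (h3.trans h4)).trans ?_
          have h5 : 2 / (p : ℝ) = 2 * (1 / p) := by ring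
          rw [h5]
          linarith
      _ ≤ ∏ p ∈ R.primeFactors, (1 + 2 / (p : ℝ)) := by
          refine Finset.prod_le_prod_of_subset_of_one_le hsub (fun p _ => by positivity)
            fun p _ _ => ?_
          have : (0:ℝ) ≤ 2 / (p : ℝ) := by positivity
          linarith
  calc Real.exp (∑ p ∈ S', φ p) ≤ Real.exp ((w * C0 + w * M * Real.log (Real.log y) +
      -(w * ∑ p ∈ PS z y, h p * (1 - Jr p r * ψ p * x4 e p))) +
      ∑ p ∈ (PS z y).filter (fun p => p ∣ R), w * h p) := Real.exp_le_exp.2 hexp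
    _ = Real.exp (w * C0) * (Real.log y) ^ (w * M) *
        Real.exp (-(w * ∑ p ∈ PS z y, h p * (1 - Jr p r * ψ p * x4 e p))) *
        Real.exp (∑ p ∈ (PS z y).filter (fun p => p ∣ R), w * h p) := by
        rw [Real.rpow_def_of_pos hlog, ← Real.exp_add, ← Real.exp_add, ← Real.exp_add]
        congr 1
        ring
    _ ≤ _ := mul_le_mul_of_nonneg_left hhh (by positivity)

end Pool.Agent.U214.GT
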