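import Mathlib
import Pool.Agent.U214.GT.AT1

/-! # The abstract bound with general weights: two linked large variables -/

set_option autoImplicit false

namespace Pool.Agent.U214.GT

open Finset Pool.Agent.U214.PT Pool.Agent.W262.RK
open Pool.Agent.W262.RK.AT (VV YY BW lg cl cell cell_sub cell_zero cell_one cell_two cell_three
  patterns one_le_log three_le_VV VV_le_YY VV_ge VV_le log_YY_ge log_YY_le log_VV_pow_le exp_neg_pow
  one_le_log_VV sum_others hh_mul_le hh_prod_le)

namespace AG

variable {ι : Type} [Fintype ι] [DecidableEq ι]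

variable {g : ι → ℕ → ℝ} {h : ι → ℕ → ℝ} {w ex : ι → ℝ} {L : ι → ι → Bool} {κ : ι → ℕ → ℝ} {N z : ℕ}
  {C : ℝ}

/-- the summand as a function of two linked variables -/
lemma HG_pair (hB : Bd g ex κ N z C) {i j : ι} (hij : i ≠ j) (hLi : L i i = false)
    (hL1 : L i j = true) (hL2 : L j i = false) {y : ℕ} {e : ι → ℕ}
    (he : ∀ b, e b ∈ (PP z y).divisors) :
    ∃ (q : ℝ) (a b : ℕ → ℝ), |q| ≤ ∏ k ∈ (univ.erase i).erase j, g k (e k) ∧
      (∀ m, |a m| ≤ 1) ∧ (∀ m, |b m| ≤ 1) ∧
      ∀ m ∈ (PP z y).divisors, ∀ n ∈ (PP z y).divisors,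
        HG g L κ (Function.update (Function.update e j n) i m) =
          q * (g i m * a m) * (g j n * b n) * Jr m n := by
  classical
  have hjm : j ∈ univ.erase i := mem_erase.2 ⟨hij.symm, mem_univ j⟩
  set q : ℝ := if (∀ a b, a ≠ i → b ≠ i → a ≠ j → b ≠ j → a ≠ b → (e a).Coprime (e b)) then
    ∏ k ∈ (univ.erase i).erase j, g k (e k) else 0 with hq
  set X' : ℕ → ℝ := fun m => ∏ b ∈ (univ.erase i).erase j,
    (if L i b then Jr m (e b) else 1) * (if L b i then Jr (e b) m else 1) with hX'
  set a : ℕ → ℝ := fun m => if (∀ b, b ≠ i → b ≠ j → m.Coprime (e b)) then X' m * gh (κ i) m else 0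
    with ha
  set b : ℕ → ℝ := fun n => if (∀ b, b ≠ i → b ≠ j → n.Coprime (e b)) then
    RRG L κ i (Function.update e j n) else 0 with hb
  have hP0 : 0 ≤ ∏ k ∈ (univ.erase i).erase j, g k (e k) :=
    prod_nonneg fun k _ => hB.g0 k _ _ (he k)
  refine ⟨q, a, b, ?_, ?_, ?_, ?_⟩
  · rw [hq]
    split_ifs
    · rw [abs_of_nonneg hP0]
    · simpa using hP0
  · intro m
    rw [ha]
    simp only
    split_ifs
    · rw [abs_mul]
      apply mul_le_one₀ _ (abs_nonneg _) (abs_gh_le (hB.ps i) _)
      rw [hX']
      apply abs_prod_le_one
      intro k _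
      rw [abs_mul]
      exact mul_le_one₀ (abs_ite_Jr _ _ _) (abs_nonneg _) (abs_ite_Jr _ _ _)
    · simp
  · intro n
    rw [hb]
    simp only
    split_ifs
    · exact abs_RRG_le hB.ps _ _ _
    · simp
  · intro m hm n hn
    have hm0 := dv_ne_zero hm
    have hn0 := dv_ne_zero hn
    by_cases hmn : m.Coprime n
    · have hXX : XX L i (Function.update e j n) m = Jr m n * X' m := by
        unfold XX
        rw [← mul_prod_erase _ _ hjm, Function.update_self, hL1, hL2]
        simp only [if_true, Bool.false_eq_true, if_false, mul_one]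
        rw [hX']
        congr 1
        apply prod_congr rfl
        intro k hk
        rw [Function.update_of_ne (mem_erase.1 hk).1]
      have hgw : ∏ k, g k (Function.update (Function.update e j n) i m k) =
          g i m * (g j n * ∏ k ∈ (univ.erase i).erase j, g k (e k)) := by
        rw [← mul_prod_erase univ _ (mem_univ i), Function.update_self]
        congr 1
        rw [← mul_prod_erase _ _ hjm, Function.update_of_ne hij.symm, Function.update_self]
        congr 1
        apply prod_congr rfl
        intro k hk
        have h1 := mem_erase.1 hk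
        rw [Function.update_of_ne (mem_erase.1 h1.2).1, Function.update_of_ne h1.1]
      have hcond : (∀ k l, k ≠ l → (Function.update (Function.update e j n) i m k).Coprime
          (Function.update (Function.update e j n) i m l)) ↔
          (∀ a b, a ≠ i → b ≠ i → a ≠ j → b ≠ j → a ≠ b → (e a).Coprime (e b)) ∧
          (∀ b, b ≠ i → b ≠ j → m.Coprime (e b)) ∧ (∀ b, b ≠ i → b ≠ j → n.Coprime (e b)) := by
        have ui : ∀ v : ι → ℕ, Function.update v i m i = m := fun v => Function.update_self i m v
        constructor
        · intro h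
          refine ⟨?_, ?_, ?_⟩
          · intro k l h1 h2 h3 h4 h5
            have := h k l h5
            rwa [Function.update_of_ne h1, Function.update_of_ne h3, Function.update_of_ne h2,
              Function.update_of_ne h4] at this
          · intro k h1 h2
            have := h i k h1.symm
            rwa [Function.update_self, Function.update_of_ne h1, Function.update_of_ne h2] at this
          · intro k h1 h2
            have := h j k h2.symm
            rwa [Function.update_of_ne hij.symm, Function.update_self, Function.update_of_ne h1,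
              Function.update_of_ne h2] at this
        · rintro ⟨h1, h2, h3⟩ k l hkl
          by_cases hk : k = i
          · subst hk
            rw [Function.update_self, Function.update_of_ne hkl.symm]
            by_cases hl : l = j
            · subst hl
              rw [Function.update_self]
              exact hmn
            · rw [Function.update_of_ne hl]
              exact h2 l hkl.symm hl
          · rw [Function.update_of_ne hk]
            by_cases hl : l = i
            · subst hl
              rw [Function.update_self]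
              by_cases hk' : k = j
              · subst hk'
                rw [Function.update_self]
                exact hmn.symm
              · rw [Function.update_of_ne hk']
                exact (h2 k hk hk').symm
            · rw [Function.update_of_ne hl]
              by_cases hk' : k = j
              · subst hk'
                rw [Function.update_self, Function.update_of_ne hkl.symm]
                exact h3 l hl hkl.symm
              · rw [Function.update_of_ne hk']
                by_cases hl' : l = j
                · subst hl'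
                  rw [Function.update_self]
                  exact (h3 k hk hk').symm
                · rw [Function.update_of_ne hl']
                  exact h1 k l hk hl hk' hl' hkl
      unfold HG
      rw [symG_update L κ i hLi, hXX, hgw]
      by_cases c1 : ∀ a b, a ≠ i → b ≠ i → a ≠ j → b ≠ j → a ≠ b → (e a).Coprime (e b)
      · by_cases c2 : ∀ b, b ≠ i → b ≠ j → m.Coprime (e b)
        · by_cases c3 : ∀ b, b ≠ i → b ≠ j → n.Coprime (e b)
          · rw [if_pos (hcond.2 ⟨c1, c2, c3⟩), hq, if_pos c1, ha, hb]
            simp only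
            rw [if_pos c2, if_pos c3]
            ring
          · rw [if_neg (fun h => c3 (hcond.1 h).2.2), hb]
            simp only
            rw [if_neg c3]
            ring
        · rw [if_neg (fun h => c2 (hcond.1 h).2.1), ha]
          simp only
          rw [if_neg c2]
          ring
      · rw [if_neg (fun h => c1 (hcond.1 h).1), hq, if_neg c1]
        ring
    · rw [Jr_eq_zero hn0 hmn, mul_zero]
      unfold HG
      rw [if_neg]
      intro h
      have := h i j hij
      rw [Function.update_self, Function.update_of_ne hij.symm, Function.update_self] at this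
      exact hmn this

lemma pair_inner (hB : Bd g ex κ N z C) {C2 : ℝ} {E2 : ℕ} (h2 : BW C2 E2) {i j : ι} (hij : i ≠ j)
    (hLi : L i i = false) (hL1 : L i j = true) (hL2 : L j i = false) {y V Y : ℕ} (hV : 2 ≤ V)
    (hVY : V ≤ Y) {e : ι → ℕ} (he : ∀ b, e b ∈ (PP z y).divisors) :
    |∑ n ∈ lg z y V Y, ∑ m ∈ lg z y V Y,
        HG g L κ (Function.update (Function.update e j n) i m)| ≤
      (∏ k ∈ (univ.erase i).erase j, g k (e k)) *
        (C2 * (Real.log Y) ^ E2 * (V : ℝ) ^ (-(1 / 6 : ℝ))) := by
  classical
  obtain ⟨q, a, b, hq, ha, hb, h⟩ := HG_pair (L := L) hB hij hLi hL1 hL2 he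
  have hP0 : 0 ≤ ∏ k ∈ (univ.erase i).erase j, g k (e k) :=
    prod_nonneg fun k _ => hB.g0 k _ _ (he k)
  set a' : ℕ → ℝ := fun m => if m ∈ lg z y V Y then g i m * a m else 0 with ha'
  set b' : ℕ → ℝ := fun m => if m ∈ lg z y V Y then g j m * b m else 0 with hb'
  have hsub : lg z y V Y ⊆ Ioc V Y := by
    intro m hm
    rw [mem_Ioc]
    exact (mem_filter.1 hm).2
  have hDv : ∀ m ∈ lg z y V Y, m ∈ (PP z y).divisors := fun m hm => (mem_filter.1 hm).1
  have bd : ∀ (k : ι) (f : ℕ → ℝ), (∀ m, |f m| ≤ 1) → ∀ m,
      |if m ∈ lg z y V Y then g k m * f m else 0| ≤ 1 / (m : ℝ) := by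
    intro k f hf m
    split_ifs with hm
    · have g0 := hB.g0 k _ _ (hDv m hm)
      rw [abs_mul, abs_of_nonneg g0]
      exact (mul_le_of_le_one_right g0 (hf m)).trans
        (hB.gl k _ _ (hDv m hm))
    · simp
  have od : ∀ (k : ι) (f : ℕ → ℝ) (m : ℕ),
      (if m ∈ lg z y V Y then g k m * f m else 0) ≠ 0 → Odd m ∧ Squarefree m := by
    intro k f m hm
    by_cases h1 : m ∈ lg z y V Y
    · exact ⟨dv_odd hB.z2 (hDv m h1), dv_squarefree (hDv m h1)⟩
    · rw [if_neg h1] at hm
      exact absurd rfl hm
  have hmain := h2 V Y hV hVY a' b' (bd i a ha) (bd j b hb) (od i a) (od j b)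
  have heq : ∑ n ∈ lg z y V Y, ∑ m ∈ lg z y V Y,
      HG g L κ (Function.update (Function.update e j n) i m) =
      q * ∑ m ∈ Ioc V Y, ∑ n ∈ Ioc V Y, a' m * b' n * Jr m n := by
    rw [sum_comm]
    have e1 : ∑ m ∈ Ioc V Y, ∑ n ∈ Ioc V Y, a' m * b' n * Jr m n =
        ∑ m ∈ lg z y V Y, ∑ n ∈ lg z y V Y, a' m * b' n * Jr m n := by
      rw [← sum_subset hsub]
      · apply sum_congr rfl
        intro m _
        rw [← sum_subset hsub]
        intro n _ hn
        rw [hb']
        simp only
        rw [if_neg hn]
        ring
      · intro m _ hm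
        apply sum_eq_zero
        intro n _
        rw [ha']
        simp only
        rw [if_neg hm]
        ring
    rw [e1, mul_sum]
    apply sum_congr rfl
    intro m hm
    rw [mul_sum]
    apply sum_congr rfl
    intro n hn
    rw [h m (hDv m hm) n (hDv n hn), ha', hb']
    simp only
    rw [if_pos hm, if_pos hn]
    ring
  rw [heq, abs_mul]
  exact mul_le_mul hq hmain (abs_nonneg _) hP0

/-- two linked large variables -/
lemma pair_case (hB : Bd g ex κ N z C) {C2 : ℝ} {E2 : ℕ} (hC2 : 0 ≤ C2) (h2 : BW C2 E2) {i j : ι}
    (hij : i ≠ j) (hLi : L i i = false) (hL1 : L i j = true) (hL2 : L j i = false)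
    {y V Y : ℕ} (hy : z < y) (hV : 2 ≤ V) (hVY : V ≤ Y) {t : ι → Finset ℕ}
    (ht : ∀ b, t b ⊆ (PP z y).divisors) (hti : t i = lg z y V Y) (htj : t j = lg z y V Y) :
    |∑ d ∈ Fintype.piFinset t, HG g L κ d| ≤
      (C * (Real.log y) ^ N) ^ (Fintype.card ι) * (C2 * (Real.log Y) ^ E2 * (V : ℝ) ^ (-(1 / 6 : ℝ))) := by
  classical
  have hC0 : 0 ≤ C := zero_le_one.trans hB.C1
  have hly : 1 ≤ Real.log y := by
    have h3 : 3 ≤ y := by have := hB.z3; omega
    rw [Real.le_log_iff_exp_le (by exact_mod_cast (by omega : 0 < y))]
    have h1 : (3 : ℝ) ≤ y := by exact_mod_cast h3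
    have h2 := Real.exp_one_lt_d9
    linarith
  have hlY : 0 ≤ Real.log Y := Real.log_natCast_nonneg Y
  rw [sum_update t i, sum_update (Function.update t i {1}) j, Function.update_of_ne hij.symm, hti, htj]
  refine (abs_sum_le_sum_abs _ _).trans ?_
  have hQ : 0 ≤ C2 * (Real.log Y) ^ E2 * (V : ℝ) ^ (-(1 / 6 : ℝ)) := by positivity
  have hstep : ∀ e ∈ Fintype.piFinset (Function.update (Function.update t i {1}) j {1}),
      |∑ n ∈ lg z y V Y, ∑ m ∈ lg z y V Y,
        HG g L κ (Function.update (Function.update e j n) i m)| ≤
      (∏ k ∈ univ.erase j, (if k = i then 1 else g k (e k))) *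
        (C2 * (Real.log Y) ^ E2 * (V : ℝ) ^ (-(1 / 6 : ℝ))) := by
    intro e he
    have he' : ∀ b, e b ∈ (PP z y).divisors := by
      intro b
      have := Fintype.mem_piFinset.1 he b
      by_cases hb : b = j
      · subst hb
        rw [Function.update_self, mem_singleton] at this
        rw [this]
        exact one_mem_dv z y
      · rw [Function.update_of_ne hb] at this
        by_cases hb' : b = i
        · subst hb'
          rw [Function.update_self, mem_singleton] at this
          rw [this]
          exact one_mem_dv z y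
        · rw [Function.update_of_ne hb'] at this
          exact ht b this
    refine (pair_inner hB h2 hij hLi hL1 hL2 hV hVY he').trans ?_
    apply mul_le_mul_of_nonneg_right _ hQ
    apply le_of_eq
    have him : i ∈ univ.erase j := mem_erase.2 ⟨hij, mem_univ i⟩
    rw [← mul_prod_erase _ _ him, if_pos rfl, one_mul]
    have : (univ.erase i).erase j = (univ.erase j).erase i := by
      ext k
      simp only [mem_erase, mem_univ, and_true]
      tauto
    rw [this]
    apply prod_congr rfl
    intro k hk
    rw [if_neg (mem_erase.1 hk).1]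
  refine (sum_le_sum hstep).trans ?_
  rw [← sum_mul, sum_others j (Function.update t i {1}) (fun k m => if k = i then 1 else g k m)]
  apply mul_le_mul_of_nonneg_right _ hQ
  have hCl : 1 ≤ C * (Real.log y) ^ N := by
    have h1 : 1 ≤ (Real.log y) ^ N := one_le_pow₀ hly
    nlinarith [hB.C1]
  have hf : ∀ k ∈ univ.erase j, ∑ m ∈ Function.update t i {1} k,
      (if k = i then 1 else g k m) ≤ C * (Real.log y) ^ N := by
    intro k _
    by_cases hk : k = i
    · subst hk
      rw [Function.update_self]
      simpa using hCl
    · rw [Function.update_of_ne hk]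
      simp only [if_neg hk]
      calc ∑ m ∈ t k, g k m ≤ ∑ m ∈ (PP z y).divisors, g k m :=
            sum_le_sum_of_subset_of_nonneg (ht k) fun m hm _ => hB.g0 k _ _ hm
        _ ≤ ∑ m ∈ (PP z y).divisors, g k m * hh m := sum_le_sum fun m hm => gl_hh hB k hm
        _ ≤ C * (Real.log y) ^ (ex k) := hB.F1 k y hy
        _ ≤ C * (Real.log y) ^ N := by
          apply mul_le_mul_of_nonneg_left _ hC0
          rw [← Real.rpow_natCast]
          exact Real.rpow_le_rpow_of_exponent_le hly (hB.w1 k)
  have hf0 : ∀ k ∈ univ.erase j, 0 ≤ ∑ m ∈ Function.update t i {1} k,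
      (if k = i then 1 else g k m) := by
    intro k _
    apply sum_nonneg
    intro m hm
    by_cases hk : k = i
    · rw [if_pos hk]; exact zero_le_one
    · rw [if_neg hk]
      rw [Function.update_of_ne hk] at hm
      exact hB.g0 k _ _ (ht k hm)
  calc ∏ k ∈ univ.erase j, ∑ m ∈ Function.update t i {1} k, (if k = i then 1 else g k m)
      ≤ ∏ k ∈ univ.erase j, (C * (Real.log y) ^ N) := prod_le_prod hf0 hf
    _ = (C * (Real.log y) ^ N) ^ (univ.erase j).card := by rw [prod_const]
    _ ≤ (C * (Real.log y) ^ N) ^ (Fintype.card ι) := by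
      apply pow_le_pow_right₀ hCl
      exact (card_le_card (erase_subset _ _)).trans (le_of_eq card_univ)

end AG

end Pool.Agent.U214.GT
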