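import Mathlib
import Pool.Agent.U214.GT.AT2

/-! # The abstract bound with general weights: the cases -/

set_option autoImplicit false

namespace Pool.Agent.U214.GT

open Finset Pool.Agent.U214.PT Pool.Agent.W262.RK
open Pool.Agent.W262.RK.AT (VV YY BW lg cl cell cell_sub cell_zero cell_one cell_two cell_three
  patterns one_le_log three_le_VV VV_le_YY VV_ge VV_le log_YY_ge log_YY_le log_VV_pow_le exp_neg_pow
  one_le_log_VV sum_others hh_mul_le hh_prod_le)

namespace AG

variable {ι : Type} [Fintype ι] [DecidableEq ι]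

variable {g : ι → ℕ → ℝ} {h : ι → ℕ → ℝ} {w ex : ι → ℝ} {L : ι → ι → Bool} {κ : ι → ℕ → ℝ} {N z : ℕ}
  {C : ℝ}

lemma gk_nonneg (hB : Bd g ex κ N z C) (k : ι) {y m : ℕ} (hm : m ∈ (PP z y).divisors) :
    0 ≤ g k m * hh m :=
  mul_nonneg (hB.g0 k _ _ hm) (hh_nonneg _)

/-- every cell -/
lemma cs_any (hB : Bd g ex κ N z C) {y : ℕ} (hy : z < y) (V Y : ℕ) (k : ι) (r : Fin 4) :
    ∑ m ∈ cell z y V Y r, g k m * hh m ≤ C * (Real.log y) ^ N := by
  have hC0 : 0 ≤ C := zero_le_one.trans hB.C1
  have hly := one_le_log hB.z2 hy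
  calc ∑ m ∈ cell z y V Y r, g k m * hh m ≤ ∑ m ∈ (PP z y).divisors, g k m * hh m :=
        sum_le_sum_of_subset_of_nonneg (cell_sub _ _ _ _ _) fun m hm _ => gk_nonneg hB k hm
    _ ≤ C * (Real.log y) ^ (ex k) := hB.F1 k y hy
    _ ≤ C * (Real.log y) ^ N := by
      apply mul_le_mul_of_nonneg_left _ hC0
      rw [← Real.rpow_natCast]
      exact Real.rpow_le_rpow_of_exponent_le hly (hB.w1 k)

/-- the cells of the kinds 0, 1, 2 -/
lemma cs_low (hB : Bd g ex κ N z C) {y : ℕ} (hy : z < y) {V Y : ℕ} (hV : 3 ≤ V) (k : ι) {r : Fin 4}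
    (hr : r ≠ 3) : ∑ m ∈ cell z y V Y r, g k m * hh m ≤
      C * (if r = 2 then (Real.log y) ^ (ex k) else (Real.log V) ^ N) := by
  have hC0 : 0 ≤ C := zero_le_one.trans hB.C1
  have hly := one_le_log hB.z2 hy
  have hlV : 1 ≤ Real.log V := by
    rw [Real.le_log_iff_exp_le (by exact_mod_cast (by omega : 0 < V))]
    have h1 : (3 : ℝ) ≤ V := by exact_mod_cast hV
    have h2 := Real.exp_one_lt_d9
    linarith
  by_cases h2 : r = 2
  · rw [if_pos h2]
    calc ∑ m ∈ cell z y V Y r, g k m * hh m ≤ ∑ m ∈ (PP z y).divisors, g k m * hh m :=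
          sum_le_sum_of_subset_of_nonneg (cell_sub _ _ _ _ _) fun m hm _ => gk_nonneg hB k hm
      _ ≤ C * (Real.log y) ^ (ex k) := hB.F1 k y hy
  · rw [if_neg h2]
    have hsub : cell z y V Y r ⊆ (PP z y).divisors.filter (fun d => d ≤ V) := by
      intro m hm
      rw [mem_filter]
      refine ⟨cell_sub _ _ _ _ _ hm, ?_⟩
      have : r = 0 ∨ r = 1 := by
        fin_cases r
        · exact Or.inl rfl
        · exact Or.inr rfl
        · exact absurd rfl h2
        · exact absurd rfl hr
      rcases this with h | h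
      · subst h
        have := cell_zero hm
        omega
      · subst h
        exact (cell_one hm).2
    calc ∑ m ∈ cell z y V Y r, g k m * hh m
        ≤ ∑ m ∈ (PP z y).divisors.filter (fun d => d ≤ V), g k m * hh m :=
          sum_le_sum_of_subset_of_nonneg hsub fun m hm _ => gk_nonneg hB k (mem_filter.1 hm).1
      _ ≤ C * (Real.log V) ^ (ex k) := hB.F2 k y V hy (by omega)
      _ ≤ C * (Real.log V) ^ N := by
        apply mul_le_mul_of_nonneg_left _ hC0
        rw [← Real.rpow_natCast]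
        exact Real.rpow_le_rpow_of_exponent_le hlV (hB.w1 k)

/-- product of the sums over cells of kinds 0, 1, 2 -/
lemma prod_low (hB : Bd g ex κ N z C) {y : ℕ} (hy : z < y) {V Y : ℕ} (hV : 3 ≤ V) (π : ι → Fin 4)
    (s : Finset ι) (hs : ∀ k ∈ s, π k ≠ 3) :
    ∏ k ∈ s, ∑ m ∈ cell z y V Y (π k), g k m * hh m ≤
      C ^ (Fintype.card ι) * (Real.log y) ^ (∑ k ∈ s.filter (fun k => π k = 2), ex k) *
        (Real.log V) ^ (N * Fintype.card ι) := by
  have hC0 : 0 ≤ C := zero_le_one.trans hB.C1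
  have hly := one_le_log hB.z2 hy
  have hly0 : 0 < Real.log y := by linarith
  have hlV : 1 ≤ Real.log V := by
    rw [Real.le_log_iff_exp_le (by exact_mod_cast (by omega : 0 < V))]
    have h1 : (3 : ℝ) ≤ V := by exact_mod_cast hV
    have h2 := Real.exp_one_lt_d9
    linarith
  have hlV' : 1 ≤ (Real.log V) ^ N := one_le_pow₀ hlV
  have hcard : s.card ≤ Fintype.card ι := (card_le_card (subset_univ s)).trans (le_of_eq card_univ)
  rw [pow_mul]
  calc ∏ k ∈ s, ∑ m ∈ cell z y V Y (π k), g k m * hh m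
      ≤ ∏ k ∈ s, (C * (if π k = 2 then (Real.log y) ^ (ex k) else (Real.log V) ^ N)) := by
        apply prod_le_prod
        · intro k _
          exact sum_nonneg fun m hm => gk_nonneg hB k (cell_sub _ _ _ _ _ hm)
        · intro k hk
          exact cs_low hB hy hV k (hs k hk)
    _ = C ^ s.card * ((∏ k ∈ s.filter (fun k => π k = 2), (Real.log y) ^ (ex k)) *
          ∏ k ∈ s.filter (fun k => ¬ π k = 2), (Real.log V) ^ N) := by
        rw [prod_mul_distrib, prod_const, prod_ite]
    _ ≤ C ^ (Fintype.card ι) * ((Real.log y) ^ (∑ k ∈ s.filter (fun k => π k = 2), ex k) *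
          ((Real.log V) ^ N) ^ (Fintype.card ι)) := by
        apply mul_le_mul (pow_le_pow_right₀ hB.C1 hcard) _ _ (by positivity)
        · apply mul_le_mul
          · rw [← Real.rpow_sum_of_pos hly0]
          · rw [prod_const]
            exact pow_le_pow_right₀ hlV' ((card_filter_le _ _).trans hcard)
          · positivity
          · positivity
        · apply mul_nonneg
          · exact prod_nonneg fun _ _ => by positivity
          · exact prod_nonneg fun _ _ => by positivity
    _ = _ := by ring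

/-- a huge variable -/
lemma tail_case (hB : Bd g ex κ N z C) (A : ℕ) {K : ℝ} (hK : 0 ≤ K) (π : ι → Fin 4) {k : ι}
    (hk : π k = 3) : ∃ C' : ℝ, ∀ y, z < y →
      |∑ d ∈ Fintype.piFinset (fun b => cell z y (VV A (Real.log y)) (YY A (Real.log y)) (π b)),
        HG g L κ d| ≤ C' * (Real.log y) ^ K := by
  have hC0 : 0 ≤ C := zero_le_one.trans hB.C1
  refine ⟨C ^ (Fintype.card ι + 1) * (N * (Fintype.card ι + 1)).factorial, fun y hy => ?_⟩
  have hly := one_le_log hB.z2 hy
  have hly0 : 0 < Real.log y := by linarith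
  set l := Real.log y with hl
  set V := VV A l with hV
  set Y := YY A l with hY
  refine (triv hB fun i => cell_sub _ _ _ _ _).trans ?_
  have h1 : ∏ i, ∑ m ∈ cell z y V Y (π i), g i m ≤
      ∏ i, ∑ m ∈ cell z y V Y (π i), g i m * hh m := by
    apply prod_le_prod
    · intro i _
      exact sum_nonneg fun m hm => hB.g0 i _ _ (cell_sub _ _ _ _ _ hm)
    · intro i _
      exact sum_le_sum fun m hm => gl_hh hB i (cell_sub _ _ _ _ _ hm)
  refine h1.trans ?_
  rw [← mul_prod_erase univ _ (mem_univ k), hk]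
  have h2 : ∑ m ∈ cell z y V Y 3, g k m * hh m ≤ C * Real.exp (-l) * l ^ N := by
    have hV3 := three_le_VV A l
    have hVY := VV_le_YY A l
    calc ∑ m ∈ cell z y V Y 3, g k m * hh m
        ≤ ∑ m ∈ (PP z y).divisors.filter (fun d => Y < d), g k m * hh m := by
          apply sum_le_sum_of_subset_of_nonneg
          · intro m hm
            rw [mem_filter]
            exact ⟨cell_sub _ _ _ _ _ hm, cell_three hm⟩
          · intro m hm _
            exact gk_nonneg hB k (mem_filter.1 hm).1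
      _ ≤ C * Real.exp (-(Real.log Y / Real.log y)) * (Real.log y) ^ N :=
          hB.F3 k y Y hy (by omega)
      _ ≤ C * Real.exp (-l) * l ^ N := by
          apply mul_le_mul_of_nonneg_right _ (by positivity)
          apply mul_le_mul_of_nonneg_left _ hC0
          apply Real.exp_le_exp.2
          rw [neg_le_neg_iff, le_div_iff₀ hly0]
          have := log_YY_ge A l
          nlinarith
  have h3 : ∏ b ∈ univ.erase k, ∑ m ∈ cell z y V Y (π b), g b m * hh m ≤
      (C * l ^ N) ^ (Fintype.card ι) := by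
    have hCl : 1 ≤ C * l ^ N := by
      have h1 : 1 ≤ l ^ N := one_le_pow₀ hly
      nlinarith [hB.C1]
    calc _ ≤ ∏ b ∈ univ.erase k, (C * l ^ N) := by
          apply prod_le_prod
          · intro b _
            exact sum_nonneg fun m hm => gk_nonneg hB b (cell_sub _ _ _ _ _ hm)
          · intro b _
            exact cs_any hB hy V Y b (π b)
      _ = (C * l ^ N) ^ (univ.erase k).card := by rw [prod_const]
      _ ≤ _ := by
          apply pow_le_pow_right₀ hCl
          exact (card_le_card (erase_subset _ _)).trans (le_of_eq card_univ)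
  have h4 : 1 ≤ l ^ K := Real.one_le_rpow hly hK
  have h5 := exp_neg_pow (N * (Fintype.card ι + 1)) hly
  calc _ ≤ C * Real.exp (-l) * l ^ N * (C * l ^ N) ^ (Fintype.card ι) := by
        apply mul_le_mul h2 h3 _ (by positivity)
        exact prod_nonneg fun b _ => sum_nonneg fun m hm => gk_nonneg hB b (cell_sub _ _ _ _ _ hm)
    _ = C ^ (Fintype.card ι + 1) * (Real.exp (-l) * l ^ (N * (Fintype.card ι + 1))) := by
        rw [mul_pow, ← pow_mul]
        ring
    _ ≤ C ^ (Fintype.card ι + 1) * (N * (Fintype.card ι + 1)).factorial :=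
        mul_le_mul_of_nonneg_left h5 (by positivity)
    _ ≤ _ := le_mul_of_one_le_right (by positivity) h4

/-- two linked large variables -/
lemma link_case (hB : Bd g ex κ N z C) {C2 : ℝ} {E2 : ℕ} (hC2 : 0 ≤ C2) (h2 : BW C2 E2)
    (hL : ∀ i, L i i = false) {A : ℕ} (hA : 6 * (N * Fintype.card ι + 2 * E2) ≤ A) {K : ℝ} (hK : 0 ≤ K)
    (π : ι → Fin 4) {i j : ι} (hi : π i = 2) (hj : π j = 2) (hij : L i j ≠ L j i) :
    ∃ C' : ℝ, ∀ y, z < y →
      |∑ d ∈ Fintype.piFinset (fun b => cell z y (VV A (Real.log y)) (YY A (Real.log y)) (π b)),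
        HG g L κ d| ≤ C' * (Real.log y) ^ K := by
  have hC0 : 0 ≤ C := zero_le_one.trans hB.C1
  refine ⟨C ^ (Fintype.card ι) * C2 * (A + 3) ^ E2, fun y hy => ?_⟩
  have hly := one_le_log hB.z2 hy
  have hly0 : 0 < Real.log y := by linarith
  set l := Real.log y with hl
  set V := VV A l with hV
  set Y := YY A l with hY
  have hV3 : 3 ≤ V := three_le_VV A l
  have hVY : V ≤ Y := VV_le_YY A l
  have hne : i ≠ j := by rintro rfl; exact hij rfl
  have hc2 : ∀ b, π b = 2 → cell z y V Y (π b) = lg z y V Y := fun b hb => by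
    rw [hb]; exact cell_two (by omega)
  have hmain : |∑ d ∈ Fintype.piFinset (fun b => cell z y V Y (π b)), HG g L κ d| ≤
      (C * l ^ N) ^ (Fintype.card ι) * (C2 * (Real.log Y) ^ E2 * (V : ℝ) ^ (-(1 / 6 : ℝ))) := by
    rcases h1 : L i j with _ | _
    · rcases h1' : L j i with _ | _
      · rw [h1, h1'] at hij; exact absurd rfl hij
      · exact pair_case hB hC2 h2 hne.symm (hL j) h1' h1 hy (by omega) hVY
          (fun b => cell_sub _ _ _ _ _) (hc2 j hj) (hc2 i hi)
    · rcases h1' : L j i with _ | _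
      · exact pair_case hB hC2 h2 hne (hL i) h1 h1' hy (by omega) hVY
          (fun b => cell_sub _ _ _ _ _) (hc2 i hi) (hc2 j hj)
      · rw [h1, h1'] at hij; exact absurd rfl hij
  refine hmain.trans ?_
  have h3 : Real.log Y ≤ (A + 3) * l ^ 2 := log_YY_le hly
  have h3' : 0 ≤ Real.log Y := Real.log_natCast_nonneg Y
  have h4 : (V : ℝ) ^ (-(1 / 6 : ℝ)) ≤ (l ^ (N * Fintype.card ι + 2 * E2))⁻¹ := by
    have h5 : l ^ (6 * (N * Fintype.card ι + 2 * E2)) ≤ V :=
      (pow_le_pow_right₀ hly hA).trans (VV_ge A l)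
    have h6 : (0 : ℝ) < l ^ (6 * (N * Fintype.card ι + 2 * E2)) := by positivity
    have h7 : (V : ℝ) ^ (-(1 / 6 : ℝ)) ≤ (l ^ (6 * (N * Fintype.card ι + 2 * E2))) ^ (-(1 / 6 : ℝ)) :=
      Real.rpow_le_rpow_of_nonpos h6 h5 (by norm_num)
    refine h7.trans (le_of_eq ?_)
    rw [← Real.rpow_natCast l, ← Real.rpow_mul hly0.le, ← Real.rpow_natCast l,
      ← Real.rpow_neg hly0.le]
    congr 1
    push_cast
    ring
  have h8 : (1 : ℝ) ≤ l ^ K := Real.one_le_rpow hly hK
  calc (C * l ^ N) ^ (Fintype.card ι) * (C2 * (Real.log Y) ^ E2 * (V : ℝ) ^ (-(1 / 6 : ℝ)))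
      ≤ (C * l ^ N) ^ (Fintype.card ι) * (C2 * ((A + 3) * l ^ 2) ^ E2 *
          (l ^ (N * Fintype.card ι + 2 * E2))⁻¹) := by
        apply mul_le_mul_of_nonneg_left _ (by positivity)
        apply mul_le_mul _ h4 (by positivity) (by positivity)
        exact mul_le_mul_of_nonneg_left (pow_le_pow_left₀ h3' h3 _) hC2
    _ = C ^ (Fintype.card ι) * C2 * (A + 3) ^ E2 := by
        rw [mul_pow, mul_pow, ← pow_mul, ← pow_mul, pow_add]
        field_simp
    _ ≤ _ := le_mul_of_one_le_right (by positivity) h8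

/-- unlinked large variables: the trivial bound -/
lemma triv_case (hB : Bd g ex κ N z C) (A : ℕ) {K : ℝ} (π : ι → Fin 4) (h3 : ∀ k, π k ≠ 3)
    (hK : ∑ k ∈ univ.filter (fun k => π k = 2), ex k < K) :
    ∃ C' : ℝ, ∀ y, z < y →
      |∑ d ∈ Fintype.piFinset (fun b => cell z y (VV A (Real.log y)) (YY A (Real.log y)) (π b)),
        HG g L κ d| ≤ C' * (Real.log y) ^ K := by
  have hC0 : 0 ≤ C := zero_le_one.trans hB.C1
  set S := ∑ k ∈ univ.filter (fun k => π k = 2), ex k with hS
  obtain ⟨C1, hC1, h1⟩ := log_VV_pow_le A (N * Fintype.card ι) (sub_pos.2 hK)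
  refine ⟨C ^ (Fintype.card ι) * C1, fun y hy => ?_⟩
  have hly := one_le_log hB.z2 hy
  have hly0 : 0 < Real.log y := by linarith
  set l := Real.log y with hl
  set V := VV A l with hV
  set Y := YY A l with hY
  refine (triv hB fun i => cell_sub _ _ _ _ _).trans ?_
  have e1 : ∏ i, ∑ m ∈ cell z y V Y (π i), g i m ≤
      ∏ i, ∑ m ∈ cell z y V Y (π i), g i m * hh m := by
    apply prod_le_prod
    · intro i _
      exact sum_nonneg fun m hm => hB.g0 i _ _ (cell_sub _ _ _ _ _ hm)
    · intro i _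
      exact sum_le_sum fun m hm => gl_hh hB i (cell_sub _ _ _ _ _ hm)
  refine e1.trans ((prod_low hB hy (three_le_VV A l) π univ fun k _ => h3 k).trans ?_)
  rw [← hS]
  calc C ^ (Fintype.card ι) * l ^ S * (Real.log V) ^ (N * Fintype.card ι)
      ≤ C ^ (Fintype.card ι) * l ^ S * (C1 * l ^ (K - S)) :=
        mul_le_mul_of_nonneg_left (h1 l hly) (by positivity)
    _ = C ^ (Fintype.card ι) * C1 * (l ^ S * l ^ (K - S)) := by ring
    _ = _ := by rw [← Real.rpow_add hly0]; congr 2; ring

/-- all variables are 1 or large and unlinked -/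
lemma diag_case (hB : Bd g ex κ N z C) (A : ℕ) {K : ℝ} (π : ι → Fin 4)
    (h3 : ∀ k, π k = 0 ∨ π k = 2) (hK : ∑ k ∈ univ.filter (fun k => π k = 2), ex k ≤ K) :
    ∃ C' : ℝ, ∀ y, z < y →
      |∑ d ∈ Fintype.piFinset (fun b => cell z y (VV A (Real.log y)) (YY A (Real.log y)) (π b)),
        HG g L κ d| ≤ C' * (Real.log y) ^ K := by
  have hC0 : 0 ≤ C := zero_le_one.trans hB.C1
  refine ⟨C ^ (Fintype.card ι), fun y hy => ?_⟩
  have hly := one_le_log hB.z2 hy
  have hly0 : 0 < Real.log y := by linarith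
  set l := Real.log y with hl
  set V := VV A l with hV
  set Y := YY A l with hY
  refine (triv hB fun i => cell_sub _ _ _ _ _).trans ?_
  have e1 : ∀ k ∈ (univ : Finset ι), ∑ m ∈ cell z y V Y (π k), g k m ≤
      C * (if π k = 2 then l ^ (ex k) else 1) := by
    intro k _
    rcases h3 k with h | h
    · rw [h, if_neg (by decide)]
      calc ∑ m ∈ cell z y V Y 0, g k m ≤ ∑ m ∈ ({1} : Finset ℕ), g k m := by
            apply sum_le_sum_of_subset_of_nonneg
            · intro m hm
              rw [mem_singleton]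
              exact cell_zero hm
            · intro m hm _
              rw [mem_singleton] at hm
              rw [hm, hB.g1]
              exact zero_le_one
        _ ≤ C * 1 := by
            rw [sum_singleton, hB.g1, mul_one]
            exact hB.C1
    · rw [if_pos h]
      calc ∑ m ∈ cell z y V Y (π k), g k m ≤ ∑ m ∈ cell z y V Y (π k), g k m * hh m :=
            sum_le_sum fun m hm => gl_hh hB k (cell_sub _ _ _ _ _ hm)
        _ ≤ ∑ m ∈ (PP z y).divisors, g k m * hh m :=
            sum_le_sum_of_subset_of_nonneg (cell_sub _ _ _ _ _) fun m hm _ => gk_nonneg hB k hm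
        _ ≤ _ := hB.F1 k y hy
  calc ∏ k, ∑ m ∈ cell z y V Y (π k), g k m
      ≤ ∏ k, (C * (if π k = 2 then l ^ (ex k) else 1)) := by
        apply prod_le_prod _ e1
        intro k _
        exact sum_nonneg fun m hm => hB.g0 k _ _ (cell_sub _ _ _ _ _ hm)
    _ = C ^ (Fintype.card ι) * l ^ (∑ k ∈ univ.filter (fun k => π k = 2), ex k) := by
        rw [prod_mul_distrib, prod_const, prod_ite, prod_const_one, mul_one,
          ← Real.rpow_sum_of_pos hly0, card_univ]
    _ ≤ _ := by
        apply mul_le_mul_of_nonneg_left _ (by positivity)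
        exact Real.rpow_le_rpow_of_exponent_le hly hK

end AG

end Pool.Agent.U214.GT
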